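import Mathlib

/-!
Rainbow cycles in edge-coloured complete graphs: basic definitions and the
rainbow path calculus.
-/

namespace Pool.Agent.H81.Rainbow

/-- The colouring `c` of the edges of the complete graph on `V` contains a rainbow `m`-cycle:
there are `m ≥ 3` distinct vertices `v 0, …, v (m-1)` (indices modulo `m`) such that the colours
of the `m` edges `v i, v (i+1)` are pairwise distinct. -/
def HasRainbowCycle {V C : Type*} (c : Sym2 V → C) (m : ℕ) : Prop :=
  3 ≤ m ∧ ∃ v : ZMod m → V, Function.Injective v ∧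
    Function.Injective fun i : ZMod m => c s(v i, v (i + 1))

section
variable {V C : Type*} {c : Sym2 V → C} {m : ℤ}

/-- a family of vertices and colours indexed by the integers modulo `m` -/
structure Frame (c : Sym2 V → C) (m : ℤ) where
  U : ℤ → V
  E : ℤ → C
  hm : 0 < m
  hU : ∀ s t, U s = U t ↔ m ∣ s - t
  hE : ∀ s t, E s = E t ↔ m ∣ s - t

/-- colour of the edge between the vertices with indices `s`, `t` -/
def Frame.K (F : Frame c m) (s t : ℤ) : C := c s(F.U s, F.U t)

theorem Frame.K_comm (F : Frame c m) (s t : ℤ) : F.K s t = F.K t s := by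
  unfold Frame.K; rw [Sym2.eq_swap]

theorem Frame.U_add (F : Frame c m) (s : ℤ) : F.U (s + m) = F.U s :=
  (F.hU _ _).2 ⟨1, by ring⟩

theorem Frame.E_add (F : Frame c m) (s : ℤ) : F.E (s + m) = F.E s :=
  (F.hE _ _).2 ⟨1, by ring⟩

theorem Frame.K_add (F : Frame c m) (s t : ℤ) : F.K (s + m) (t + m) = F.K s t := by
  unfold Frame.K; rw [F.U_add, F.U_add]

theorem Frame.K_add_left (F : Frame c m) (s t : ℤ) : F.K (s + m) t = F.K s t := by
  unfold Frame.K; rw [F.U_add]

theorem Frame.K_add_right (F : Frame c m) (s t : ℤ) : F.K s (t + m) = F.K s t := by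
  unfold Frame.K; rw [F.U_add]

theorem not_dvd_of_abs {m x : ℤ} (h0 : x ≠ 0) (h1 : x < m) (h2 : -m < x) : ¬ m ∣ x := by
  intro h
  apply h0
  apply Int.eq_zero_of_abs_lt_dvd h
  rw [abs_lt]; exact ⟨h2, h1⟩

theorem dvd_cases {m x : ℤ} (hm : 0 < m) (h : m ∣ x) (h1 : x < 2 * m) (h2 : -(2 * m) < x) :
    x = 0 ∨ x = m ∨ x = -m := by
  obtain ⟨q, rfl⟩ := h
  have hq1 : q < 2 := by
    by_contra hq
    push Not at hq
    nlinarith
  have hq2 : -2 < q := by
    by_contra hq
    push Not at hq
    nlinarith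
  have : q = -1 ∨ q = 0 ∨ q = 1 := by omega
  rcases this with h | h | h <;> subst h
  · right; right; ring
  · left; ring
  · right; left; ring

/-- there is a rainbow path with `l` edges from `a` to `b`, all of whose vertices have an index
in `VS` and all of whose colours have an index in `CS`. -/
def RP (F : Frame c m) (a b : ℤ) (l : ℕ) (VS CS : Set ℤ) : Prop :=
  ∃ p k : ℕ → ℤ, p 0 = a ∧ p l = b ∧ (∀ i ≤ l, p i ∈ VS) ∧ (∀ i < l, k i ∈ CS) ∧
    (∀ i ≤ l, ∀ j ≤ l, m ∣ p i - p j → i = j) ∧
    (∀ i < l, ∀ j < l, m ∣ k i - k j → i = j) ∧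
    ∀ i < l, F.K (p i) (p (i + 1)) = F.E (k i)

theorem RP.nil (F : Frame c m) (a : ℤ) : RP F a a 0 {a} ∅ := by
  refine ⟨fun _ => a, fun _ => 0, rfl, rfl, by simp, by simp, ?_, by simp, by simp⟩
  intro i hi j hj _; omega

theorem RP.mono {F : Frame c m} {a b : ℤ} {l : ℕ} {VS CS VS' CS' : Set ℤ}
    (h : RP F a b l VS CS) (hV : VS ⊆ VS') (hC : CS ⊆ CS') : RP F a b l VS' CS' := by
  obtain ⟨p, k, h0, h1, h2, h3, h4, h5, h6⟩ := h
  exact ⟨p, k, h0, h1, fun i hi => hV (h2 i hi), fun i hi => hC (h3 i hi), h4, h5, h6⟩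

theorem RP.append {F : Frame c m} {a b b' d : ℤ} {l1 l2 : ℕ} {V1 C1 V2 C2 : Set ℤ} {k0 : ℤ}
    (h1 : RP F a b l1 V1 C1) (h2 : RP F b' d l2 V2 C2) (hk : F.K b b' = F.E k0)
    (hV : ∀ x ∈ V1, ∀ y ∈ V2, ¬ m ∣ x - y)
    (hC1 : ∀ x ∈ C1, ¬ m ∣ x - k0) (hC2 : ∀ x ∈ C2, ¬ m ∣ x - k0)
    (hC : ∀ x ∈ C1, ∀ y ∈ C2, ¬ m ∣ x - y) :
    RP F a d (l1 + l2 + 1) (V1 ∪ V2) (insert k0 (C1 ∪ C2)) := by
  obtain ⟨p, k, h10, h11, h12, h13, h14, h15, h16⟩ := h1
  obtain ⟨q, k', h20, h21, h22, h23, h24, h25, h26⟩ := h2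
  have hsw : ∀ x y : ℤ, m ∣ x - y → m ∣ y - x := fun x y h => by
    have := (dvd_neg (a := m) (b := x - y)).2 h
    simpa using this
  refine ⟨fun i => if i ≤ l1 then p i else q (i - l1 - 1),
    fun i => if i < l1 then k i else if i = l1 then k0 else k' (i - l1 - 1), ?_, ?_, ?_, ?_,
    ?_, ?_, ?_⟩
  · simp [h10]
  · have e : ¬ (l1 + l2 + 1 ≤ l1) := by omega
    simp only [e, if_false]
    rw [show l1 + l2 + 1 - l1 - 1 = l2 by omega, h21]
  · intro i hi
    by_cases e : i ≤ l1
    · simp only [e, if_true]; exact Or.inl (h12 i e)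
    · simp only [e, if_false]; exact Or.inr (h22 _ (by omega))
  · intro i hi
    by_cases e : i < l1
    · simp only [e, if_true]; exact Or.inr (Or.inl (h13 i e))
    · by_cases e' : i = l1
      · simp only [e, e', if_true, lt_irrefl, if_false]; exact Or.inl rfl
      · simp only [e, e', if_false]; exact Or.inr (Or.inr (h23 _ (by omega)))
  · intro i hi j hj hij
    by_cases ei : i ≤ l1 <;> by_cases ej : j ≤ l1
    · simp only [ei, ej, if_true] at hij; exact h14 i ei j ej hij
    · simp only [ei, ej, if_true, if_false] at hij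
      exact absurd hij (hV _ (h12 i ei) _ (h22 _ (by omega)))
    · simp only [ei, ej, if_true, if_false] at hij
      exact absurd (hsw _ _ hij) (hV _ (h12 j ej) _ (h22 _ (by omega)))
    · simp only [ei, ej, if_false] at hij
      have := h24 _ (by omega) _ (by omega) hij
      omega
  · intro i hi j hj hij
    rcases lt_trichotomy i l1 with ei | ei | ei <;> rcases lt_trichotomy j l1 with ej | ej | ej
    · simp only [ei, ej, if_true] at hij; exact h15 i ei j ej hij
    · subst ej
      simp only [ei, if_true, lt_irrefl, if_false] at hij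
      exact absurd hij (hC1 _ (h13 i ei))
    · have e1 : ¬ j < l1 := by omega
      have e2 : ¬ j = l1 := by omega
      simp only [ei, e1, e2, if_true, if_false] at hij
      exact absurd hij (hC _ (h13 i ei) _ (h23 _ (by omega)))
    · subst ei
      simp only [ej, if_true, lt_irrefl, if_false] at hij
      exact absurd (hsw _ _ hij) (hC1 _ (h13 j ej))
    · omega
    · subst ei
      have e1 : ¬ j < i := by omega
      have e2 : ¬ j = i := by omega
      simp only [e1, e2, if_true, lt_irrefl, if_false] at hij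
      exact absurd (hsw _ _ hij) (hC2 _ (h23 _ (by omega)))
    · have e1 : ¬ i < l1 := by omega
      have e2 : ¬ i = l1 := by omega
      simp only [ej, e1, e2, if_true, if_false] at hij
      exact absurd (hsw _ _ hij) (hC _ (h13 j ej) _ (h23 _ (by omega)))
    · subst ej
      have e1 : ¬ i < j := by omega
      have e2 : ¬ i = j := by omega
      simp only [e1, e2, if_true, lt_irrefl, if_false] at hij
      exact absurd hij (hC2 _ (h23 _ (by omega)))
    · have e1 : ¬ i < l1 := by omega
      have e2 : ¬ i = l1 := by omega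
      have e3 : ¬ j < l1 := by omega
      have e4 : ¬ j = l1 := by omega
      simp only [e1, e2, e3, e4, if_false] at hij
      have := h25 _ (by omega) _ (by omega) hij
      omega
  · intro i hi
    rcases lt_trichotomy i l1 with ei | ei | ei
    · have e1 : i ≤ l1 := by omega
      have e2 : i + 1 ≤ l1 := by omega
      simp only [ei, e1, e2, if_true]; exact h16 i ei
    · subst ei
      have e2 : ¬ i + 1 ≤ i := by omega
      simp only [le_refl, e2, if_true, if_false, lt_irrefl]
      rw [h11, show i + 1 - i - 1 = 0 by omega, h20, hk]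
    · have e1 : ¬ i ≤ l1 := by omega
      have e2 : ¬ i + 1 ≤ l1 := by omega
      have e3 : ¬ i < l1 := by omega
      have e4 : ¬ i = l1 := by omega
      simp only [e1, e2, e3, e4, if_false]
      rw [show i + 1 - l1 - 1 = (i - l1 - 1) + 1 by omega]
      exact h26 _ (by omega)

theorem RP.rev {F : Frame c m} {a b : ℤ} {l : ℕ} {VS CS : Set ℤ}
    (h : RP F a b l VS CS) : RP F b a l VS CS := by
  obtain ⟨p, k, h0, h1, h2, h3, h4, h5, h6⟩ := h
  refine ⟨fun i => p (l - i), fun i => k (l - 1 - i), by simpa using h1, by simpa using h0,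
    fun i hi => h2 _ (by omega), fun i hi => h3 _ (by omega), ?_, ?_, ?_⟩
  · intro i hi j hj hij
    have := h4 _ (by omega) _ (by omega) hij
    omega
  · intro i hi j hj hij
    have := h5 _ (by omega) _ (by omega) hij
    omega
  · intro i hi
    simp only
    rw [F.K_comm, show l - i = (l - 1 - i) + 1 by omega, show l - (i + 1) = l - 1 - i by omega]
    exact h6 _ (by omega)

theorem RP.snoc {F : Frame c m} {a b b' : ℤ} {l : ℕ} {VS CS : Set ℤ} {k0 : ℤ}
    (h : RP F a b l VS CS) (hk : F.K b b' = F.E k0)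
    (hV : ∀ x ∈ VS, ¬ m ∣ x - b') (hC : ∀ x ∈ CS, ¬ m ∣ x - k0) :
    RP F a b' (l + 1) (insert b' VS) (insert k0 CS) := by
  have := RP.append h (RP.nil F b') hk (by intro x hx y hy; rw [Set.mem_singleton_iff] at hy; subst hy; exact hV x hx) hC (by simp) (by simp)
  refine this.mono ?_ ?_
  · intro x hx
    rcases hx with hx | hx
    · exact Or.inr hx
    · exact Or.inl hx
  · intro x hx
    rcases hx with hx | hx | hx
    · exact Or.inl hx
    · exact Or.inr hx
    · exact absurd hx (by simp)

/-- without a rainbow `n`-cycle, the edge closing a rainbow path with `n - 1` edges has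
the colour of one of the edges of the path -/
theorem RP.close {F : Frame c m} {a b : ℤ} {l n : ℕ} {VS CS : Set ℤ}
    (hn : ¬ HasRainbowCycle c n) (h : RP F a b l VS CS) (hl : l + 1 = n) (h3 : 3 ≤ n) :
    ∃ k ∈ CS, F.K b a = F.E k := by
  by_contra hcon
  push Not at hcon
  apply hn
  obtain ⟨p, k, h0, h1, h2, h3', h4, h5, h6⟩ := h
  have : NeZero n := ⟨by omega⟩
  refine ⟨h3, fun i => F.U (p i.val), ?_, ?_⟩
  · intro i j hij
    have hi := ZMod.val_lt i
    have hj := ZMod.val_lt j
    have := h4 i.val (by omega) j.val (by omega) ((F.hU _ _).1 hij)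
    exact ZMod.val_injective n this
  · have hval : ∀ i : ZMod n, i.val < l → (i + 1).val = i.val + 1 := by
      intro i hi
      rw [ZMod.val_add, ZMod.val_one'' (by omega)]
      exact Nat.mod_eq_of_lt (by omega)
    have hval' : ∀ i : ZMod n, ¬ i.val < l → i.val = l ∧ (i + 1).val = 0 := by
      intro i hi
      have := ZMod.val_lt i
      have e : i.val = l := by omega
      refine ⟨e, ?_⟩
      rw [ZMod.val_add, ZMod.val_one'' (by omega), e, hl, Nat.mod_self]
    intro i j hij
    simp only at hij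
    by_cases ei : i.val < l <;> by_cases ej : j.val < l
    · rw [hval i ei, hval j ej] at hij
      have e1 := h6 _ ei
      have e2 := h6 _ ej
      unfold Frame.K at e1 e2
      rw [e1, e2] at hij
      exact ZMod.val_injective n (h5 _ ei _ ej ((F.hE _ _).1 hij))
    · obtain ⟨ej1, ej2⟩ := hval' j ej
      rw [hval i ei, ej1, ej2, h0, h1] at hij
      have e1 := h6 _ ei
      unfold Frame.K at e1
      rw [e1] at hij
      exact absurd hij.symm (hcon _ (h3' _ ei))
    · obtain ⟨ei1, ei2⟩ := hval' i ei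
      rw [hval j ej, ei1, ei2, h0, h1] at hij
      have e1 := h6 _ ej
      unfold Frame.K at e1
      rw [e1] at hij
      exact absurd hij (hcon _ (h3' _ ej))
    · exact ZMod.val_injective n ((hval' i ei).1.trans (hval' j ej).1.symm)

/-- contradiction form of `RP.close` -/
theorem RP.false {F : Frame c m} {a b : ℤ} {l n : ℕ} {VS CS : Set ℤ} {k0 : ℤ}
    (hn : ¬ HasRainbowCycle c n) (h : RP F a b l VS CS) (hl : l + 1 = n) (h3 : 3 ≤ n)
    (hk : F.K b a = F.E k0) (hC : ∀ x ∈ CS, ¬ m ∣ x - k0) : False := by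
  obtain ⟨k, hk1, hk2⟩ := RP.close hn h hl h3
  exact hC k hk1 ((F.hE _ _).1 (hk2.symm.trans hk))

end

end Pool.Agent.H81.Rainbow
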