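import Pool.Agent.H81.Rainbow.Basic

/-! A colouring of `K_{4h-2}` with a rainbow Hamiltonian cycle and no rainbow `(2h+1)`-cycle. -/

namespace Pool.Agent.H81.Rainbow

/-- the level of a vertex -/
def lev (h i : ℕ) : ℕ := if i ≤ 2 * h - 1 then min (i + 1) (2 * h + 1 - i)
  else min (i - 2 * h + 2) (4 * h - i)

/-- the colour of an edge -/
def col (h u v : ℕ) : ℕ :=
  if lev h u % 2 = lev h v % 2 then
    (if (u = 2 * h - 1 ∧ v = 2 * h) ∨ (u = 2 * h ∧ v = 2 * h - 1) then 4 * h - 1 else 4 * h - 2)
  else if lev h u < lev h v then u else v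

theorem col_comm (h u v : ℕ) : col h u v = col h v u := by
  unfold col
  split_ifs <;> first | rfl | omega

/-- the colouring -/
def lowCol (h : ℕ) : Sym2 (Fin (4 * h - 2)) → ℕ :=
  Sym2.lift ⟨fun u v => col h u.val v.val, fun u v => col_comm h u.val v.val⟩

theorem lowCol_mk (h : ℕ) (u v : Fin (4 * h - 2)) : lowCol h s(u, v) = col h u.val v.val := rfl

theorem lev_le (h i : ℕ) (hh : 2 ≤ h) (hi : i < 4 * h - 2) : 1 ≤ lev h i ∧ lev h i ≤ h + 1 := by
  unfold lev; split_ifs <;> omega

theorem lev_one (h i : ℕ) (hh : 2 ≤ h) (hi : i < 4 * h - 2) (h1 : lev h i = 1) : i = 0 := by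
  unfold lev at h1; split_ifs at h1 <;> omega

/-- colours of the Hamiltonian cycle -/
def hcol (h k : ℕ) : ℕ :=
  if k < h then k else if k ≤ 2 * h - 2 then k + 1 else if k = 2 * h - 1 then 4 * h - 1
  else if k < 3 * h - 1 then k else if k ≤ 4 * h - 4 then k + 1 else 4 * h - 2

theorem col_succ (h k : ℕ) (hh : 2 ≤ h) (hk : k < 4 * h - 3) : col h k (k + 1) = hcol h k := by
  unfold col hcol lev
  split_ifs <;> omega

theorem col_last (h : ℕ) (hh : 2 ≤ h) : col h (4 * h - 3) 0 = 4 * h - 2 := by
  unfold col lev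
  split_ifs <;> omega

theorem hcol_inj (h k l : ℕ) (hh : 2 ≤ h) (hk : k < 4 * h - 2) (hl : l < 4 * h - 2)
    (e : hcol h k = hcol h l) : k = l := by
  unfold hcol at e
  split_ifs at e <;> omega

theorem low_has (h : ℕ) (hh : 2 ≤ h) : HasRainbowCycle (lowCol h) (4 * h - 2) := by
  have : NeZero (4 * h - 2) := ⟨by omega⟩
  refine ⟨by omega, fun i => ⟨i.val, ZMod.val_lt i⟩, ?_, ?_⟩
  · intro i j hij
    exact ZMod.val_injective _ (Fin.mk.inj hij)
  · have key : ∀ i : ZMod (4 * h - 2), lowCol h s(⟨i.val, ZMod.val_lt i⟩,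
        ⟨(i + 1).val, ZMod.val_lt (i + 1)⟩) = hcol h i.val := by
      intro i
      rw [lowCol_mk]
      have hi := ZMod.val_lt i
      have e : (i + 1).val = (i.val + 1) % (4 * h - 2) := by
        rw [ZMod.val_add, ZMod.val_one'' (by omega)]
      by_cases hc : i.val < 4 * h - 3
      · show col h i.val (i + 1).val = _
        rw [e, Nat.mod_eq_of_lt (by omega)]
        exact col_succ h _ hh hc
      · show col h i.val (i + 1).val = _
        have e1 : i.val = 4 * h - 3 := by omega
        rw [e, e1, show 4 * h - 3 + 1 = 4 * h - 2 by omega, Nat.mod_self, col_last h hh]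
        unfold hcol
        split_ifs <;> omega
    intro i j hij
    simp only at hij
    rw [key i, key j] at hij
    exact ZMod.val_injective _ (hcol_inj h _ _ hh (ZMod.val_lt i) (ZMod.val_lt j) hij)

theorem low_not (h : ℕ) (hh : 2 ≤ h) : ¬ HasRainbowCycle (lowCol h) (2 * h + 1) := by
  rintro ⟨-, v, hv, hc⟩
  have : NeZero (2 * h + 1) := ⟨by omega⟩
  set L : ZMod (2 * h + 1) → ℕ := fun i => lev h (v i).val with hL
  have hL1 : ∀ i, 1 ≤ L i ∧ L i ≤ h + 1 := fun i => lev_le h _ hh (v i).isLt
  set S : Finset (ZMod (2 * h + 1)) := Finset.univ.filter fun i => L i % 2 = L (i + 1) % 2 with hS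
  -- the number of edges between levels of different parity is even
  have hsum : ∑ i : ZMod (2 * h + 1), ((L (i + 1) : ZMod 2) + (L i : ZMod 2)) = 0 := by
    rw [Finset.sum_add_distrib]
    have : ∑ i : ZMod (2 * h + 1), (L (i + 1) : ZMod 2) = ∑ i : ZMod (2 * h + 1), (L i : ZMod 2) :=
      Equiv.sum_comp (Equiv.addRight (1 : ZMod (2 * h + 1))) fun i => (L i : ZMod 2)
    rw [this, CharTwo.add_self_eq_zero]
  have hterm : ∀ i : ZMod (2 * h + 1), ((L (i + 1) : ZMod 2) + (L i : ZMod 2)) =
      if ¬ L i % 2 = L (i + 1) % 2 then 1 else 0 := by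
    intro i
    rcases em (L i % 2 = L (i + 1) % 2) with h1 | h1
    · rw [if_neg (not_not.2 h1), ← Nat.cast_add]
      exact (ZMod.natCast_eq_zero_iff _ 2).2 (by omega)
    · rw [if_pos h1, ← Nat.cast_add]
      have := (ZMod.natCast_eq_natCast_iff (L (i + 1) + L i) 1 2).2
        (by unfold Nat.ModEq; omega)
      rw [this, Nat.cast_one]
  rw [Finset.sum_congr rfl fun i _ => hterm i, Finset.sum_boole, ZMod.natCast_eq_zero_iff] at hsum
  have hcard := Finset.card_filter_add_card_filter_not (s := (Finset.univ : Finset (ZMod (2 * h + 1))))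
    (fun i => L i % 2 = L (i + 1) % 2)
  rw [Finset.card_univ, ZMod.card] at hcard
  have hcard2 : S.card ≤ 2 := by
    have : S.card ≤ ({4 * h - 1, 4 * h - 2} : Finset ℕ).card := by
      refine Finset.card_le_card_of_injOn (fun i => lowCol h s(v i, v (i + 1))) ?_ (hc.injOn)
      intro i hi
      have hi' : L i % 2 = L (i + 1) % 2 := (Finset.mem_filter.1 hi).2
      show lowCol h s(v i, v (i + 1)) ∈ _
      rw [lowCol_mk]
      unfold col
      rw [if_pos hi']
      split_ifs <;> simp
    exact this.trans Finset.card_le_two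
  have hS1 : S.card = 1 := by
    have hS' : S.card = (Finset.univ.filter fun i => L i % 2 = L (i + 1) % 2).card := rfl
    omega
  obtain ⟨i0, hi0⟩ := Finset.card_eq_one.1 hS1
  have hne : ∀ i, i ≠ i0 → L i % 2 ≠ L (i + 1) % 2 := by
    intro i hi h1
    have : i ∈ S := Finset.mem_filter.2 ⟨Finset.mem_univ _, h1⟩
    rw [hi0] at this
    exact hi (Finset.mem_singleton.1 this)
  -- the path
  set w : ℕ → ZMod (2 * h + 1) := fun k => i0 + 1 + k with hw
  have hwinj : ∀ k l, k ≤ 2 * h → l ≤ 2 * h → w k = w l → k = l := by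
    intro k l hk hl e
    have e' : (k : ZMod (2 * h + 1)) = (l : ZMod (2 * h + 1)) := by
      simpa [hw] using e
    rw [ZMod.natCast_eq_natCast_iff] at e'
    have := e'
    unfold Nat.ModEq at this
    rwa [Nat.mod_eq_of_lt (by omega), Nat.mod_eq_of_lt (by omega)] at this
  have hw2 : w (2 * h) = i0 := by
    simp only [hw]
    have : ((2 * h + 1 : ℕ) : ZMod (2 * h + 1)) = 0 := ZMod.natCast_self _
    push_cast at this ⊢
    linear_combination this
  have hws : ∀ k, w (k + 1) = w k + 1 := by
    intro k; simp only [hw]; push_cast; ring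
  have hpar : ∀ k < 2 * h, L (w k) % 2 ≠ L (w (k + 1)) % 2 := by
    intro k hk
    rw [hws]
    apply hne
    intro e
    rw [← hw2] at e
    have := hwinj k (2 * h) (by omega) le_rfl e
    omega
  have hcolw : ∀ k < 2 * h, lowCol h s(v (w k), v (w k + 1)) =
      if L (w k) < L (w (k + 1)) then (v (w k)).val else (v (w (k + 1))).val := by
    intro k hk
    rw [lowCol_mk, ← hws]
    unfold col
    rw [if_neg (hpar k hk)]
  have hdu : ∀ k, k + 1 < 2 * h → L (w (k + 1)) < L (w k) → L (w (k + 2)) < L (w (k + 1)) := by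
    intro k hk h1
    by_contra h2
    have h3 := hpar (k + 1) (by omega)
    rw [show k + 1 + 1 = k + 2 by ring] at h3
    have e1 := hcolw k (by omega)
    have e2 := hcolw (k + 1) (by omega)
    rw [if_neg (by omega)] at e1
    rw [show k + 1 + 1 = k + 2 by ring, if_pos (by omega), ← e1] at e2
    have := hwinj _ _ (by omega) (by omega) (hc e2)
    omega
  have key : ∀ t, t ≤ 2 * h → (L (w 0) + t ≤ L (w t)) ∨
      ∃ T, T < t ∧ L (w 0) + T ≤ L (w T) ∧ L (w t) + (t - T) ≤ L (w T) ∧
        L (w t) < L (w (t - 1)) := by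
    intro t
    induction t with
    | zero => intro _; left; simp
    | succ t ih =>
      intro ht
      have h3 := hpar t (by omega)
      rcases ih (by omega) with h1 | ⟨T, hT, h1, h2, h4⟩
      · by_cases h2 : L (w t) < L (w (t + 1))
        · left; omega
        · right
          refine ⟨t, by omega, h1, by omega, ?_⟩
          rw [show t + 1 - 1 = t by omega]; omega
      · right
        have := hdu (t - 1) (by omega) (by
          rw [show t - 1 + 1 = t by omega]; exact h4)
        rw [show t - 1 + 2 = t + 1 by omega, show t - 1 + 1 = t by omega] at this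
        refine ⟨T, by omega, h1, by omega, ?_⟩
        rw [show t + 1 - 1 = t by omega]; exact this
  have a0 := hL1 (w 0)
  have a1 := hL1 (w (2 * h))
  rcases key (2 * h) le_rfl with h1 | ⟨T, hT, h1, h2, -⟩
  · omega
  · have a2 := hL1 (w T)
    have b0 : L (w 0) = 1 := by omega
    have b1 : L (w (2 * h)) = 1 := by omega
    have d0 := lev_one h _ hh (v (w 0)).isLt b0
    have d1 := lev_one h _ hh (v (w (2 * h))).isLt b1
    have := hwinj 0 (2 * h) (by omega) le_rfl (hv (Fin.ext (d0.trans d1.symm)))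
    omega

end Pool.Agent.H81.Rainbow
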