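import Pool.Agent.H81.Rainbow.One

/-! No rainbow `(4h-1)`-cycles: reduction -/

namespace Pool.Agent.H81.Rainbow

section
variable {V C : Type*} {c : Sym2 V → C} {m : ℤ}

structure Ctx0 (F : Frame c m) (h : ℤ) (n : ℕ) (x : ℤ → ℤ) : Prop where
  base : ∀ s, F.K s (s + 1) = F.E s
  hh : 3 ≤ h
  hm : m = 4 * h - 1
  hn : (n : ℤ) = 2 * h + 1
  non : ¬ HasRainbowCycle c n
  x0 : ∀ i, 0 ≤ x i
  x1 : ∀ i, x i ≤ 2 * h - 1
  fx : ∀ i, F.K i (i + 2 * h) = F.E (i + x i)

variable {F : Frame c m} {h : ℤ} {n : ℕ} {x : ℤ → ℤ}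

theorem Ctx0.refl (X : Ctx0 F h n x) :
    Ctx0 F.refl h n (fun s => 2 * h - 1 - x (-s - 2 * h)) where
  base := F.refl_base X.base
  hh := X.hh
  hm := X.hm
  hn := X.hn
  non := X.non
  x0 i := by have := X.x1 (-i - 2 * h); omega
  x1 i := by have := X.x0 (-i - 2 * h); omega
  fx i := by
    rw [F.refl_K, F.refl_E, F.K_comm]
    have := X.fx (-i - 2 * h)
    rw [show -i - 2 * h + 2 * h = -i by ring] at this
    rw [show -(i + 2 * h) = -i - 2 * h by ring, this]
    congr 1
    ring

theorem Ctx0.per (X : Ctx0 F h n x) (i : ℤ) : x (i + m) = x i := by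
  have h1 := X.fx (i + m)
  rw [show i + m + 2 * h = i + 2 * h + m by ring, F.K_add, X.fx i,
    show i + m + x (i + m) = i + x (i + m) + m by ring, F.E_add] at h1
  have := F.E_eq h1 (by have := X.x0 (i+m); have := X.x1 i; have := X.hm; have := X.hh; omega)
    (by have := X.x1 (i+m); have := X.x0 i; have := X.hm; have := X.hh; omega)
  omega

theorem Ctx0.step (X : Ctx0 F h n x) (i : ℤ) (hi : x i < h) :
    x (i + h) < h := by
  by_contra hcon
  push Not at hcon
  obtain ⟨hb, hh, hm, hn, non, x0, x1, fx⟩ := X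
  have a0 := x0 i
  have b1 := x1 (i + h)
  have b0 := x0 (i + h)
  have P1 := RP.down hb (i + h) (i + 2 * h) (by omega) (by omega)
  have P2 := RP.up hb (i + h + 2 * h) (i + m) (by omega) (by omega)
  have P3 := P1.append P2 (fx (i + h)) (by
    intros
    simp only [Set.mem_ofPred_eq, Set.mem_insert_iff, Set.mem_union, Set.mem_singleton_iff,
      Set.mem_empty_iff_false, or_false] at *
    apply ndvd <;> omega) (by
    intros
    simp only [Set.mem_ofPred_eq, Set.mem_insert_iff, Set.mem_union, Set.mem_singleton_iff,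
      Set.mem_empty_iff_false, or_false] at *
    apply ndvd <;> omega) (by
    intros
    simp only [Set.mem_ofPred_eq, Set.mem_insert_iff, Set.mem_union, Set.mem_singleton_iff,
      Set.mem_empty_iff_false, or_false] at *
    apply ndvd <;> omega) (by
    intros
    simp only [Set.mem_ofPred_eq, Set.mem_insert_iff, Set.mem_union, Set.mem_singleton_iff,
      Set.mem_empty_iff_false, or_false] at *
    apply ndvd <;> omega)
  refine P3.false (k0 := i + x i) non (by omega) (by omega) ?_ (by
    intros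
    simp only [Set.mem_ofPred_eq, Set.mem_insert_iff, Set.mem_union, Set.mem_singleton_iff,
      Set.mem_empty_iff_false, or_false] at *
    apply ndvd <;> omega)
  rw [F.K_add_left]
  exact fx i

theorem Ctx0.succ (X : Ctx0 F h n x) (i : ℤ) (hi : x i < h) : x (i + 1) < h := by
  have := X.step _ (X.step _ (X.step _ (X.step _ hi)))
  rw [show i + h + h + h + h = i + 1 + m by rw [X.hm]; ring, X.per] at this
  exact this

theorem Ctx0.all (X : Ctx0 F h n x) (i : ℤ) (hi : x i < h) (j : ℤ) : x j < h := by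
  have hm := X.hm
  have hh := X.hh
  have key : ∀ r : ℕ, x (i + r) < h := by
    intro r
    induction r with
    | zero => simpa using hi
    | succ r ih =>
      push_cast
      rw [← add_assoc]
      exact X.succ _ ih
  have perN : ∀ q : ℕ, x (j + q * m) = x j := by
    intro q
    induction q with
    | zero => simp
    | succ q ih =>
      rw [← ih, ← X.per (j + q * m)]
      push_cast
      congr 1; ring
  have e2 : (0 : ℤ) ≤ j - i + (i.natAbs + j.natAbs + 1) * m := by
    have : (i.natAbs + j.natAbs + 1 : ℤ) * 1 ≤ (i.natAbs + j.natAbs + 1) * m :=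
      mul_le_mul_of_nonneg_left (by omega) (by omega)
    omega
  have h1 := key (j - i + (i.natAbs + j.natAbs + 1) * m).toNat
  rw [Int.toNat_of_nonneg e2] at h1
  have h2 := perN (i.natAbs + j.natAbs + 1)
  rw [show j + ((i.natAbs + j.natAbs + 1 : ℕ) : ℤ) * m =
      i + (j - i + ((i.natAbs : ℤ) + j.natAbs + 1) * m) by push_cast; ring] at h2
  omega

/-- relabelling by multiplication with `2h` -/
def Frame.mul (F : Frame c m) (a b : ℤ) (hab : m ∣ a * b - 1) : Frame c m where
  U s := F.U (a * s)
  E s := F.E (a * s)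
  hm := F.hm
  hU s t := by
    rw [F.hU, ← mul_sub]
    constructor
    · intro h
      have h1 : m ∣ b * (a * (s - t)) := h.mul_left b
      have h2 : m ∣ (a * b - 1) * (s - t) := hab.mul_right _
      have := dvd_sub h1 h2
      rwa [show b * (a * (s - t)) - (a * b - 1) * (s - t) = s - t by ring] at this
    · intro h; exact h.mul_left a
  hE s t := by
    rw [F.hE, ← mul_sub]
    constructor
    · intro h
      have h1 : m ∣ b * (a * (s - t)) := h.mul_left b
      have h2 : m ∣ (a * b - 1) * (s - t) := hab.mul_right _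
      have := dvd_sub h1 h2
      rwa [show b * (a * (s - t)) - (a * b - 1) * (s - t) = s - t by ring] at this
    · intro h; exact h.mul_left a

theorem Ctx0.false (X : Ctx0 F h n x) (hL : ∀ i, x i < h) : False := by
  have hm := X.hm
  refine Ctx1.contr (F := F.mul (2 * h) 2 ⟨1, by rw [hm]; ring⟩) (h := h) (n := n)
    (y := fun s => x (2 * h * s)) ⟨X.hh, hm, X.hn, X.non, ?_, ?_, ?_, ?_⟩
  · intro s
    show F.K (2 * h * s) (2 * h * (s + 2)) = F.E (2 * h * s)
    rw [← X.base, show 2 * h * (s + 2) = 2 * h * s + 1 + m by rw [hm]; ring, F.K_add_right]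
  · intro s
    show F.K (2 * h * s) (2 * h * (s + 1)) = F.E (2 * h * (s + 2 * x (2 * h * s)))
    rw [show 2 * h * (s + 1) = 2 * h * s + 2 * h by ring, X.fx]
    refine (F.hE _ _).2 ⟨-x (2 * h * s), ?_⟩
    rw [hm]; ring
  · intro s; exact X.x0 _
  · intro s; have := hL (2 * h * s); show x (2 * h * s) ≤ h - 1; omega

theorem Ctx0.contr (X : Ctx0 F h n x) : False := by
  by_cases hc : ∃ i, x i < h
  · obtain ⟨i, hi⟩ := hc
    exact X.false (X.all i hi)
  · push Not at hc
    refine X.refl.false ?_
    intro i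
    have := hc (-i - 2 * h)
    show 2 * h - 1 - x (-i - 2 * h) < h
    omega

end

/-- If an edge-coloured complete graph has no rainbow `(2h+1)`-cycle, where `h ≥ 3`,
it has no rainbow `(4h-1)`-cycle. -/
theorem one_step {V C : Type*} (c : Sym2 V → C) (h : ℕ) (hh : 3 ≤ h)
    (non : ¬ HasRainbowCycle c (2 * h + 1)) : ¬ HasRainbowCycle c (4 * h - 1) := by
  intro hc
  obtain ⟨F, hb⟩ := exists_frame hc
  have hx : ∀ i : ℤ, ∃ y : ℤ, 0 ≤ y ∧ y ≤ 2 * h - 1 ∧ F.K i (i + 2 * h) = F.E (i + y) := by
    intro i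
    obtain ⟨k, hk, hk'⟩ := (RP.up hb i (i + 2 * h) (by omega) (by omega)).close non (by omega)
      (by omega)
    simp only [Set.mem_ofPred_eq] at hk
    refine ⟨k - i, by omega, by omega, ?_⟩
    rw [F.K_comm, hk']
    congr 1; ring
  choose x hx0 hx1 hx2 using hx
  exact Ctx0.contr (F := F) (h := h) (n := 2 * h + 1) (x := x)
    ⟨hb, by omega, by omega, by push_cast; ring, non, hx0, hx1, hx2⟩

end Pool.Agent.H81.Rainbow
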