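import Pool.Agent.H81.Rainbow.Odd2
import Pool.Agent.H81.Rainbow.One2
import Pool.Agent.H81.Rainbow.Lower

/-! Chord splitting and the linear upper bound. -/

namespace Pool.Agent.H81.Rainbow

/-- splitting a rainbow cycle along a chord -/
theorem closure {V C : Type*} (c : Sym2 V → C) (s t : ℕ) (hs : 1 ≤ s) (ht : 1 ≤ t)
    (h1 : ¬ HasRainbowCycle c (s + 2)) (h2 : ¬ HasRainbowCycle c (t + 2)) :
    ¬ HasRainbowCycle c (s + t + 2) := by
  intro hc
  obtain ⟨F, hb⟩ := exists_frame hc
  have hm : ((s + t + 2 : ℕ) : ℤ) = s + t + 2 := by push_cast; ring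
  obtain ⟨k1, hk1, e1⟩ := (RP.up hb 0 (s + 1) (by omega) (by omega)).close h1 (by omega) (by omega)
  obtain ⟨k2, hk2, e2⟩ := (RP.up hb (s + 1) (s + t + 2) (by omega) (by omega)).close h2 (by omega)
    (by omega)
  simp only [Set.mem_ofPred_eq] at hk1 hk2
  have e3 : F.K (s + t + 2 : ℤ) (s + 1) = F.K 0 (s + 1) := by
    rw [← F.K_add_left 0 (s + 1), show (0 : ℤ) + ((s + t + 2 : ℕ) : ℤ) = s + t + 2 by omega]
  rw [e3, F.K_comm, e1] at e2
  have := F.E_eq e2 (by omega) (by omega)
  omega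

/-- no rainbow `m`-cycle for odd `m` between `4h-1` and `6h-3` -/
theorem all_odd {V C : Type*} (c : Sym2 V → C) (h : ℕ) (hh : 3 ≤ h)
    (non : ¬ HasRainbowCycle c (2 * h + 1)) (κ : ℕ) (hκ : κ < h) :
    ¬ HasRainbowCycle c (4 * h + 2 * κ - 1) := by
  induction κ with
  | zero => exact one_step c h hh non
  | succ κ ih =>
    have := odd_step c h (κ + 1) (by omega) hκ non
      (by rw [show 4 * h + 2 * (κ + 1) - 3 = 4 * h + 2 * κ - 1 by omega]; exact ih (by omega))
    exact this

theorem upper {V C : Type*} (c : Sym2 V → C) (h : ℕ) (hh : 3 ≤ h)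
    (non : ¬ HasRainbowCycle c (2 * h + 1)) (m : ℕ) (hm : 8 * h - 4 ≤ m) :
    ¬ HasRainbowCycle c m := by
  have cl := closure c
  have pa : ¬ HasRainbowCycle c (2 * h - 1 + 2) := by
    rw [show 2 * h - 1 + 2 = 2 * h + 1 by omega]; exact non
  have p2a : ¬ HasRainbowCycle c (4 * h - 2 + 2) := by
    have := cl (2 * h - 1) (2 * h - 1) (by omega) (by omega) pa pa
    rwa [show 2 * h - 1 + (2 * h - 1) + 2 = 4 * h - 2 + 2 by omega] at this
  have po : ∀ κ, κ ≤ h → ¬ HasRainbowCycle c (4 * h - 3 + 2 * κ + 2) := by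
    intro κ hκ
    rcases Nat.lt_or_ge κ h with h1 | h1
    · have := all_odd c h hh non κ h1
      rwa [show 4 * h + 2 * κ - 1 = 4 * h - 3 + 2 * κ + 2 by omega] at this
    · have := cl (4 * h - 2) (2 * h - 1) (by omega) (by omega) p2a pa
      rwa [show 4 * h - 2 + (2 * h - 1) + 2 = 4 * h - 3 + 2 * κ + 2 by omega] at this
  have key : ∀ t, 8 * h - 6 ≤ t → ¬ HasRainbowCycle c (t + 2) := by
    intro t
    induction t using Nat.strong_induction_on with
    | _ t ih =>
      intro ht
      by_cases h1 : t ≤ 10 * h - 5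
      · by_cases h2 : t % 2 = 0
        · have h3 := po ((t - (8 * h - 6)) / 2 - (t - (8 * h - 6)) / 2 / 2) (by omega)
          have h4 := po ((t - (8 * h - 6)) / 2 / 2) (by omega)
          have := cl _ _ (by omega) (by omega) h3 h4
          rwa [show 4 * h - 3 + 2 * ((t - (8 * h - 6)) / 2 - (t - (8 * h - 6)) / 2 / 2) +
            (4 * h - 3 + 2 * ((t - (8 * h - 6)) / 2 / 2)) + 2 = t + 2 by omega] at this
        · have h3 := po ((t - (8 * h - 5)) / 2) (by omega)
          have := cl _ _ (by omega) (by omega) h3 p2a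
          rwa [show 4 * h - 3 + 2 * ((t - (8 * h - 5)) / 2) + (4 * h - 2) + 2 = t + 2 by omega]
            at this
      · have h3 := ih (t - (2 * h - 1)) (by omega) (by omega)
        have := cl _ _ (by omega) (by omega) h3 pa
        rwa [show t - (2 * h - 1) + (2 * h - 1) + 2 = t + 2 by omega] at this
  have := key (m - 2) (by omega)
  rwa [show m - 2 + 2 = m by omega] at this

end Pool.Agent.H81.Rainbow
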