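import Pool.Agent.H81.Rainbow.Odd

/-! Rainbow `(4h+2κ)`-cycles for `1 ≤ κ ≤ h-1`: structure of the colours of the long chords -/

namespace Pool.Agent.H81.Rainbow

section
variable {V C : Type*} {c : Sym2 V → C} {m : ℤ}

structure CtxE (F : Frame c m) (h κ : ℤ) (n : ℕ) (x : ℤ → ℤ) : Prop where
  base : ∀ s, F.K s (s + 1) = F.E s
  hκ : 1 ≤ κ
  hh : κ ≤ h - 1
  hm : m = 4 * h + 2 * κ
  hn : (n : ℤ) = 2 * h + 1
  non : ¬ HasRainbowCycle c n
  noM : ∀ M : ℕ, 4 * h ≤ (M : ℤ) → (M : ℤ) < m → M % 2 = 0 → ¬ HasRainbowCycle c M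
  x0 : ∀ i, 0 ≤ x i
  x1 : ∀ i, x i ≤ 2 * h - 1
  fx : ∀ i, F.K i (i + 2 * h) = F.E (i + x i)

variable {F : Frame c m} {h κ : ℤ} {n : ℕ} {x : ℤ → ℤ}

theorem CtxE.refl (X : CtxE F h κ n x) :
    CtxE F.refl h κ n (fun s => 2 * h - 1 - x (-s - 2 * h)) where
  base := F.refl_base X.base
  hκ := X.hκ
  hh := X.hh
  hm := X.hm
  hn := X.hn
  non := X.non
  noM := X.noM
  x0 i := by have := X.x1 (-i - 2 * h); omega
  x1 i := by have := X.x0 (-i - 2 * h); omega
  fx i := by
    rw [F.refl_K, F.refl_E, F.K_comm]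
    have := X.fx (-i - 2 * h)
    rw [show -i - 2 * h + 2 * h = -i by ring] at this
    rw [show -(i + 2 * h) = -i - 2 * h by ring, this]
    congr 1
    ring

theorem CtxE.per (X : CtxE F h κ n x) (i : ℤ) : x (i + m) = x i := by
  have h1 := X.fx (i + m)
  rw [show i + m + 2 * h = i + 2 * h + m by ring, F.K_add, X.fx i,
    show i + m + x (i + m) = i + x (i + m) + m by ring, F.E_add] at h1
  have := F.E_eq h1 (by have := X.x0 (i+m); have := X.x1 i; have := X.hm; have := X.hκ; have := X.hh; omega)
    (by have := X.x1 (i+m); have := X.x0 i; have := X.hm; have := X.hκ; have := X.hh; omega)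
  omega

theorem CtxE.perNat (X : CtxE F h κ n x) (i : ℤ) (q : ℕ) : x (i + q * m) = x i := by
  induction q with
  | zero => simp
  | succ q ih =>
    rw [← ih, ← X.per (i + q * m)]
    push_cast
    congr 1; ring

/-- the rule coming from the cycles with two long chords -/
theorem CtxE.twof (X : CtxE F h κ n x) (i k : ℤ) (hk : 2 ≤ k) (hk' : k ≤ κ + 1) (hi : x i < k) :
    x (i + k) < 2 * h - k := by
  by_contra hcon
  push Not at hcon
  obtain ⟨hb, hκ, hh, hm, hn, non, noM, x0, x1, fx⟩ := X
  have a0 := x0 i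
  have b1 := x1 (i + k)
  have b0 := x0 (i + k)
  have P1 := RP.down hb (i + k) (i + 2 * h) (by omega) (by omega)
  have P2 := RP.up hb (i + k + 2 * h) (i + m) (by omega) (by omega)
  have P3 := P1.append P2 (fx (i + k)) (by
      intros
      simp only [Set.mem_ofPred_eq, Set.mem_insert_iff, Set.mem_union, Set.mem_singleton_iff,
        Set.mem_empty_iff_false, or_false] at *
      apply ndvd <;> omega) (by
      intros
      simp only [Set.mem_ofPred_eq, Set.mem_insert_iff, Set.mem_union, Set.mem_singleton_iff,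
        Set.mem_empty_iff_false, or_false] at *
      apply ndvd <;> omega) (by
      intros
      simp only [Set.mem_ofPred_eq, Set.mem_insert_iff, Set.mem_union, Set.mem_singleton_iff,
        Set.mem_empty_iff_false, or_false] at *
      apply ndvd <;> omega) (by
      intros
      simp only [Set.mem_ofPred_eq, Set.mem_insert_iff, Set.mem_union, Set.mem_singleton_iff,
        Set.mem_empty_iff_false, or_false] at *
      apply ndvd <;> omega)
  refine P3.false (k0 := i + x i) (noM (m + 2 - 2 * k).toNat (by omega) (by omega) (by omega)) (by omega)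
    (by omega) ?_ (by
        intros
        simp only [Set.mem_ofPred_eq, Set.mem_insert_iff, Set.mem_union, Set.mem_singleton_iff,
          Set.mem_empty_iff_false, or_false] at *
        apply ndvd <;> omega)
  rw [F.K_add_left]
  exact fx i

/-- the long edge `(i, i+4h-1)` -/
theorem CtxE.gdom (X : CtxE F h κ n x) (i y : ℤ) (hy0 : 0 ≤ y) (hy1 : y ≤ 2 * h - 1) :
    ∃ G, F.K i (i + (4 * h - 1)) = F.E (i + G) ∧
      ((0 ≤ G ∧ G < y) ∨ G = y + x (i + y) ∨ (y + 2 * h ≤ G ∧ G < 4 * h - 1)) := by
  obtain ⟨hb, hκ, hh, hm, hn, non, noM, x0, x1, fx⟩ := X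
  have b1 := x1 (i + y)
  have b0 := x0 (i + y)
  have P1 := RP.up hb i (i + y) (by omega) (by omega)
  have P2 := RP.up hb (i + y + 2 * h) (i + (4 * h - 1)) (by omega) (by omega)
  have P3 := P1.append P2 (fx (i + y)) (by
      intros
      simp only [Set.mem_ofPred_eq, Set.mem_insert_iff, Set.mem_union, Set.mem_singleton_iff,
        Set.mem_empty_iff_false, or_false] at *
      apply ndvd <;> omega) (by
      intros
      simp only [Set.mem_ofPred_eq, Set.mem_insert_iff, Set.mem_union, Set.mem_singleton_iff,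
        Set.mem_empty_iff_false, or_false] at *
      apply ndvd <;> omega) (by
      intros
      simp only [Set.mem_ofPred_eq, Set.mem_insert_iff, Set.mem_union, Set.mem_singleton_iff,
        Set.mem_empty_iff_false, or_false] at *
      apply ndvd <;> omega) (by
      intros
      simp only [Set.mem_ofPred_eq, Set.mem_insert_iff, Set.mem_union, Set.mem_singleton_iff,
        Set.mem_empty_iff_false, or_false] at *
      apply ndvd <;> omega)
  obtain ⟨k, hk, hk'⟩ := P3.close non (by omega) (by omega)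
  refine ⟨k - i, ?_, ?_⟩
  · rw [F.K_comm, hk']; congr 1; ring
  · simp only [Set.mem_ofPred_eq, Set.mem_insert_iff, Set.mem_union] at hk
    omega

/-- the colour of the long edge is determined by its domain `y` once known -/
theorem CtxE.gval (X : CtxE F h κ n x) (i G y : ℤ) (hG0 : 0 ≤ G) (hG1 : G ≤ 4 * h - 2)
    (hG : F.K i (i + (4 * h - 1)) = F.E (i + G)) (hy0 : 0 ≤ y) (hy1 : y ≤ 2 * h - 1) :
    (0 ≤ G ∧ G < y) ∨ G = y + x (i + y) ∨ (y + 2 * h ≤ G ∧ G < 4 * h - 1) := by
  have hm := X.hm
  have hκ := X.hκ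
  have hh := X.hh
  obtain ⟨G0, e0, d0⟩ := X.gdom i y hy0 hy1
  have b1 := X.x1 (i + y)
  have b0 := X.x0 (i + y)
  have hG : G = G0 := by
    have := F.E_eq (hG.symm.trans e0) (by omega) (by omega)
    omega
  subst hG
  exact d0

theorem CtxE.dich (X : CtxE F h κ n x) (i : ℤ) :
    F.K i (i + (4 * h - 1)) = F.E (i + x i) ∨
    F.K i (i + (4 * h - 1)) = F.E (i + (2 * h - 1 + x (i + (2 * h - 1)))) := by
  have hm := X.hm
  have hκ := X.hκ
  have hh := X.hh
  have x0 := X.x0
  have x1 := X.x1
  obtain ⟨G0, e0, d0⟩ := X.gdom i 0 (by omega) (by omega)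
  have a0 := x0 (i + (2 * h - 1))
  have a1 := x1 (i + (2 * h - 1))
  have a2 := x0 i
  have a3 := x1 i
  rw [add_zero] at d0
  have d1 := X.gval i G0 (2 * h - 1) (by omega) (by omega) e0 (by omega) (by omega)
  by_cases hc : G0 = x i
  · left; rw [e0, hc]
  · right
    have hG : G0 = 2 * h - 1 + x (i + (2 * h - 1)) := by omega
    rw [e0, hG]

theorem CtxE.sawF (X : CtxE F h κ n x) (i : ℤ) (hi : F.K i (i + (4 * h - 1)) = F.E (i + x i))
    (y : ℤ) (hy0 : 0 ≤ y) (hy1 : y ≤ x i) : x (i + y) = x i - y := by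
  have hm := X.hm
  have hκ := X.hκ
  have hh := X.hh
  have a0 := X.x0 i
  have a1 := X.x1 i
  have := X.gval i (x i) y (by omega) (by omega) hi (by omega) (by omega)
  omega

/-- `S(i)` with its consequences, as long as `x i` is not maximal -/
theorem CtxE.sawS (X : CtxE F h κ n x) (i : ℤ)
    (hi : F.K i (i + (4 * h - 1)) = F.E (i + (2 * h - 1 + x (i + (2 * h - 1)))))
    (hq : 1 ≤ x (i + (2 * h - 1)))
    (y : ℤ) (hy0 : x (i + (2 * h - 1)) ≤ y) (hy1 : y ≤ 2 * h - 1) :
    x (i + y) = x (i + (2 * h - 1)) + (2 * h - 1) - y := by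
  have hm := X.hm
  have hκ := X.hκ
  have hh := X.hh
  have a1 := X.x1 (i + (2 * h - 1))
  have b1 := X.x1 (i + y)
  have b0 := X.x0 (i + y)
  have := X.gval i _ y (by omega) (by omega) hi (by omega) (by omega)
  omega

theorem CtxE.rung (X : CtxE F h κ n x) (o : ℤ)
    (hr : ∀ y, 0 ≤ y → y ≤ 2 * h - 1 → x (o + y) = 2 * h - 1 - y) (R : ℤ)
    (hR : ∀ j, 1 ≤ j → j ≤ R → κ + 1 ≤ x (o - j)) (i : ℤ) (hi0 : -R ≤ i)
    (hi1 : -(2 * h - 1) ≤ i) (hi2 : i ≤ κ + 1) :
    F.K (o + i) (o + i + (4 * h - 1)) = F.E (o + (2 * h - 1)) := by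
  have hm := X.hm
  have hκ := X.hκ
  have hh := X.hh
  by_cases hc : 0 ≤ i
  · have h4 := hr i hc (by omega)
    rcases X.dich (o + i) with h1 | h1
    · rw [h1, h4]; congr 1; ring
    · by_cases hz : x (o + i + (2 * h - 1)) = 0
      · rw [hz] at h1
        have h3 := X.gval (o + i) (2 * h - 1 + 0) 0 (by omega) (by omega) h1 (by omega) (by omega)
        rw [add_zero (o + i)] at h3
        have h5 : i = 0 := by omega
        subst h5
        rw [h1]; congr 1; ring
      · exfalso
        have h2 : 1 ≤ x (o + i + (2 * h - 1)) := by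
          have := X.x0 (o + i + (2 * h - 1)); omega
        have h6 : i ≠ 0 := by
          intro h0
          subst h0
          have := hr (2 * h - 1) (by omega) (by omega)
          rw [add_zero] at hz
          omega
        have h7 := hr (2 * h - 1 + i - (κ + 1)) (by omega) (by omega)
        have h8 := X.twof (o + (2 * h - 1 + i - (κ + 1))) (κ + 1) (by omega) (by omega) (by omega)
        rw [show o + (2 * h - 1 + i - (κ + 1)) + (κ + 1) = o + i + (2 * h - 1) by ring] at h8
        have h9 := X.sawS (o + i) h1 h2 (2 * h - 1 - i) (by omega) (by omega)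
        rw [show o + i + (2 * h - 1 - i) = o + (2 * h - 1) by ring,
          hr (2 * h - 1) (by omega) (by omega)] at h9
        omega
  · have hs := hr (i + (2 * h - 1)) (by omega) (by omega)
    rw [show o + (i + (2 * h - 1)) = o + i + (2 * h - 1) by ring] at hs
    rcases X.dich (o + i) with h1 | h1
    · exfalso
      have h2 := X.sawF (o + i) h1
      have a0 := X.x0 (o + i)
      have a1 := X.x1 (o + i)
      have h3 := h2 (x (o + i)) a0 le_rfl
      by_cases hd : i + x (o + i) ≤ -1
      · have := hR (-(i + x (o + i))) (by omega) (by omega)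
        rw [show o - -(i + x (o + i)) = o + i + x (o + i) by ring] at this
        omega
      · have h4 := h2 (-i) (by omega) (by omega)
        rw [show o + i + -i = o + 0 by ring, hr 0 (by omega) (by omega)] at h4
        omega
    · rw [h1, hs]; congr 1; ring

/-- positions to the left of a complete run are large -/
theorem CtxE.left (X : CtxE F h κ n x) (o : ℤ)
    (hr : ∀ y, 0 ≤ y → y ≤ 2 * h - 1 → x (o + y) = 2 * h - 1 - y) (j : ℕ) :
    ∀ j' : ℤ, 1 ≤ j' → j' ≤ j → j' ≤ 2 * h + κ → κ + 1 ≤ x (o - j') := by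
  induction j with
  | zero => intro j' h1 h2; exfalso; push_cast at h2; omega
  | succ j ih =>
    intro j' h1 h2 h3
    push_cast at h2
    by_cases hj : j' ≤ j
    · exact ih j' h1 hj h3
    have hj' : j' = j + 1 := by omega
    by_contra hcon
    push Not at hcon
    have hm := X.hm
    have hκ := X.hκ
    have hh := X.hh
    by_cases hk : j' ≤ κ + 1
    · have h4 := X.twof (o - j') (κ + 1) (by omega) (by omega) (by omega)
      have h5 := hr (κ + 1 - j') (by omega) (by omega)
      rw [show o + (κ + 1 - j') = o - j' + (κ + 1) by ring] at h5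
      omega
    · have h6 := X.rung o hr j (fun j'' a b => ih j'' a b (by omega)) (κ + 1 - j') (by omega)
        (by omega) (by omega)
      obtain ⟨hb, hκ, hh, hm, hn, non, noM, x0, x1, fx⟩ := X
      have a0 := x0 (o - j')
      have P1 := RP.down hb (o + (κ + 1 - j')) (o - j' + 2 * h) (by omega) (by omega)
      have P2 := RP.up hb (o - κ - j') (o - j') (by omega) (by omega)
      have h7 : F.K (o + (κ + 1 - j')) (o - κ - j') = F.E (o + (2 * h - 1)) := by
        rw [← h6, show o + (κ + 1 - j') + (4 * h - 1) = o - κ - j' + m by rw [hm]; ring,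
          F.K_add_right]
      have h8 := fx (o - j')
      clear h6 ih hr
      have P3 := P1.append P2 h7 (by
          intros
          simp only [Set.mem_ofPred_eq, Set.mem_insert_iff, Set.mem_union, Set.mem_singleton_iff,
            Set.mem_empty_iff_false, or_false] at *
          apply ndvd <;> omega) (by
          intros
          simp only [Set.mem_ofPred_eq, Set.mem_insert_iff, Set.mem_union, Set.mem_singleton_iff,
            Set.mem_empty_iff_false, or_false] at *
          apply ndvd <;> omega) (by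
          intros
          simp only [Set.mem_ofPred_eq, Set.mem_insert_iff, Set.mem_union, Set.mem_singleton_iff,
            Set.mem_empty_iff_false, or_false] at *
          apply ndvd <;> omega) (by
          intros
          simp only [Set.mem_ofPred_eq, Set.mem_insert_iff, Set.mem_union, Set.mem_singleton_iff,
            Set.mem_empty_iff_false, or_false] at *
          apply ndvd <;> omega)
      refine P3.false (k0 := o - j' + x (o - j')) non (by omega) (by omega) h8 (by
          intros
          simp only [Set.mem_ofPred_eq, Set.mem_insert_iff, Set.mem_union, Set.mem_singleton_iff,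
            Set.mem_empty_iff_false, or_false] at *
          apply ndvd <;> omega)

theorem CtxE.norun (X : CtxE F h κ n x) (o : ℤ)
    (hr : ∀ y, 0 ≤ y → y ≤ 2 * h - 1 → x (o + y) = 2 * h - 1 - y) : False := by
  have hm := X.hm
  have hκ := X.hκ
  have hh := X.hh
  have hR : ∀ j, 1 ≤ j → j ≤ 2 * h + κ → κ + 1 ≤ x (o - j) := fun j h1 h2 =>
    X.left o hr j.toNat j h1 (by omega) h2
  have hL : ∀ j, 1 ≤ j → j ≤ 2 * h + κ → x (o + 2 * h - 1 + j) ≤ 2 * h - 2 - κ := by
    intro j h1 h2
    have := X.refl.left (-o - 4 * h + 1) (by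
      intro y hy0 hy1
      have := hr (2 * h - 1 - y) (by omega) (by omega)
      show 2 * h - 1 - x (-(-o - 4 * h + 1 + y) - 2 * h) = 2 * h - 1 - y
      rw [show -(-o - 4 * h + 1 + y) - 2 * h = o + (2 * h - 1 - y) by ring, this]
      ring) j.toNat j h1 (by omega) h2
    rw [show -(-o - 4 * h + 1 - j) - 2 * h = o + 2 * h - 1 + j by ring] at this
    omega
  rcases X.dich (o + (-2 * h - κ)) with h1 | h1
  · have h2 := X.sawF _ h1
    have a0 := X.x0 (o + (-2 * h - κ))
    have a1 := X.x1 (o + (-2 * h - κ))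
    have h3 := h2 (x (o + (-2 * h - κ))) a0 le_rfl
    have := hR (2 * h + κ - x (o + (-2 * h - κ))) (by omega) (by omega)
    rw [show o - (2 * h + κ - x (o + (-2 * h - κ))) =
      o + (-2 * h - κ) + x (o + (-2 * h - κ)) by ring] at this
    omega
  · have hq0 := hR (κ + 1) (by omega) (by omega)
    rw [show o - (κ + 1) = o + (-2 * h - κ) + (2 * h - 1) by ring] at hq0
    have a1 := X.x1 (o + (-2 * h - κ) + (2 * h - 1))
    have h2 := X.sawS _ h1 (by omega) (x (o + (-2 * h - κ) + (2 * h - 1))) le_rfl a1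
    have h3 := X.per (o + (-2 * h - κ) + x (o + (-2 * h - κ) + (2 * h - 1)))
    have h4 := hL (κ + 1 + x (o + (-2 * h - κ) + (2 * h - 1))) (by omega) (by omega)
    rw [show o + 2 * h - 1 + (κ + 1 + x (o + (-2 * h - κ) + (2 * h - 1))) =
      o + (-2 * h - κ) + x (o + (-2 * h - κ) + (2 * h - 1)) + m by rw [hm]; ring] at h4
    omega

end

end Pool.Agent.H81.Rainbow
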