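import Pool.Agent.H81.Rainbow.Even

/-! Rainbow `(4h+2κ)`-cycles for `1 ≤ κ ≤ h-1`: all long edges are of the same kind -/

namespace Pool.Agent.H81.Rainbow

section
variable {V C : Type*} {c : Sym2 V → C} {m : ℤ}
variable {F : Frame c m} {h κ : ℤ} {n : ℕ} {x : ℤ → ℤ}

/-- first kind of long edge -/
def FK (F : Frame c m) (h : ℤ) (x : ℤ → ℤ) (i : ℤ) : Prop :=
  F.K i (i + (4 * h - 1)) = F.E (i + x i)

/-- second kind of long edge -/
def SK (F : Frame c m) (h : ℤ) (x : ℤ → ℤ) (i : ℤ) : Prop :=
  F.K i (i + (4 * h - 1)) = F.E (i + (2 * h - 1 + x (i + (2 * h - 1))))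

theorem CtxE.excl (X : CtxE F h κ n x) (i : ℤ) (h1 : FK F h x i) (h2 : SK F h x i) : False := by
  have hm := X.hm
  have hκ := X.hκ
  have hh := X.hh
  have a0 := X.x0 i
  have a1 := X.x1 i
  have b0 := X.x0 (i + (2 * h - 1))
  have b1 := X.x1 (i + (2 * h - 1))
  have := F.E_eq (h1.symm.trans h2) (by omega) (by omega)
  exact X.norun i (fun y hy0 hy1 => by
    have := X.sawF i h1 y hy0 (by omega)
    omega)

theorem CtxE.lt (X : CtxE F h κ n x) (i : ℤ) (h1 : FK F h x i) : x i < 2 * h - 1 := by
  by_contra hcon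
  have a1 := X.x1 i
  exact X.norun i (fun y hy0 hy1 => by
    have := X.sawF i h1 y hy0 (by omega)
    omega)

theorem CtxE.pos (X : CtxE F h κ n x) (i : ℤ) (h1 : SK F h x i) : 1 ≤ x (i + (2 * h - 1)) := by
  by_contra hcon
  have hm := X.hm
  have hκ := X.hκ
  have hh := X.hh
  have a0 := X.x0 (i + (2 * h - 1))
  have e : x (i + (2 * h - 1)) = 0 := by omega
  have h2 := h1
  unfold SK at h2
  rw [e] at h2
  have h3 := X.gval i (2 * h - 1 + 0) 0 (by omega) (by omega) h2 (by omega) (by omega)
  rw [add_zero i] at h3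
  have h4 : x i = 2 * h - 1 := by omega
  exact X.excl i (by unfold FK; rw [h2, h4]; congr 1; ring) h1

theorem CtxE.not_iff (X : CtxE F h κ n x) (i : ℤ) : SK F h x i ↔ ¬ FK F h x i := by
  constructor
  · intro h1 h2; exact X.excl i h2 h1
  · intro h1; exact (X.dich i).resolve_left h1

theorem CtxE.FK_per (X : CtxE F h κ n x) (i : ℤ) : FK F h x (i + m) ↔ FK F h x i := by
  unfold FK
  rw [show i + m + (4 * h - 1) = i + (4 * h - 1) + m by ring, F.K_add, X.per,
    show i + m + x i = i + x i + m by ring, F.E_add]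

theorem CtxE.FK_perNat (X : CtxE F h κ n x) (i : ℤ) (q : ℕ) :
    FK F h x (i + q * m) ↔ FK F h x i := by
  induction q with
  | zero => simp
  | succ q ih =>
    rw [← ih, ← X.FK_per (i + q * m)]
    push_cast
    rw [show i + ((q : ℤ) + 1) * m = i + q * m + m by ring]

theorem CtxE.FK_sub (X : CtxE F h κ n x) (i : ℤ) (h1 : FK F h x i) :
    FK F h x (i - (2 * h - 1)) := by
  by_contra hcon
  have h2 := (X.not_iff _).2 hcon
  have hq := X.pos _ h2
  have hs := X.sawS _ h2 hq
  rw [show i - (2 * h - 1) + (2 * h - 1) = i by ring] at hq hs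
  have a1 := X.lt i h1
  refine X.norun (i - (2 * h - 1) + x i) (fun y hy0 hy1 => ?_)
  by_cases hc : y ≤ 2 * h - 1 - x i
  · have := hs (x i + y) (by omega) (by omega)
    rw [show i - (2 * h - 1) + (x i + y) = i - (2 * h - 1) + x i + y by ring] at this
    omega
  · have := X.sawF i h1 (y - (2 * h - 1 - x i)) (by omega) (by omega)
    rw [show i + (y - (2 * h - 1 - x i)) = i - (2 * h - 1) + x i + y by ring] at this
    omega

theorem CtxE.FK_add (X : CtxE F h κ n x) (i : ℤ) (h1 : FK F h x i) :
    FK F h x (i + (2 * h - 1)) := by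
  have hm := X.hm
  have hκ := X.hκ
  have hh := X.hh
  have key : ∀ r : ℕ, FK F h x (i - r * (2 * h - 1)) := by
    intro r
    induction r with
    | zero => simpa using h1
    | succ r ih =>
      have := X.FK_sub _ ih
      push_cast
      rwa [show i - ((r : ℤ) + 1) * (2 * h - 1) = i - r * (2 * h - 1) - (2 * h - 1) by ring]
  have h2 := key (m - 1).toNat
  rw [show (((m - 1).toNat : ℕ) : ℤ) = m - 1 by omega] at h2
  have h3 := X.FK_perNat (i - (m - 1) * (2 * h - 1)) (2 * h - 1).toNat
  rw [show (((2 * h - 1).toNat : ℕ) : ℤ) = 2 * h - 1 by omega,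
    show i - (m - 1) * (2 * h - 1) + (2 * h - 1) * m = i + (2 * h - 1) by ring] at h3
  exact h3.2 h2

theorem CtxE.SK_sub (X : CtxE F h κ n x) (i : ℤ) (h1 : SK F h x i) :
    SK F h x (i - (2 * h - 1)) := by
  rw [X.not_iff] at *
  intro h2
  apply h1
  have := X.FK_add _ h2
  rwa [show i - (2 * h - 1) + (2 * h - 1) = i by ring] at this

theorem CtxE.fs (X : CtxE F h κ n x) (i : ℤ) (h1 : FK F h x i) (h2 : SK F h x (i + 1)) :
    x i = 0 ∧ x (i + 1) = 2 * h - 1 := by
  have h3 := X.SK_sub _ h2
  have hq := X.pos _ h3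
  have hs := X.sawS _ h3 hq
  rw [show i + 1 - (2 * h - 1) + (2 * h - 1) = i + 1 by ring] at hq hs
  have a1 := X.x1 (i + 1)
  have a2 := X.x0 i
  have hh := X.hh
  have hκ := X.hκ
  have e1 : x (i + 1) = 2 * h - 1 := by
    by_contra hne
    have h4 := hs (2 * h - 2) (by omega) (by omega)
    rw [show i + 1 - (2 * h - 1) + (2 * h - 2) = i by ring] at h4
    refine X.norun (i + 1 - (2 * h - 1) + x (i + 1)) (fun y hy0 hy1 => ?_)
    by_cases hc : y ≤ 2 * h - 1 - x (i + 1)
    · have := hs (x (i + 1) + y) (by omega) (by omega)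
      rw [show i + 1 - (2 * h - 1) + (x (i + 1) + y) =
        i + 1 - (2 * h - 1) + x (i + 1) + y by ring] at this
      omega
    · have := X.sawF i h1 (x (i + 1) + y + 1 - (2 * h - 1)) (by omega) (by omega)
      rw [show i + (x (i + 1) + y + 1 - (2 * h - 1)) =
        i + 1 - (2 * h - 1) + x (i + 1) + y by ring] at this
      omega
  refine ⟨?_, e1⟩
  by_contra hne
  have a3 := X.x1 i
  have := X.sawF i h1 1 (by omega) (by omega)
  omega

theorem CtxE.fsf (X : CtxE F h κ n x) (i : ℤ) (h1 : FK F h x i) (h2 : SK F h x (i + 1)) :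
    FK F h x (i + 2) := by
  by_contra hcon
  have hκ := X.hκ
  have hh := X.hh
  obtain ⟨e0, e1⟩ := X.fs i h1 h2
  have h3 := X.SK_sub _ ((X.not_iff _).2 hcon)
  have hq := X.pos _ h3
  have hs := X.sawS _ h3 hq
  rw [show i + 2 - (2 * h - 1) + (2 * h - 1) = i + 2 by ring] at hq hs
  have h4 := X.twof i 2 (by omega) (by omega) (by omega)
  have h5 := hs (2 * h - 2) (by omega) (by omega)
  rw [show i + 2 - (2 * h - 1) + (2 * h - 2) = i + 1 by ring] at h5
  omega

theorem CtxE.FK_refl (X : CtxE F h κ n x) (i : ℤ) :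
    FK F.refl h (fun s => 2 * h - 1 - x (-s - 2 * h)) i ↔ SK F h x (-i - (4 * h - 1)) := by
  unfold FK SK
  rw [F.refl_K, F.refl_E, F.K_comm, show -(i + (4 * h - 1)) = -i - (4 * h - 1) by ring,
    show -i - (4 * h - 1) + (4 * h - 1) = -i by ring,
    show -i - (4 * h - 1) + (2 * h - 1) = -i - 2 * h by ring]
  rw [show -(i + (2 * h - 1 - x (-i - 2 * h))) - 1 =
    -i - (4 * h - 1) + (2 * h - 1 + x (-i - 2 * h)) by ring]

theorem CtxE.sfs (X : CtxE F h κ n x) (i : ℤ) (h1 : FK F h x i) (h2 : SK F h x (i + 1)) :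
    SK F h x (i - 1) := by
  have h3 := X.refl.fsf (-(i + 1) - (4 * h - 1)) ((X.FK_refl _).2 (by
    rw [show -(-(i + 1) - (4 * h - 1)) - (4 * h - 1) = i + 1 by ring]; exact h2))
    ((X.refl.not_iff _).2 (by
      rw [X.FK_refl, X.not_iff, not_not,
        show -(-(i + 1) - (4 * h - 1) + 1) - (4 * h - 1) = i by ring]
      exact h1))
  rw [X.FK_refl, show -(-(i + 1) - (4 * h - 1) + 2) - (4 * h - 1) = i - 1 by ring] at h3
  exact h3

theorem CtxE.all (X : CtxE F h κ n x) : (∀ i, FK F h x i) ∨ ∀ i, SK F h x i := by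
  have hκ := X.hκ
  have hh := X.hh
  have hm := X.hm
  by_contra hcon
  push Not at hcon
  obtain ⟨⟨b, hb⟩, ⟨a, ha⟩⟩ := hcon
  rw [X.not_iff, not_not] at ha
  -- upwards propagation from two consecutive ones would reach `b`
  have up : ∀ k, FK F h x k → (∀ j, k ≤ j → FK F h x j → FK F h x (j + 1)) → False := by
    intro k h1 h2
    have key : ∀ r : ℕ, FK F h x (k + r) := by
      intro r
      induction r with
      | zero => simpa using h1
      | succ r ih =>
        have := h2 _ (by omega) ih
        push_cast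
        rwa [← add_assoc]
    have e2 : (0 : ℤ) ≤ b - k + (b.natAbs + k.natAbs + 1) * m := by
      have : (b.natAbs + k.natAbs + 1 : ℤ) * 1 ≤ (b.natAbs + k.natAbs + 1) * m :=
        mul_le_mul_of_nonneg_left (by omega) (by omega)
      omega
    have h3 := key (b - k + (b.natAbs + k.natAbs + 1) * m).toNat
    rw [Int.toNat_of_nonneg e2] at h3
    have h4 := X.FK_perNat b (b.natAbs + k.natAbs + 1)
    rw [show b + ((b.natAbs + k.natAbs + 1 : ℕ) : ℤ) * m =
      k + (b - k + ((b.natAbs : ℤ) + k.natAbs + 1) * m) by push_cast; ring] at h4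
    exact hb (h4.1 h3)
  have hfs : ∃ i, FK F h x i ∧ SK F h x (i + 1) := by
    by_contra hcon
    push Not at hcon
    refine up a ha (fun j _ hj => ?_)
    have := hcon j hj
    rwa [X.not_iff, not_not] at this
  obtain ⟨i, hi1, hi2⟩ := hfs
  have alt : ∀ r : ℕ, FK F h x (i + 2 * r) ∧ SK F h x (i + 2 * r + 1) := by
    intro r
    induction r with
    | zero => simpa using ⟨hi1, hi2⟩
    | succ r ih =>
      push_cast
      have h3 := X.fsf _ ih.1 ih.2
      rw [show i + 2 * ((r : ℤ) + 1) = i + 2 * r + 2 by ring]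
      refine ⟨h3, ?_⟩
      rw [X.not_iff]
      intro h4
      -- now two consecutive ones at `i+2r+2`
      have h5 : ∀ s : ℕ, FK F h x (i + 2 * r + 2 + s) ∧ FK F h x (i + 2 * r + 2 + s + 1) := by
        intro s
        induction s with
        | zero => simpa using ⟨h3, h4⟩
        | succ s ihs =>
          push_cast
          rw [show i + 2 * (r : ℤ) + 2 + (s + 1) = i + 2 * r + 2 + s + 1 by ring]
          refine ⟨ihs.2, ?_⟩
          by_contra h6
          have h7 := X.sfs _ ihs.2 ((X.not_iff _).2 h6)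
          rw [show i + 2 * (r : ℤ) + 2 + s + 1 - 1 = i + 2 * r + 2 + s by ring] at h7
          exact X.excl _ ihs.1 h7
      refine up (i + 2 * r + 2) h3 (fun j hj _ => ?_)
      have h6 := (h5 (j - (i + 2 * r + 2)).toNat).2
      rwa [Int.toNat_of_nonneg (by omega),
        show i + 2 * (r : ℤ) + 2 + (j - (i + 2 * r + 2)) + 1 = j + 1 by ring] at h6
  have h8 := (alt (h - 1).toNat).2
  rw [show (((h - 1).toNat : ℕ) : ℤ) = h - 1 by omega] at h8
  have h9 := X.FK_add i hi1
  rw [show i + 2 * (h - 1) + 1 = i + (2 * h - 1) by ring] at h8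
  exact X.excl _ h9 h8

/-- the edges `(i - α, i + α + 1)` -/
theorem CtxE.jedge (X : CtxE F h κ n x) (hF : ∀ i, FK F h x i) (i α : ℤ) (h1 : 1 ≤ α)
    (h2 : α ≤ κ) (hi : x i ≤ α) :
    F.K (i - α) (i + α + 1) = F.E (i + α + 1 + x (i + α + 1)) := by
  have hg := hF i
  unfold FK at hg
  have b2 := X.lt _ (hF (i + α + 1))
  clear hF
  obtain ⟨hb, hκ, hh, hm, hn, non, noM, x0, x1, fx⟩ := X
  have a0 := x0 i
  have b0 := x0 (i + α + 1)
  -- first domain
  have P1 := RP.up hb (i + α + 1) (i + 2 * h) (by omega) (by omega)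
  have P2 := RP.down hb (i - α) i (by omega) (by omega)
  have P3 := P1.append P2 ((F.K_comm _ _).trans (fx i)) (by
      intros
      simp only [Set.mem_ofPred_eq, Set.mem_insert_iff, Set.mem_union, Set.mem_singleton_iff,
        Set.mem_empty_iff_false, or_false] at *
      apply ndvd <;> omega) (by
      intros
      simp only [Set.mem_ofPred_eq, Set.mem_insert_iff, Set.mem_union, Set.mem_singleton_iff,
        Set.mem_empty_iff_false, or_false] at *
      apply ndvd <;> omega) (by
      intros
      simp only [Set.mem_ofPred_eq, Set.mem_insert_iff, Set.mem_union, Set.mem_singleton_iff,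
        Set.mem_empty_iff_false, or_false] at *
      apply ndvd <;> omega) (by
      intros
      simp only [Set.mem_ofPred_eq, Set.mem_insert_iff, Set.mem_union, Set.mem_singleton_iff,
        Set.mem_empty_iff_false, or_false] at *
      apply ndvd <;> omega)
  obtain ⟨k1, hk1, hk1'⟩ := P3.close non (by omega) (by omega)
  clear P1 P2 P3
  -- second domain
  have Q1 := RP.up hb (i + α + 1) (i - α + m) (by omega) (by omega)
  obtain ⟨k2, hk2, hk2'⟩ := Q1.close (noM (m - 2 * α).toNat (by omega) (by omega) (by omega)) (by omega)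
    (by omega)
  rw [F.K_add_left] at hk2'
  clear Q1
  -- third domain
  have R1 := RP.up hb (i - α) i (by omega) (by omega)
  have R2 := RP.down hb (i + 2 * h + α + 1) (i + (4 * h - 1)) (by omega) (by omega)
  have R3 := R1.append R2 hg (by
      intros
      simp only [Set.mem_ofPred_eq, Set.mem_insert_iff, Set.mem_union, Set.mem_singleton_iff,
        Set.mem_empty_iff_false, or_false] at *
      apply ndvd <;> omega) (by
      intros
      simp only [Set.mem_ofPred_eq, Set.mem_insert_iff, Set.mem_union, Set.mem_singleton_iff,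
        Set.mem_empty_iff_false, or_false] at *
      apply ndvd <;> omega) (by
      intros
      simp only [Set.mem_ofPred_eq, Set.mem_insert_iff, Set.mem_union, Set.mem_singleton_iff,
        Set.mem_empty_iff_false, or_false] at *
      apply ndvd <;> omega) (by
      intros
      simp only [Set.mem_ofPred_eq, Set.mem_insert_iff, Set.mem_union, Set.mem_singleton_iff,
        Set.mem_empty_iff_false, or_false] at *
      apply ndvd <;> omega)
  have hf2 := fx (i + α + 1)
  rw [show i + α + 1 + 2 * h = i + 2 * h + α + 1 by ring] at hf2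
  have R4 := R3.snoc ((F.K_comm _ _).trans hf2) (by
      intros
      simp only [Set.mem_ofPred_eq, Set.mem_insert_iff, Set.mem_union, Set.mem_singleton_iff,
        Set.mem_empty_iff_false, or_false] at *
      apply ndvd <;> omega) (by
      intros
      simp only [Set.mem_ofPred_eq, Set.mem_insert_iff, Set.mem_union, Set.mem_singleton_iff,
        Set.mem_empty_iff_false, or_false] at *
      apply ndvd <;> omega)
  obtain ⟨k3, hk3, hk3'⟩ := R4.close non (by omega) (by omega)
  clear R1 R2 R3 R4
  simp only [Set.mem_ofPred_eq, Set.mem_insert_iff, Set.mem_union] at hk1 hk2 hk3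
  have h12 : k1 = k2 ∨ k1 - k2 = m ∨ k1 - k2 = -m := by
    have := (F.hE _ _).1 (hk1'.symm.trans hk2')
    have := dvd_cases (by omega) this (by omega) (by omega)
    omega
  have h13 : k1 = k3 ∨ k1 - k3 = m ∨ k1 - k3 = -m := by
    have := (F.hE _ _).1 ((hk1'.symm.trans (F.K_comm _ _)).trans hk3')
    have := dvd_cases (by omega) this (by omega) (by omega)
    omega
  have h3 : k1 = i + α + 1 + x (i + α + 1) := by omega
  rw [hk1', h3]

/-- the case `x = 0` -/
theorem CtxE.zero (X : CtxE F h κ n x) (hF : ∀ i, FK F h x i) (hx : ∀ i, x i = 0) : False := by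
  have hκ := X.hκ
  have hh := X.hh
  have hm := X.hm
  have hn := X.hn
  have hb := X.base
  have key : ∀ j : ℕ, (j : ℤ) ≤ h → RP F 0 (-2 * j) (2 * j)
      {v | -2 * j ≤ v ∧ v ≤ 1 ∧ v ≠ -2 * j + 1} {k | -2 * j + 2 ≤ k ∧ k ≤ 1} := by
    intro j
    induction j with
    | zero =>
      intro _
      simp only [Nat.cast_zero, mul_zero]
      refine (RP.nil F 0).mono ?_ ?_
      · intro v hv
        simp only [Set.mem_singleton_iff, Set.mem_ofPred_eq] at *
        omega
      · intro v hv; exact absurd hv (by simp)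
    | succ j ih =>
      intro hj
      push_cast at hj
      have P := ih (by omega)
      have k1 := hb (-2 * j)
      have k2 : F.K (-2 * j + 1) (-2 * j - 2) = F.E (-2 * j + 1) := by
        rw [F.K_comm]
        have := X.jedge hF (-2 * j - 1) 1 (by omega) (by omega) (by rw [hx]; omega)
        rw [hx] at this
        rw [show -2 * (j : ℤ) - 1 - 1 = -2 * j - 2 by ring,
          show -2 * (j : ℤ) - 1 + 1 + 1 = -2 * j + 1 by ring, add_zero] at this
        exact this
      have P1 := P.snoc k1 (by
          intros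
          simp only [Set.mem_ofPred_eq, Set.mem_insert_iff, Set.mem_union, Set.mem_singleton_iff,
            Set.mem_empty_iff_false, or_false] at *
          apply ndvd <;> omega) (by
          intros
          simp only [Set.mem_ofPred_eq, Set.mem_insert_iff, Set.mem_union, Set.mem_singleton_iff,
            Set.mem_empty_iff_false, or_false] at *
          apply ndvd <;> omega)
      have P2 := P1.snoc k2 (by
          intros
          simp only [Set.mem_ofPred_eq, Set.mem_insert_iff, Set.mem_union, Set.mem_singleton_iff,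
            Set.mem_empty_iff_false, or_false] at *
          apply ndvd <;> omega) (by
          intros
          simp only [Set.mem_ofPred_eq, Set.mem_insert_iff, Set.mem_union, Set.mem_singleton_iff,
            Set.mem_empty_iff_false, or_false] at *
          apply ndvd <;> omega)
      push_cast
      rw [show -2 * ((j : ℤ) + 1) = -2 * j - 2 by ring, show 2 * (j + 1) = 2 * j + 1 + 1 by ring]
      exact P2.mono (by
          intro v hv
          simp only [Set.mem_ofPred_eq, Set.mem_insert_iff, Set.mem_union, Set.mem_singleton_iff,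
            Set.mem_empty_iff_false, or_false] at *
          omega) (by
          intro v hv
          simp only [Set.mem_ofPred_eq, Set.mem_insert_iff, Set.mem_union, Set.mem_singleton_iff,
            Set.mem_empty_iff_false, or_false] at *
          omega)
  have P := key h.toNat (by omega)
  rw [show ((h.toNat : ℕ) : ℤ) = h by omega] at P
  refine P.false (k0 := -2 * h) X.non (by omega) (by omega) ?_ (by
      intros
      simp only [Set.mem_ofPred_eq, Set.mem_insert_iff, Set.mem_union, Set.mem_singleton_iff,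
        Set.mem_empty_iff_false, or_false] at *
      apply ndvd <;> omega)
  have := X.fx (-2 * h)
  rwa [hx, show -2 * h + 2 * h = 0 by ring, add_zero] at this

end

end Pool.Agent.H81.Rainbow
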