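import Pool.Agent.H81.Rainbow.Even2

/-! Rainbow `(4h+2κ)`-cycles: the normalised situation, and the case `κ = 1` -/

namespace Pool.Agent.H81.Rainbow

section
variable {V C : Type*} {c : Sym2 V → C} {m : ℤ}

/-- rotating the indices -/
def Frame.shift (F : Frame c m) (o : ℤ) : Frame c m where
  U s := F.U (s + o)
  E s := F.E (s + o)
  hm := F.hm
  hU s t := by rw [F.hU, show s + o - (t + o) = s - t by ring]
  hE s t := by rw [F.hE, show s + o - (t + o) = s - t by ring]

theorem Frame.shift_K (F : Frame c m) (o s t : ℤ) : (F.shift o).K s t = F.K (s + o) (t + o) := rfl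

theorem Frame.shift_E (F : Frame c m) (o s : ℤ) : (F.shift o).E s = F.E (s + o) := rfl

structure CtxG (F : Frame c m) (h κ : ℤ) (n : ℕ) (x : ℤ → ℤ) (D : ℤ) : Prop where
  base : ∀ s, F.K s (s + 1) = F.E s
  hκ : 1 ≤ κ
  hh : κ ≤ h - 1
  hm : m = 4 * h + 2 * κ
  hn : (n : ℤ) = 2 * h + 1
  non : ¬ HasRainbowCycle c n
  x0 : ∀ i, 0 ≤ x i
  x1 : ∀ i, x i ≤ D - 1
  hD : 2 ≤ D
  hD' : D ≤ 2 * h - 1
  saw : ∀ i y, 0 ≤ y → y ≤ x i → x (i + y) = x i - y
  blk : ∀ j, 0 ≤ j → j ≤ D - 1 → x (-j) = j
  fx : ∀ i, F.K i (i + 2 * h) = F.E (i + x i)
  J : ∀ t α, 1 ≤ α → α ≤ κ → x (t - α - 1) ≤ α → F.K t (t - 2 * α - 1) = F.E (t + x t)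

variable {F : Frame c m} {h κ : ℤ} {n : ℕ} {x : ℤ → ℤ} {D : ℤ}

theorem CtxE.toG (X : CtxE F h κ n x) (hF : ∀ i, FK F h x i) :
    ∃ (F' : Frame c m) (x' : ℤ → ℤ) (D : ℤ), CtxG F' h κ n x' D := by
  have hκ := X.hκ
  have hh := X.hh
  have hm := X.hm
  have hz : ¬ ∀ i, x i = 0 := fun hz => X.zero hF hz
  push Not at hz
  obtain ⟨i, hi⟩ : ∃ i, ∀ j, x j ≤ x i := by
    by_contra hcon
    push Not at hcon
    have : ∀ r : ℕ, ∃ j, (r : ℤ) ≤ x j := by
      intro r
      induction r with
      | zero => exact ⟨0, by simpa using X.x0 0⟩
      | succ r ih =>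
        obtain ⟨j, hj⟩ := ih
        obtain ⟨j', hj'⟩ := hcon j
        exact ⟨j', by push_cast; omega⟩
    obtain ⟨j, hj⟩ := this (2 * h - 1).toNat
    have := X.lt j (hF j)
    omega
  obtain ⟨i', hi'⟩ := hz
  have hN : 1 ≤ x i := by
    have := hi i'
    have := X.x0 i'
    omega
  have hlt := X.lt i (hF i)
  refine ⟨F.shift (i + x i), fun s => x (s + (i + x i)), x i + 1, ?_, hκ, hh, hm, X.hn, X.non,
    ?_, ?_, ?_, ?_, ?_, ?_, ?_, ?_⟩
  · intro s
    rw [F.shift_K, F.shift_E, ← X.base, show s + 1 + (i + x i) = s + (i + x i) + 1 by ring]
  · intro s; exact X.x0 _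
  · intro s; have := hi (s + (i + x i)); show x (s + (i + x i)) ≤ x i + 1 - 1; omega
  · omega
  · omega
  · intro s y hy0 hy1
    have := X.sawF _ (hF (s + (i + x i))) y hy0 hy1
    show x (s + y + (i + x i)) = x (s + (i + x i)) - y
    rw [← this]; congr 1; ring
  · intro j hj0 hj1
    have := X.sawF _ (hF i) (x i - j) (by omega) (by omega)
    show x (-j + (i + x i)) = j
    rw [show -j + (i + x i) = i + (x i - j) by ring, this]; ring
  · intro s
    have := X.fx (s + (i + x i))
    rw [F.shift_K, F.shift_E, show s + 2 * h + (i + x i) = s + (i + x i) + 2 * h by ring, this]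
    congr 1; ring
  · intro t α h1 h2 h3
    have := X.jedge hF (t + (i + x i) - α - 1) α h1 h2 (by
      rwa [show t + (i + x i) - α - 1 = t - α - 1 + (i + x i) by ring])
    rw [show t + (i + x i) - α - 1 - α = t - 2 * α - 1 + (i + x i) by ring,
      show t + (i + x i) - α - 1 + α + 1 = t + (i + x i) by ring] at this
    rw [F.shift_K, F.shift_E, F.K_comm, this]
    congr 1; ring

theorem CtxG.mono (X : CtxG F h κ n x D) (i j : ℤ) (hij : i ≤ j) : i + x i ≤ j + x j := by
  have h0 := X.x0 j
  by_cases hc : j ≤ i + x i
  · have := X.saw i (j - i) (by omega) (by omega)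
    rw [show i + (j - i) = j by ring] at this
    omega
  · omega

/-- if there is no zero in `[i, j)`, then `i` and `j` belong to the same block -/
theorem CtxG.same (X : CtxG F h κ n x D) (i j : ℤ) (hij : i ≤ j)
    (hq : ∀ q, i ≤ q → q < j → 1 ≤ x q) : i + x i = j + x j := by
  have h0 := X.x0 i
  by_cases hc : j ≤ i + x i
  · have := X.saw i (j - i) (by omega) (by omega)
    rw [show i + (j - i) = j by ring] at this
    omega
  · have h1 := X.saw i (x i) h0 le_rfl
    have h2 := hq (i + x i) (by omega) (by omega)
    omega

theorem CtxG.low (X : CtxG F h κ n x D) (p : ℤ) :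
    ∃ l, l ≤ p ∧ x (l - 1) = 0 ∧ ∀ q, l ≤ q → q < p → 1 ≤ x q := by
  by_contra hcon
  push Not at hcon
  have key : ∀ k : ℕ, ∀ q, p - k ≤ q → q < p → 1 ≤ x q := by
    intro k
    induction k with
    | zero => intro q h1 h2; exfalso; push_cast at h1; omega
    | succ k ih =>
      intro q h1 h2
      push_cast at h1
      by_cases hk : p - k ≤ q
      · exact ih q hk h2
      · by_contra h3
        have h4 := X.x0 q
        obtain ⟨q', h5, h6, h7⟩ := hcon (p - k) (by omega) (by
          rw [show p - (k : ℤ) - 1 = q by omega]; omega)
        have := ih q' h5 h6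
        omega
  have hD := X.hD
  have h1 := X.x1 (p - D)
  have h2 := X.x0 (p - D)
  have h3 := X.saw (p - D) (x (p - D)) h2 le_rfl
  have h4 := key D.toNat (p - D + x (p - D)) (by omega) (by omega)
  omega

theorem CtxG.x00 (X : CtxG F h κ n x D) : x 0 = 0 := by
  have hD := X.hD
  have := X.blk 0 le_rfl (by omega)
  simpa using this

theorem CtxG.xD (X : CtxG F h κ n x D) : x (-D) = 0 := by
  have hD := X.hD
  by_contra hne
  have h0 := X.x0 (-D)
  have h1 := X.x1 (-D)
  have h2 := X.saw (-D) 1 (by omega) (by omega)
  have h3 := X.blk (D - 1) (by omega) le_rfl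
  rw [show -(D - 1) = -D + 1 by ring] at h3
  omega

/-- the case `κ = 1` -/
theorem CtxG.one (X : CtxG F h κ n x D) (hκ1 : κ = 1) : False := by
  have x00 := X.x00
  have hmo := X.mono
  obtain ⟨hb, -, hh, hm, hn, non, x0, x1, hD, hD', saw, blk, fx, -⟩ := X
  subst hκ1
  have baseA : ∀ s : ℕ, (s : ℤ) ≤ D - 1 → RP F 0 (-s) s {v | -s ≤ v ∧ v ≤ 0}
      {k | -s ≤ k ∧ k < 0} := by
    intro s hs
    have P := RP.down hb (-s) 0 (by omega) (by omega)
    rw [show (0 - -(s : ℤ)).toNat = s by omega] at P
    exact P
  have key : ∀ s : ℕ, D - 1 ≤ (s : ℤ) → (s : ℤ) ≤ 2 * h →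
      RP F 0 (-s) s {v | (-s ≤ v ∧ v ≤ 0) ∨ (2 * h + 2 - s ≤ v ∧ v ≤ 2 * h + 1)}
        {k | ((-s ≤ k ∧ k ≤ 0) ∨ (2 * h + 2 - s ≤ k ∧ k ≤ 2 * h + 1)) ∧ k ≠ -s + x (-s)} ∧
      RP F 0 (2 * h + 1 - s) s
        {v | (2 * h + 1 - s ≤ v ∧ v ≤ 2 * h + 1) ∨ (-s + 1 ≤ v ∧ v ≤ 0)}
        {k | ((2 * h + 1 - s ≤ k ∧ k ≤ 2 * h + 1) ∨ (-s + 1 ≤ k ∧ k ≤ 0)) ∧
          k ≠ 2 * h + 1 - s + x (2 * h + 1 - s)} := by
    intro s hs
    induction s with
    | zero => exfalso; push_cast at hs; omega
    | succ s ih =>
      intro hs2
      by_cases hs1 : D - 1 = ((s + 1 : ℕ) : ℤ)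
      · -- base case
        have hbl := blk (s + 1) (by omega) (by push_cast at hs1; omega)
        have hbl' := blk s (by omega) (by push_cast at hs1; omega)
        have b1 := x1 (2 * h + 1 - ((s + 1 : ℕ) : ℤ))
        push_cast at *
        refine ⟨?_, ?_⟩
        · have P := baseA (s + 1) (by push_cast; omega)
          push_cast at P
          refine P.mono (by
              intro v hv
              simp only [Set.mem_ofPred_eq, Set.mem_insert_iff, Set.mem_union, Set.mem_singleton_iff,
                Set.mem_empty_iff_false, or_false] at *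
              omega) ?_
          intro v hv
          simp only [Set.mem_ofPred_eq] at *
          omega
        · have P := baseA s (by omega)
          have hf := fx (-s)
          rw [show -(s : ℤ) + 2 * h = 2 * h + 1 - (s + 1) by ring] at hf
          have hf' : F.K (-s) (2 * h + 1 - (s + 1)) = F.E 0 := by
            rw [hf, hbl']; congr 1; ring
          have a1 := x0 (2 * h + 1 - ((s : ℤ) + 1))
          have P1 := P.snoc hf' (by
              intros
              simp only [Set.mem_ofPred_eq, Set.mem_insert_iff, Set.mem_union, Set.mem_singleton_iff,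
                Set.mem_empty_iff_false, or_false] at *
              apply ndvd <;> omega) (by
              intros
              simp only [Set.mem_ofPred_eq, Set.mem_insert_iff, Set.mem_union, Set.mem_singleton_iff,
                Set.mem_empty_iff_false, or_false] at *
              apply ndvd <;> omega)
          exact P1.mono (by
              intro v hv
              simp only [Set.mem_ofPred_eq, Set.mem_insert_iff, Set.mem_union, Set.mem_singleton_iff,
                Set.mem_empty_iff_false, or_false] at *
              omega) (by
              intro v hv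
              simp only [Set.mem_ofPred_eq, Set.mem_insert_iff, Set.mem_union, Set.mem_singleton_iff,
                Set.mem_empty_iff_false, or_false] at *
              omega)
      · push_cast at hs hs1 hs2
        obtain ⟨PA, PB⟩ := ih (by omega) (by omega)
        have a0 := x0 (-s)
        have a1 := x0 (2 * h + 1 - s)
        have a2 := x1 (2 * h + 1 - s)
        have a3 := hmo (-s) 0 (by omega)
        have kA := hb (-s - 1)
        rw [show -(s : ℤ) - 1 + 1 = -s by ring, F.K_comm] at kA
        have kB := hb (2 * h + 1 - s - 1)
        rw [show 2 * h + 1 - (s : ℤ) - 1 + 1 = 2 * h + 1 - s by ring, F.K_comm] at kB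
        have fA := fx (-s)
        rw [show -(s : ℤ) + 2 * h = 2 * h + 1 - s - 1 by ring] at fA
        have fB := fx (2 * h + 1 - s)
        rw [show 2 * h + 1 - (s : ℤ) + 2 * h = -s - 1 + m by rw [hm]; ring, F.K_add_right] at fB
        have c0 := x0 (-s - 1)
        have c1 := x0 (2 * h + 1 - s - 1)
        push_cast
        rw [show -((s : ℤ) + 1) = -s - 1 by ring,
          show 2 * h + 1 - ((s : ℤ) + 1) = 2 * h + 1 - s - 1 by ring]
        refine ⟨?_, ?_⟩
        · by_cases hc : x (-s - 1) = 0
          · have P1 := PB.snoc fB (by
                intros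
                simp only [Set.mem_ofPred_eq, Set.mem_insert_iff, Set.mem_union, Set.mem_singleton_iff,
                  Set.mem_empty_iff_false, or_false] at *
                apply ndvd <;> omega) (by
                intros
                simp only [Set.mem_ofPred_eq, Set.mem_insert_iff, Set.mem_union, Set.mem_singleton_iff,
                  Set.mem_empty_iff_false, or_false] at *
                apply ndvd <;> omega)
            exact P1.mono (by
                intro v hv
                simp only [Set.mem_ofPred_eq, Set.mem_insert_iff, Set.mem_union, Set.mem_singleton_iff,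
                  Set.mem_empty_iff_false, or_false] at *
                omega) (by
                intro v hv
                simp only [Set.mem_ofPred_eq, Set.mem_insert_iff, Set.mem_union, Set.mem_singleton_iff,
                  Set.mem_empty_iff_false, or_false] at *
                omega)
          · have hs' := saw (-s - 1) 1 (by omega) (by omega)
            rw [show -(s : ℤ) - 1 + 1 = -s by ring] at hs'
            have P1 := PA.snoc kA (by
                intros
                simp only [Set.mem_ofPred_eq, Set.mem_insert_iff, Set.mem_union, Set.mem_singleton_iff,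
                  Set.mem_empty_iff_false, or_false] at *
                apply ndvd <;> omega) (by
                intros
                simp only [Set.mem_ofPred_eq, Set.mem_insert_iff, Set.mem_union, Set.mem_singleton_iff,
                  Set.mem_empty_iff_false, or_false] at *
                apply ndvd <;> omega)
            exact P1.mono (by
                intro v hv
                simp only [Set.mem_ofPred_eq, Set.mem_insert_iff, Set.mem_union, Set.mem_singleton_iff,
                  Set.mem_empty_iff_false, or_false] at *
                omega) (by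
                intro v hv
                simp only [Set.mem_ofPred_eq, Set.mem_insert_iff, Set.mem_union, Set.mem_singleton_iff,
                  Set.mem_empty_iff_false, or_false] at *
                omega)
        · by_cases hc : x (2 * h + 1 - s - 1) = 0
          · have P1 := PA.snoc fA (by
                intros
                simp only [Set.mem_ofPred_eq, Set.mem_insert_iff, Set.mem_union, Set.mem_singleton_iff,
                  Set.mem_empty_iff_false, or_false] at *
                apply ndvd <;> omega) (by
                intros
                simp only [Set.mem_ofPred_eq, Set.mem_insert_iff, Set.mem_union, Set.mem_singleton_iff,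
                  Set.mem_empty_iff_false, or_false] at *
                apply ndvd <;> omega)
            exact P1.mono (by
                intro v hv
                simp only [Set.mem_ofPred_eq, Set.mem_insert_iff, Set.mem_union, Set.mem_singleton_iff,
                  Set.mem_empty_iff_false, or_false] at *
                omega) (by
                intro v hv
                simp only [Set.mem_ofPred_eq, Set.mem_insert_iff, Set.mem_union, Set.mem_singleton_iff,
                  Set.mem_empty_iff_false, or_false] at *
                omega)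
          · have hs' := saw (2 * h + 1 - s - 1) 1 (by omega) (by omega)
            rw [show 2 * h + 1 - (s : ℤ) - 1 + 1 = 2 * h + 1 - s by ring] at hs'
            have P1 := PB.snoc kB (by
                intros
                simp only [Set.mem_ofPred_eq, Set.mem_insert_iff, Set.mem_union, Set.mem_singleton_iff,
                  Set.mem_empty_iff_false, or_false] at *
                apply ndvd <;> omega) (by
                intros
                simp only [Set.mem_ofPred_eq, Set.mem_insert_iff, Set.mem_union, Set.mem_singleton_iff,
                  Set.mem_empty_iff_false, or_false] at *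
                apply ndvd <;> omega)
            exact P1.mono (by
                intro v hv
                simp only [Set.mem_ofPred_eq, Set.mem_insert_iff, Set.mem_union, Set.mem_singleton_iff,
                  Set.mem_empty_iff_false, or_false] at *
                omega) (by
                intro v hv
                simp only [Set.mem_ofPred_eq, Set.mem_insert_iff, Set.mem_union, Set.mem_singleton_iff,
                  Set.mem_empty_iff_false, or_false] at *
                omega)
  have P := (key (2 * h).toNat (by omega) (by omega)).1
  rw [show (((2 * h).toNat : ℕ) : ℤ) = 2 * h by omega] at P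
  have hf := fx (-(2 * h))
  rw [show -(2 * h) + 2 * h = 0 by ring] at hf
  have a0 := x0 (-(2 * h))
  have a1 := hmo (-(2 * h)) 0 (by omega)
  exact P.false non (by omega) (by omega) hf (by
      intros
      simp only [Set.mem_ofPred_eq, Set.mem_insert_iff, Set.mem_union, Set.mem_singleton_iff,
        Set.mem_empty_iff_false, or_false] at *
      apply ndvd <;> omega)

end

end Pool.Agent.H81.Rainbow
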