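import Pool.Agent.H81.Rainbow.Loop
import Pool.Agent.H81.Rainbow.Closure

/-! All lengths from `4h-1` on are excluded by the length `2h+1`, for `h ≥ 3`. -/

namespace Pool.Agent.H81.Rainbow

/-- no rainbow `m`-cycle for even `m` between `4h` and `6h-2` -/
theorem all_even {V C : Type*} (c : Sym2 V → C) (h : ℕ) (hh : 2 ≤ h)
    (non : ¬ HasRainbowCycle c (2 * h + 1)) (κ : ℕ) :
    κ + 1 ≤ h → ¬ HasRainbowCycle c (4 * h + 2 * κ) := by
  induction κ using Nat.strong_induction_on with
  | _ κ ih =>
    intro hκ
    rcases Nat.eq_zero_or_pos κ with h0 | h0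
    · subst h0
      have := closure c (2 * h - 1) (2 * h - 1) (by omega) (by omega)
        (by rw [show 2 * h - 1 + 2 = 2 * h + 1 by omega]; exact non)
        (by rw [show 2 * h - 1 + 2 = 2 * h + 1 by omega]; exact non)
      rwa [show 2 * h - 1 + (2 * h - 1) + 2 = 4 * h + 2 * 0 by omega] at this
    · refine even_step c h κ h0 hκ non (fun N h1 h2 h3 => ?_)
      have := ih ((N - 4 * h) / 2) (by omega) (by omega)
      rwa [show 4 * h + 2 * ((N - 4 * h) / 2) = N by omega] at this

/-- If an edge-coloured complete graph has no rainbow `(2h+1)`-cycle, where `h ≥ 3`, it has no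
rainbow `m`-cycle for any `m ≥ 4h-1`. -/
theorem all_len {V C : Type*} (c : Sym2 V → C) (h : ℕ) (hh : 3 ≤ h)
    (non : ¬ HasRainbowCycle c (2 * h + 1)) (m : ℕ) :
    4 * h - 1 ≤ m → ¬ HasRainbowCycle c m := by
  induction m using Nat.strong_induction_on with
  | _ m ih =>
    intro hm
    by_cases h1 : m ≤ 6 * h - 3
    · rcases Nat.even_or_odd' m with ⟨q, hq | hq⟩
      · have := all_even c h (by omega) non (q - 2 * h) (by omega)
        rwa [show 4 * h + 2 * (q - 2 * h) = m by omega] at this
      · have := all_odd c h hh non (q - (2 * h - 1)) (by omega)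
        rwa [show 4 * h + 2 * (q - (2 * h - 1)) - 1 = m by omega] at this
    · have h2 := ih (m - (2 * h - 1)) (by omega) (by omega)
      have := closure c (m - (2 * h - 1) - 2) (2 * h - 1) (by omega) (by omega)
        (by rw [show m - (2 * h - 1) - 2 + 2 = m - (2 * h - 1) by omega]; exact h2)
        (by rw [show 2 * h - 1 + 2 = 2 * h + 1 by omega]; exact non)
      rwa [show m - (2 * h - 1) - 2 + (2 * h - 1) + 2 = m by omega] at this

end Pool.Agent.H81.Rainbow
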