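import Pool.Agent.H81.Rainbow.Exact

/-! The length five: no rainbow `9`-cycle without a rainbow `5`-cycle. -/

namespace Pool.Agent.H81.Rainbow

section
variable {V C : Type*} {c : Sym2 V → C}

theorem Frame.conv (F : Frame c 9) {a b k a' b' k' : ℤ} (h : F.K a' b' = F.E k')
    (ha : (9 : ℤ) ∣ a - a') (hb : (9 : ℤ) ∣ b - b') (hk : (9 : ℤ) ∣ k - k') :
    F.K a b = F.E k := by
  have h1 := (F.hU a a').2 ha
  have h2 := (F.hU b b').2 hb
  have h3 := (F.hE k k').2 hk
  unfold Frame.K at *
  rw [h1, h2, h3, h]

theorem Frame.conv2 (F : Frame c 9) {a b k a' b' k' : ℤ} (h : F.K a' b' = F.E k')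
    (ha : (9 : ℤ) ∣ a - b') (hb : (9 : ℤ) ∣ b - a') (hk : (9 : ℤ) ∣ k - k') :
    F.K a b = F.E k :=
  F.conv ((F.K_comm _ _).trans h) ha hb hk

theorem path5 (F : Frame c 9) (a0 a1 a2 a3 a4 k0 k1 k2 k3 : ℤ)
    (e0 : F.K a0 a1 = F.E k0) (e1 : F.K a1 a2 = F.E k1) (e2 : F.K a2 a3 = F.E k2)
    (e3 : F.K a3 a4 = F.E k3)
    (hv : ∀ i j : Fin 5, (9 : ℤ) ∣ ![a0, a1, a2, a3, a4] i - ![a0, a1, a2, a3, a4] j → i = j)
    (hk : ∀ i j : Fin 4, (9 : ℤ) ∣ ![k0, k1, k2, k3] i - ![k0, k1, k2, k3] j → i = j) :
    RP F a0 a4 4 Set.univ {k | k = k0 ∨ k = k1 ∨ k = k2 ∨ k = k3} := by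
  refine ⟨fun i => ![a0, a1, a2, a3, a4] (Fin.ofNat 5 i), fun i => ![k0, k1, k2, k3] (Fin.ofNat 4 i),
    rfl, rfl, fun _ _ => trivial, ?_, ?_, ?_, ?_⟩
  · intro i hi
    interval_cases i
    · exact Or.inl rfl
    · exact Or.inr (Or.inl rfl)
    · exact Or.inr (Or.inr (Or.inl rfl))
    · exact Or.inr (Or.inr (Or.inr rfl))
  · intro i hi j hj hij
    have := hv _ _ hij
    have := congrArg Fin.val this
    simp only [Fin.ofNat, Nat.mod_eq_of_lt (show i < 5 by omega),
      Nat.mod_eq_of_lt (show j < 5 by omega)] at this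
    exact this
  · intro i hi j hj hij
    have := hk _ _ hij
    have := congrArg Fin.val this
    simp only [Fin.ofNat, Nat.mod_eq_of_lt (show i < 4 by omega),
      Nat.mod_eq_of_lt (show j < 4 by omega)] at this
    exact this
  · intro i hi
    interval_cases i
    · exact e0
    · exact e1
    · exact e2
    · exact e3

theorem dom5 (F : Frame c 9) (non : ¬ HasRainbowCycle c 5) (a0 a1 a2 a3 a4 k0 k1 k2 k3 : ℤ)
    (e0 : F.K a0 a1 = F.E k0) (e1 : F.K a1 a2 = F.E k1) (e2 : F.K a2 a3 = F.E k2)
    (e3 : F.K a3 a4 = F.E k3)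
    (hv : ∀ i j : Fin 5, (9 : ℤ) ∣ ![a0, a1, a2, a3, a4] i - ![a0, a1, a2, a3, a4] j → i = j)
    (hk : ∀ i j : Fin 4, (9 : ℤ) ∣ ![k0, k1, k2, k3] i - ![k0, k1, k2, k3] j → i = j) :
    F.K a4 a0 = F.E k0 ∨ F.K a4 a0 = F.E k1 ∨ F.K a4 a0 = F.E k2 ∨ F.K a4 a0 = F.E k3 := by
  obtain ⟨k, hk, hk'⟩ := (path5 F a0 a1 a2 a3 a4 k0 k1 k2 k3 e0 e1 e2 e3 hv hk).close non rfl
    (by norm_num)
  rcases hk with rfl | rfl | rfl | rfl
  · exact Or.inl hk'
  · exact Or.inr (Or.inl hk')
  · exact Or.inr (Or.inr (Or.inl hk'))
  · exact Or.inr (Or.inr (Or.inr hk'))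

theorem five (F : Frame c 9) (non : ¬ HasRainbowCycle c 5) (a0 a1 a2 a3 a4 k0 k1 k2 k3 k4 : ℤ)
    (e0 : F.K a0 a1 = F.E k0) (e1 : F.K a1 a2 = F.E k1) (e2 : F.K a2 a3 = F.E k2)
    (e3 : F.K a3 a4 = F.E k3) (e4 : F.K a4 a0 = F.E k4)
    (hv : ∀ i j : Fin 5, (9 : ℤ) ∣ ![a0, a1, a2, a3, a4] i - ![a0, a1, a2, a3, a4] j → i = j)
    (hk : ∀ i j : Fin 5, (9 : ℤ) ∣ ![k0, k1, k2, k3, k4] i - ![k0, k1, k2, k3, k4] j → i = j) :
    False := by
  have hk4 : ∀ i j : Fin 4, (9 : ℤ) ∣ ![k0, k1, k2, k3] i - ![k0, k1, k2, k3] j → i = j := by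
    intro i j hij
    have := hk i.castSucc j.castSucc (by fin_cases i <;> fin_cases j <;> exact hij)
    exact Fin.castSucc_injective _ this
  have h0 : ¬ (9 : ℤ) ∣ k0 - k4 := fun h => absurd (hk 0 4 h) (by decide)
  have h1 : ¬ (9 : ℤ) ∣ k1 - k4 := fun h => absurd (hk 1 4 h) (by decide)
  have h2 : ¬ (9 : ℤ) ∣ k2 - k4 := fun h => absurd (hk 2 4 h) (by decide)
  have h3 : ¬ (9 : ℤ) ∣ k3 - k4 := fun h => absurd (hk 3 4 h) (by decide)
  refine (path5 F a0 a1 a2 a3 a4 k0 k1 k2 k3 e0 e1 e2 e3 hv hk4).false non rfl (by norm_num) e4 ?_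
  rintro k (rfl | rfl | rfl | rfl)
  · exact h0
  · exact h1
  · exact h2
  · exact h3

theorem pat0 (F : Frame c 9) (non : ¬ HasRainbowCycle c 5)
    (hb : ∀ s, F.K s (s + 1) = F.E s)
    (f : ∀ i, F.K i (i + 4) = F.E (i + if i % 3 = 0 then 0 else if i % 3 = 1 then 0 else 0))
    (g : ∀ i, F.K i (i + 7) = F.E (i + if i % 3 = 0 then 0 else if i % 3 = 1 then 0 else 0)) :
    False := by
  rcases dom5 F non 3 1 2 4 0 3 1 4 0 (F.conv (g 3) (by decide) (by decide) (by decide)) (F.conv (hb 1) (by decide) (by decide) (by decide)) (F.conv2 (g 4) (by decide) (by decide) (by decide)) (F.conv2 (f 0) (by decide) (by decide) (by decide)) (by decide) (by decide) with d | d | d | d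
  · rcases dom5 F non 4 0 3 2 1 0 3 2 1 (F.conv2 (f 0) (by decide) (by decide) (by decide)) d (F.conv2 (hb 2) (by decide) (by decide) (by decide)) (F.conv2 (hb 1) (by decide) (by decide) (by decide)) (by decide) (by decide) with d2 | d2 | d2 | d2
    · exact five F non 0 2 1 4 5 2 1 0 4 5 (F.conv2 (g 2) (by decide) (by decide) (by decide)) (F.conv2 (hb 1) (by decide) (by decide) (by decide)) d2 (F.conv (hb 4) (by decide) (by decide) (by decide)) (F.conv (f 5) (by decide) (by decide) (by decide)) (by decide) (by decide)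
    · exact five F non 0 2 1 4 5 2 1 3 4 5 (F.conv2 (g 2) (by decide) (by decide) (by decide)) (F.conv2 (hb 1) (by decide) (by decide) (by decide)) d2 (F.conv (hb 4) (by decide) (by decide) (by decide)) (F.conv (f 5) (by decide) (by decide) (by decide)) (by decide) (by decide)
    · exact five F non 0 1 4 5 3 0 2 4 5 3 (F.conv (hb 0) (by decide) (by decide) (by decide)) d2 (F.conv (hb 4) (by decide) (by decide) (by decide)) (F.conv (g 5) (by decide) (by decide) (by decide)) ((F.K_comm _ _).trans d) (by decide) (by decide)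
    · exact five F non 0 1 4 2 3 0 1 4 2 3 (F.conv (hb 0) (by decide) (by decide) (by decide)) d2 (F.conv (g 4) (by decide) (by decide) (by decide)) (F.conv (hb 2) (by decide) (by decide) (by decide)) ((F.K_comm _ _).trans d) (by decide) (by decide)
  · exact five F non 0 3 4 2 7 1 3 4 7 0 d (F.conv (hb 3) (by decide) (by decide) (by decide)) (F.conv (g 4) (by decide) (by decide) (by decide)) (F.conv2 (f 7) (by decide) (by decide) (by decide)) (F.conv2 (g 0) (by decide) (by decide) (by decide)) (by decide) (by decide)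
  · exact five F non 0 1 2 7 3 0 1 7 3 4 (F.conv (hb 0) (by decide) (by decide) (by decide)) (F.conv (hb 1) (by decide) (by decide) (by decide)) (F.conv2 (f 7) (by decide) (by decide) (by decide)) (F.conv2 (f 3) (by decide) (by decide) (by decide)) ((F.K_comm _ _).trans d) (by decide) (by decide)
  · rcases dom5 F non 4 2 0 3 1 4 2 0 3 (F.conv (g 4) (by decide) (by decide) (by decide)) (F.conv (g 2) (by decide) (by decide) (by decide)) d (F.conv (g 3) (by decide) (by decide) (by decide)) (by decide) (by decide) with d2 | d2 | d2 | d2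
    · exact five F non 0 2 1 4 3 2 1 4 3 0 (F.conv2 (g 2) (by decide) (by decide) (by decide)) (F.conv2 (hb 1) (by decide) (by decide) (by decide)) d2 (F.conv2 (hb 3) (by decide) (by decide) (by decide)) ((F.K_comm _ _).trans d) (by decide) (by decide)
    · exact five F non 0 3 1 4 5 0 3 2 4 5 d (F.conv (g 3) (by decide) (by decide) (by decide)) d2 (F.conv (hb 4) (by decide) (by decide) (by decide)) (F.conv (f 5) (by decide) (by decide) (by decide)) (by decide) (by decide)
    · exact five F non 0 2 1 4 5 2 1 0 4 5 (F.conv2 (g 2) (by decide) (by decide) (by decide)) (F.conv2 (hb 1) (by decide) (by decide) (by decide)) d2 (F.conv (hb 4) (by decide) (by decide) (by decide)) (F.conv (f 5) (by decide) (by decide) (by decide)) (by decide) (by decide)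
    · exact five F non 0 2 1 4 5 2 1 3 4 5 (F.conv2 (g 2) (by decide) (by decide) (by decide)) (F.conv2 (hb 1) (by decide) (by decide) (by decide)) d2 (F.conv (hb 4) (by decide) (by decide) (by decide)) (F.conv (f 5) (by decide) (by decide) (by decide)) (by decide) (by decide)

theorem pat1 (F : Frame c 9) (non : ¬ HasRainbowCycle c 5)
    (hb : ∀ s, F.K s (s + 1) = F.E s)
    (f : ∀ i, F.K i (i + 4) = F.E (i + if i % 3 = 0 then 0 else if i % 3 = 1 then 0 else 3))
    (g : ∀ i, F.K i (i + 7) = F.E (i + if i % 3 = 0 then 0 else if i % 3 = 1 then 0 else 6)) :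
    False := by
  rcases dom5 F non 3 1 2 4 0 3 1 4 0 (F.conv (g 3) (by decide) (by decide) (by decide)) (F.conv (hb 1) (by decide) (by decide) (by decide)) (F.conv2 (g 4) (by decide) (by decide) (by decide)) (F.conv2 (f 0) (by decide) (by decide) (by decide)) (by decide) (by decide) with d | d | d | d
  · exact five F non 0 1 6 2 3 0 6 5 2 3 (F.conv (hb 0) (by decide) (by decide) (by decide)) (F.conv2 (f 6) (by decide) (by decide) (by decide)) (F.conv2 (f 2) (by decide) (by decide) (by decide)) (F.conv (hb 2) (by decide) (by decide) (by decide)) ((F.K_comm _ _).trans d) (by decide) (by decide)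
  · exact five F non 0 1 6 2 3 0 6 5 2 1 (F.conv (hb 0) (by decide) (by decide) (by decide)) (F.conv2 (f 6) (by decide) (by decide) (by decide)) (F.conv2 (f 2) (by decide) (by decide) (by decide)) (F.conv (hb 2) (by decide) (by decide) (by decide)) ((F.K_comm _ _).trans d) (by decide) (by decide)
  · exact five F non 0 1 2 7 3 0 1 7 3 4 (F.conv (hb 0) (by decide) (by decide) (by decide)) (F.conv (hb 1) (by decide) (by decide) (by decide)) (F.conv2 (f 7) (by decide) (by decide) (by decide)) (F.conv2 (f 3) (by decide) (by decide) (by decide)) ((F.K_comm _ _).trans d) (by decide) (by decide)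
  · exact five F non 0 2 6 1 3 8 5 6 3 0 (F.conv2 (g 2) (by decide) (by decide) (by decide)) (F.conv (f 2) (by decide) (by decide) (by decide)) (F.conv (f 6) (by decide) (by decide) (by decide)) (F.conv2 (g 3) (by decide) (by decide) (by decide)) ((F.K_comm _ _).trans d) (by decide) (by decide)

theorem pat2 (F : Frame c 9) (non : ¬ HasRainbowCycle c 5)
    (hb : ∀ s, F.K s (s + 1) = F.E s)
    (f : ∀ i, F.K i (i + 4) = F.E (i + if i % 3 = 0 then 0 else if i % 3 = 1 then 3 else 0))
    (g : ∀ i, F.K i (i + 7) = F.E (i + if i % 3 = 0 then 0 else if i % 3 = 1 then 6 else 0)) :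
    False := by
  rcases dom5 F non 3 2 1 5 0 2 1 4 5 (F.conv2 (hb 2) (by decide) (by decide) (by decide)) (F.conv2 (hb 1) (by decide) (by decide) (by decide)) (F.conv (f 1) (by decide) (by decide) (by decide)) (F.conv (f 5) (by decide) (by decide) (by decide)) (by decide) (by decide) with d | d | d | d
  · exact five F non 0 3 5 1 8 2 5 4 7 8 d (F.conv2 (g 5) (by decide) (by decide) (by decide)) (F.conv2 (f 1) (by decide) (by decide) (by decide)) (F.conv (g 1) (by decide) (by decide) (by decide)) (F.conv (hb 8) (by decide) (by decide) (by decide)) (by decide) (by decide)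
  · exact five F non 0 3 5 1 8 1 5 4 7 8 d (F.conv2 (g 5) (by decide) (by decide) (by decide)) (F.conv2 (f 1) (by decide) (by decide) (by decide)) (F.conv (g 1) (by decide) (by decide) (by decide)) (F.conv (hb 8) (by decide) (by decide) (by decide)) (by decide) (by decide)
  · exact five F non 0 2 1 8 3 2 1 7 8 4 (F.conv2 (g 2) (by decide) (by decide) (by decide)) (F.conv2 (hb 1) (by decide) (by decide) (by decide)) (F.conv (g 1) (by decide) (by decide) (by decide)) (F.conv (f 8) (by decide) (by decide) (by decide)) ((F.K_comm _ _).trans d) (by decide) (by decide)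
  · exact five F non 0 2 1 8 3 2 1 7 8 5 (F.conv2 (g 2) (by decide) (by decide) (by decide)) (F.conv2 (hb 1) (by decide) (by decide) (by decide)) (F.conv (g 1) (by decide) (by decide) (by decide)) (F.conv (f 8) (by decide) (by decide) (by decide)) ((F.K_comm _ _).trans d) (by decide) (by decide)

theorem pat3 (F : Frame c 9) (non : ¬ HasRainbowCycle c 5)
    (hb : ∀ s, F.K s (s + 1) = F.E s)
    (f : ∀ i, F.K i (i + 4) = F.E (i + if i % 3 = 0 then 0 else if i % 3 = 1 then 3 else 3))
    (g : ∀ i, F.K i (i + 7) = F.E (i + if i % 3 = 0 then 0 else if i % 3 = 1 then 6 else 6)) :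
    False := by
  rcases dom5 F non 3 1 6 2 0 3 6 5 8 (F.conv (g 3) (by decide) (by decide) (by decide)) (F.conv2 (f 6) (by decide) (by decide) (by decide)) (F.conv2 (f 2) (by decide) (by decide) (by decide)) (F.conv (g 2) (by decide) (by decide) (by decide)) (by decide) (by decide) with d | d | d | d
  · exact five F non 0 1 6 2 3 0 6 5 2 3 (F.conv (hb 0) (by decide) (by decide) (by decide)) (F.conv2 (f 6) (by decide) (by decide) (by decide)) (F.conv2 (f 2) (by decide) (by decide) (by decide)) (F.conv (hb 2) (by decide) (by decide) (by decide)) ((F.K_comm _ _).trans d) (by decide) (by decide)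
  · exact five F non 0 2 1 5 3 8 1 4 2 6 (F.conv2 (g 2) (by decide) (by decide) (by decide)) (F.conv2 (hb 1) (by decide) (by decide) (by decide)) (F.conv (f 1) (by decide) (by decide) (by decide)) (F.conv (g 5) (by decide) (by decide) (by decide)) ((F.K_comm _ _).trans d) (by decide) (by decide)
  · exact five F non 0 2 1 5 3 8 1 4 2 5 (F.conv2 (g 2) (by decide) (by decide) (by decide)) (F.conv2 (hb 1) (by decide) (by decide) (by decide)) (F.conv (f 1) (by decide) (by decide) (by decide)) (F.conv (g 5) (by decide) (by decide) (by decide)) ((F.K_comm _ _).trans d) (by decide) (by decide)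
  · exact five F non 0 1 6 2 3 0 6 5 2 8 (F.conv (hb 0) (by decide) (by decide) (by decide)) (F.conv2 (f 6) (by decide) (by decide) (by decide)) (F.conv2 (f 2) (by decide) (by decide) (by decide)) (F.conv (hb 2) (by decide) (by decide) (by decide)) ((F.K_comm _ _).trans d) (by decide) (by decide)

theorem pat4 (F : Frame c 9) (non : ¬ HasRainbowCycle c 5)
    (hb : ∀ s, F.K s (s + 1) = F.E s)
    (f : ∀ i, F.K i (i + 4) = F.E (i + if i % 3 = 0 then 3 else if i % 3 = 1 then 0 else 0))
    (g : ∀ i, F.K i (i + 7) = F.E (i + if i % 3 = 0 then 6 else if i % 3 = 1 then 0 else 0)) :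
    False := by
  rcases dom5 F non 3 1 2 4 0 0 1 4 3 (F.conv (g 3) (by decide) (by decide) (by decide)) (F.conv (hb 1) (by decide) (by decide) (by decide)) (F.conv2 (g 4) (by decide) (by decide) (by decide)) (F.conv2 (f 0) (by decide) (by decide) (by decide)) (by decide) (by decide) with d | d | d | d
  · exact five F non 0 3 4 2 7 0 3 4 7 6 d (F.conv (hb 3) (by decide) (by decide) (by decide)) (F.conv (g 4) (by decide) (by decide) (by decide)) (F.conv2 (f 7) (by decide) (by decide) (by decide)) (F.conv2 (g 0) (by decide) (by decide) (by decide)) (by decide) (by decide)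
  · exact five F non 0 3 4 2 7 1 3 4 7 6 d (F.conv (hb 3) (by decide) (by decide) (by decide)) (F.conv (g 4) (by decide) (by decide) (by decide)) (F.conv2 (f 7) (by decide) (by decide) (by decide)) (F.conv2 (g 0) (by decide) (by decide) (by decide)) (by decide) (by decide)
  · exact five F non 0 1 2 7 3 0 1 7 6 4 (F.conv (hb 0) (by decide) (by decide) (by decide)) (F.conv (hb 1) (by decide) (by decide) (by decide)) (F.conv2 (f 7) (by decide) (by decide) (by decide)) (F.conv2 (f 3) (by decide) (by decide) (by decide)) ((F.K_comm _ _).trans d) (by decide) (by decide)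
  · exact five F non 0 1 2 7 3 0 1 7 6 3 (F.conv (hb 0) (by decide) (by decide) (by decide)) (F.conv (hb 1) (by decide) (by decide) (by decide)) (F.conv2 (f 7) (by decide) (by decide) (by decide)) (F.conv2 (f 3) (by decide) (by decide) (by decide)) ((F.K_comm _ _).trans d) (by decide) (by decide)

theorem pat5 (F : Frame c 9) (non : ¬ HasRainbowCycle c 5)
    (hb : ∀ s, F.K s (s + 1) = F.E s)
    (f : ∀ i, F.K i (i + 4) = F.E (i + if i % 3 = 0 then 3 else if i % 3 = 1 then 0 else 3))
    (g : ∀ i, F.K i (i + 7) = F.E (i + if i % 3 = 0 then 6 else if i % 3 = 1 then 0 else 6)) :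
    False := by
  rcases dom5 F non 3 1 2 4 0 0 1 4 3 (F.conv (g 3) (by decide) (by decide) (by decide)) (F.conv (hb 1) (by decide) (by decide) (by decide)) (F.conv2 (g 4) (by decide) (by decide) (by decide)) (F.conv2 (f 0) (by decide) (by decide) (by decide)) (by decide) (by decide) with d | d | d | d
  · exact five F non 0 3 4 2 7 0 3 4 7 6 d (F.conv (hb 3) (by decide) (by decide) (by decide)) (F.conv (g 4) (by decide) (by decide) (by decide)) (F.conv2 (f 7) (by decide) (by decide) (by decide)) (F.conv2 (g 0) (by decide) (by decide) (by decide)) (by decide) (by decide)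
  · exact five F non 0 3 4 2 7 1 3 4 7 6 d (F.conv (hb 3) (by decide) (by decide) (by decide)) (F.conv (g 4) (by decide) (by decide) (by decide)) (F.conv2 (f 7) (by decide) (by decide) (by decide)) (F.conv2 (g 0) (by decide) (by decide) (by decide)) (by decide) (by decide)
  · exact five F non 0 1 2 7 3 0 1 7 6 4 (F.conv (hb 0) (by decide) (by decide) (by decide)) (F.conv (hb 1) (by decide) (by decide) (by decide)) (F.conv2 (f 7) (by decide) (by decide) (by decide)) (F.conv2 (f 3) (by decide) (by decide) (by decide)) ((F.K_comm _ _).trans d) (by decide) (by decide)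
  · exact five F non 0 1 2 7 3 0 1 7 6 3 (F.conv (hb 0) (by decide) (by decide) (by decide)) (F.conv (hb 1) (by decide) (by decide) (by decide)) (F.conv2 (f 7) (by decide) (by decide) (by decide)) (F.conv2 (f 3) (by decide) (by decide) (by decide)) ((F.K_comm _ _).trans d) (by decide) (by decide)

theorem pat6 (F : Frame c 9) (non : ¬ HasRainbowCycle c 5)
    (hb : ∀ s, F.K s (s + 1) = F.E s)
    (f : ∀ i, F.K i (i + 4) = F.E (i + if i % 3 = 0 then 3 else if i % 3 = 1 then 3 else 0))
    (g : ∀ i, F.K i (i + 7) = F.E (i + if i % 3 = 0 then 6 else if i % 3 = 1 then 6 else 0)) :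
    False := by
  rcases dom5 F non 3 2 1 5 0 2 1 4 5 (F.conv2 (hb 2) (by decide) (by decide) (by decide)) (F.conv2 (hb 1) (by decide) (by decide) (by decide)) (F.conv (f 1) (by decide) (by decide) (by decide)) (F.conv (f 5) (by decide) (by decide) (by decide)) (by decide) (by decide) with d | d | d | d
  · exact five F non 0 3 5 1 8 2 5 4 7 8 d (F.conv2 (g 5) (by decide) (by decide) (by decide)) (F.conv2 (f 1) (by decide) (by decide) (by decide)) (F.conv (g 1) (by decide) (by decide) (by decide)) (F.conv (hb 8) (by decide) (by decide) (by decide)) (by decide) (by decide)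
  · exact five F non 0 3 5 1 8 1 5 4 7 8 d (F.conv2 (g 5) (by decide) (by decide) (by decide)) (F.conv2 (f 1) (by decide) (by decide) (by decide)) (F.conv (g 1) (by decide) (by decide) (by decide)) (F.conv (hb 8) (by decide) (by decide) (by decide)) (by decide) (by decide)
  · exact five F non 0 2 1 8 3 2 1 7 8 4 (F.conv2 (g 2) (by decide) (by decide) (by decide)) (F.conv2 (hb 1) (by decide) (by decide) (by decide)) (F.conv (g 1) (by decide) (by decide) (by decide)) (F.conv (f 8) (by decide) (by decide) (by decide)) ((F.K_comm _ _).trans d) (by decide) (by decide)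
  · exact five F non 0 2 1 8 3 2 1 7 8 5 (F.conv2 (g 2) (by decide) (by decide) (by decide)) (F.conv2 (hb 1) (by decide) (by decide) (by decide)) (F.conv (g 1) (by decide) (by decide) (by decide)) (F.conv (f 8) (by decide) (by decide) (by decide)) ((F.K_comm _ _).trans d) (by decide) (by decide)

theorem pat7 (F : Frame c 9) (non : ¬ HasRainbowCycle c 5)
    (hb : ∀ s, F.K s (s + 1) = F.E s)
    (f : ∀ i, F.K i (i + 4) = F.E (i + if i % 3 = 0 then 3 else if i % 3 = 1 then 3 else 3))
    (g : ∀ i, F.K i (i + 7) = F.E (i + if i % 3 = 0 then 6 else if i % 3 = 1 then 6 else 6)) :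
    False := by
  rcases dom5 F non 3 2 1 5 0 2 1 4 8 (F.conv2 (hb 2) (by decide) (by decide) (by decide)) (F.conv2 (hb 1) (by decide) (by decide) (by decide)) (F.conv (f 1) (by decide) (by decide) (by decide)) (F.conv (f 5) (by decide) (by decide) (by decide)) (by decide) (by decide) with d | d | d | d
  · rcases dom5 F non 4 0 2 3 1 3 8 2 0 (F.conv2 (f 0) (by decide) (by decide) (by decide)) (F.conv2 (g 2) (by decide) (by decide) (by decide)) (F.conv (hb 2) (by decide) (by decide) (by decide)) (F.conv (g 3) (by decide) (by decide) (by decide)) (by decide) (by decide) with d2 | d2 | d2 | d2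
    · exact five F non 0 2 4 1 3 8 1 3 0 2 (F.conv2 (g 2) (by decide) (by decide) (by decide)) (F.conv2 (g 4) (by decide) (by decide) (by decide)) ((F.K_comm _ _).trans d2) (F.conv2 (g 3) (by decide) (by decide) (by decide)) ((F.K_comm _ _).trans d) (by decide) (by decide)
    · exact five F non 1 3 2 6 4 0 2 5 3 8 (F.conv2 (g 3) (by decide) (by decide) (by decide)) (F.conv2 (hb 2) (by decide) (by decide) (by decide)) (F.conv (f 2) (by decide) (by decide) (by decide)) (F.conv (g 6) (by decide) (by decide) (by decide)) ((F.K_comm _ _).trans d2) (by decide) (by decide)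
    · exact five F non 0 1 4 6 2 0 2 3 5 8 (F.conv (hb 0) (by decide) (by decide) (by decide)) d2 (F.conv2 (g 6) (by decide) (by decide) (by decide)) (F.conv2 (f 2) (by decide) (by decide) (by decide)) (F.conv (g 2) (by decide) (by decide) (by decide)) (by decide) (by decide)
    · exact five F non 0 2 1 4 3 8 1 0 3 2 (F.conv2 (g 2) (by decide) (by decide) (by decide)) (F.conv2 (hb 1) (by decide) (by decide) (by decide)) d2 (F.conv2 (hb 3) (by decide) (by decide) (by decide)) ((F.K_comm _ _).trans d) (by decide) (by decide)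
  · exact five F non 0 3 5 1 8 1 2 4 7 8 d (F.conv2 (g 5) (by decide) (by decide) (by decide)) (F.conv2 (f 1) (by decide) (by decide) (by decide)) (F.conv (g 1) (by decide) (by decide) (by decide)) (F.conv (hb 8) (by decide) (by decide) (by decide)) (by decide) (by decide)
  · exact five F non 0 2 1 8 3 8 1 7 2 4 (F.conv2 (g 2) (by decide) (by decide) (by decide)) (F.conv2 (hb 1) (by decide) (by decide) (by decide)) (F.conv (g 1) (by decide) (by decide) (by decide)) (F.conv (f 8) (by decide) (by decide) (by decide)) ((F.K_comm _ _).trans d) (by decide) (by decide)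
  · rcases dom5 F non 4 0 2 3 1 3 8 2 0 (F.conv2 (f 0) (by decide) (by decide) (by decide)) (F.conv2 (g 2) (by decide) (by decide) (by decide)) (F.conv (hb 2) (by decide) (by decide) (by decide)) (F.conv (g 3) (by decide) (by decide) (by decide)) (by decide) (by decide) with d2 | d2 | d2 | d2
    · exact five F non 0 1 4 2 3 0 3 1 2 8 (F.conv (hb 0) (by decide) (by decide) (by decide)) d2 (F.conv (g 4) (by decide) (by decide) (by decide)) (F.conv (hb 2) (by decide) (by decide) (by decide)) ((F.K_comm _ _).trans d) (by decide) (by decide)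
    · exact five F non 1 3 2 6 4 0 2 5 3 8 (F.conv2 (g 3) (by decide) (by decide) (by decide)) (F.conv2 (hb 2) (by decide) (by decide) (by decide)) (F.conv (f 2) (by decide) (by decide) (by decide)) (F.conv (g 6) (by decide) (by decide) (by decide)) ((F.K_comm _ _).trans d2) (by decide) (by decide)
    · exact five F non 0 1 4 6 2 0 2 3 5 8 (F.conv (hb 0) (by decide) (by decide) (by decide)) d2 (F.conv2 (g 6) (by decide) (by decide) (by decide)) (F.conv2 (f 2) (by decide) (by decide) (by decide)) (F.conv (g 2) (by decide) (by decide) (by decide)) (by decide) (by decide)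
    · exact five F non 0 3 2 1 4 8 2 1 0 3 d (F.conv2 (hb 2) (by decide) (by decide) (by decide)) (F.conv2 (hb 1) (by decide) (by decide) (by decide)) d2 (F.conv2 (f 0) (by decide) (by decide) (by decide)) (by decide) (by decide)
end

theorem nine {V C : Type*} (c : Sym2 V → C) (non : ¬ HasRainbowCycle c 5) :
    ¬ HasRainbowCycle c 9 := by
  intro hc
  obtain ⟨F, hb⟩ := exists_frame hc
  change Frame c 9 at F
  have hx : ∀ i : ℤ, ∃ y : ℤ, 0 ≤ y ∧ y ≤ 3 ∧ F.K i (i + 4) = F.E (i + y) := by
    intro i
    obtain ⟨k, hk, hk'⟩ := (RP.up hb i (i + 4) (by omega) (by omega)).close non (by omega)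
      (by omega)
    simp only [Set.mem_ofPred_eq] at hk
    refine ⟨k - i, by omega, by omega, ?_⟩
    rw [F.K_comm, hk']
    congr 1; ring
  choose x hx0 hx1 hx2 using hx
  have per : ∀ i, x (i + 9) = x i := by
    intro i
    have h1 := hx2 (i + 9)
    rw [show i + 9 + 4 = i + 4 + 9 by ring, F.K_add, hx2 i,
      show i + 9 + x (i + 9) = i + x (i + 9) + 9 by ring, F.E_add] at h1
    have := F.E_eq h1 (by have := hx0 (i + 9); have := hx1 i; omega)
      (by have := hx1 (i + 9); have := hx0 i; omega)
    omega
  have step : ∀ i, x i < 3 → x (i + 3) = 0 := by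
    intro i hi
    by_contra hcon
    have a0 := hx0 i
    have b1 := hx1 (i + 3)
    have b0 := hx0 (i + 3)
    have P1 := RP.down hb (i + 3) (i + 4) (by omega) (by omega)
    have P2 := RP.up hb (i + 3 + 4) (i + 9) (by omega) (by omega)
    have P3 := P1.append P2 (hx2 (i + 3)) (by
        intros
        simp only [Set.mem_ofPred_eq, Set.mem_insert_iff, Set.mem_union, Set.mem_singleton_iff,
          Set.mem_empty_iff_false, or_false] at *
        apply ndvd <;> omega) (by
        intros
        simp only [Set.mem_ofPred_eq, Set.mem_insert_iff, Set.mem_union, Set.mem_singleton_iff,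
          Set.mem_empty_iff_false, or_false] at *
        apply ndvd <;> omega) (by
        intros
        simp only [Set.mem_ofPred_eq, Set.mem_insert_iff, Set.mem_union, Set.mem_singleton_iff,
          Set.mem_empty_iff_false, or_false] at *
        apply ndvd <;> omega) (by
        intros
        simp only [Set.mem_ofPred_eq, Set.mem_insert_iff, Set.mem_union, Set.mem_singleton_iff,
          Set.mem_empty_iff_false, or_false] at *
        apply ndvd <;> omega)
    refine P3.false (k0 := i + x i) non (by omega) (by omega) ?_ (by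
        intros
        simp only [Set.mem_ofPred_eq, Set.mem_insert_iff, Set.mem_union, Set.mem_singleton_iff,
          Set.mem_empty_iff_false, or_false] at *
        apply ndvd <;> omega)
    rw [F.K_add_left]
    exact hx2 i
  have h03 : ∀ i, x i = 0 ∨ x i = 3 := by
    intro i
    by_cases h1 : x i < 3
    · left
      have h2 := step i h1
      have h3 := step (i + 3) (by omega)
      have h4 := step (i + 3 + 3) (by omega)
      rw [show i + 3 + 3 + 3 = i + 9 by ring, per] at h4
      exact h4
    · right; have := hx1 i; omega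
  have hs : ∀ i, x (i + 3) = x i := by
    intro i
    rcases h03 i with h1 | h1
    · rw [h1]; exact step i (by omega)
    · rcases h03 (i + 3) with h2 | h2
      · have h3 := step (i + 3) (by omega)
        have h4 := step (i + 3 + 3) (by omega)
        rw [show i + 3 + 3 + 3 = i + 9 by ring, per] at h4
        omega
      · omega
  have hdom : ∀ i y : ℤ, 0 ≤ y → y ≤ 3 → ∃ G, F.K i (i + 7) = F.E (i + G) ∧
      ((0 ≤ G ∧ G < y) ∨ G = y + x (i + y) ∨ (y + 4 ≤ G ∧ G < 7)) := by
    intro i y hy0 hy1
    have b1 := hx1 (i + y)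
    have b0 := hx0 (i + y)
    have P1 := RP.up hb i (i + y) (by omega) (by omega)
    have P2 := RP.up hb (i + y + 4) (i + 7) (by omega) (by omega)
    have P3 := P1.append P2 (hx2 (i + y)) (by
        intros
        simp only [Set.mem_ofPred_eq, Set.mem_insert_iff, Set.mem_union, Set.mem_singleton_iff,
          Set.mem_empty_iff_false, or_false] at *
        apply ndvd <;> omega) (by
        intros
        simp only [Set.mem_ofPred_eq, Set.mem_insert_iff, Set.mem_union, Set.mem_singleton_iff,
          Set.mem_empty_iff_false, or_false] at *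
        apply ndvd <;> omega) (by
        intros
        simp only [Set.mem_ofPred_eq, Set.mem_insert_iff, Set.mem_union, Set.mem_singleton_iff,
          Set.mem_empty_iff_false, or_false] at *
        apply ndvd <;> omega) (by
        intros
        simp only [Set.mem_ofPred_eq, Set.mem_insert_iff, Set.mem_union, Set.mem_singleton_iff,
          Set.mem_empty_iff_false, or_false] at *
        apply ndvd <;> omega)
    obtain ⟨k, hk, hk'⟩ := P3.close non (by omega) (by omega)
    refine ⟨k - i, ?_, ?_⟩
    · rw [F.K_comm, hk']; congr 1; ring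
    · simp only [Set.mem_ofPred_eq, Set.mem_insert_iff, Set.mem_union] at hk
      omega
  have hg : ∀ i, F.K i (i + 7) = F.E (i + 2 * x i) := by
    intro i
    obtain ⟨G0, e0, d0⟩ := hdom i 0 (by omega) (by omega)
    obtain ⟨G1, e1, d1⟩ := hdom i 1 (by omega) (by omega)
    obtain ⟨G3, e3, d3⟩ := hdom i 3 (by omega) (by omega)
    have hi := h03 i
    have hi1 := h03 (i + 1)
    have hi3 := hs i
    rw [add_zero] at d0
    have g1 := F.E_eq (e0.symm.trans e1) (by omega) (by omega)
    have g3 := F.E_eq (e0.symm.trans e3) (by omega) (by omega)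
    rw [e0]
    congr 1
    omega
  have hxf : ∀ i, x i = if i % 3 = 0 then x 0 else if i % 3 = 1 then x 1 else x 2 := by
    have key : ∀ (q : ℕ) (i : ℤ), x (i + 3 * q) = x i := by
      intro q
      induction q with
      | zero => intro i; simp
      | succ q ih =>
        intro i
        have := hs (i + 3 * q)
        rw [ih] at this
        rw [← this]
        congr 1; push_cast; ring
    intro i
    have h1 : x i = x (i % 3) := by
      rcases le_or_gt 0 i with hi | hi
      · have := key (i / 3).toNat (i % 3)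
        rw [show i % 3 + 3 * (((i / 3).toNat : ℕ) : ℤ) = i by omega] at this
        exact this
      · have := key (-(i / 3)).toNat i
        rw [show i + 3 * (((-(i / 3)).toNat : ℕ) : ℤ) = i % 3 by omega] at this
        exact this.symm
    rw [h1]
    have : i % 3 = 0 ∨ i % 3 = 1 ∨ i % 3 = 2 := by omega
    rcases this with h | h | h <;> rw [h] <;> simp
  have hf' : ∀ i, F.K i (i + 4) =
      F.E (i + if i % 3 = 0 then x 0 else if i % 3 = 1 then x 1 else x 2) := by
    intro i; rw [hx2 i]; congr 2; exact hxf i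
  have hg' : ∀ i, F.K i (i + 7) =
      F.E (i + if i % 3 = 0 then 2 * x 0 else if i % 3 = 1 then 2 * x 1 else 2 * x 2) := by
    intro i; rw [hg i]; congr 2
    rw [hxf i]
    split_ifs <;> rfl
  rcases h03 0 with h0 | h0 <;> rcases h03 1 with h1 | h1 <;> rcases h03 2 with h2 | h2 <;>
    rw [h0, h1, h2] at hf' hg'
  · exact pat0 F non hb hf' hg'
  · exact pat1 F non hb hf' hg'
  · exact pat2 F non hb hf' hg'
  · exact pat3 F non hb hf' hg'
  · exact pat4 F non hb hf' hg'
  · exact pat5 F non hb hf' hg'
  · exact pat6 F non hb hf' hg'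
  · exact pat7 F non hb hf' hg'

end Pool.Agent.H81.Rainbow
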