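import Pool.Agent.H81.Rainbow.Walk2

/-! No rainbow `(4h+2κ)`-cycles for `1 ≤ κ ≤ h-1` -/

namespace Pool.Agent.H81.Rainbow

section
variable {V C : Type*} {c : Sym2 V → C} {m : ℤ}
variable {F : Frame c m} {h κ : ℤ} {n : ℕ} {x : ℤ → ℤ} {D b e H : ℤ}

/-- closing on the second side -/
theorem CtxG.closeB (X : CtxG F h κ n x D) (hH : H = 2 * h + κ) (hκ2 : 2 ≤ κ)
    (hbe : κ = 2 * b + 1 - e) (he : e = 0 ∨ e = 1) (z lo l : ℤ) (hz : z ≤ -D)
    (hz' : -H + 2 * κ ≤ z) (hlo : -H + 1 ≤ lo)
    (hl1 : l ≤ -H + κ) (xl : x (l - 1 + H) = 0)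
    (hq : ∀ q, l ≤ q → q < z - κ → 1 ≤ x (q + H))
    (Q : ∀ T, l ≤ T → -H + 1 ≤ T → T ≤ z - κ → QB F x H D e T lo) : False := by
  have x00 := X.x00
  have hD := X.hD
  have hh := X.hh
  have hbb : 0 ≤ l - 1 + H := by
    by_contra hc
    have := hq (-H) (by omega) (by omega)
    rw [show -H + H = 0 by ring] at this
    omega
  obtain ⟨t, ht1, ht2, ht3⟩ : ∃ t, κ ≤ t ∧ t ≤ κ + e ∧
      (t = κ + e ∨ (t = κ ∧ e = 1 ∧ z - κ + H = κ)) ∧ t ≤ z - κ + H := by
    by_cases hc : κ + e ≤ z - κ + H
    · exact ⟨κ + e, by omega, by omega, by omega, by omega⟩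
    · exact ⟨κ, by omega, by omega, by omega, by omega⟩
  by_cases hw : x (t - b - 1) ≤ b
  · refine X.t2 hH hκ2 hbe he lo (κ + e - t) (-H + t) hlo (by omega) (by omega) (by omega)
      (by omega) (by omega) ?_ (Q (-H + t) (by omega) (by omega) (by omega))
    rw [show -H + t + H - b - 1 = t - b - 1 by ring]
    exact hw
  · have h1 := X.x1 (t - b - 1)
    have h2 : l + H ≤ t - b - 1 := by
      by_contra hc
      have := X.mono (t - b - 1) (l - 1 + H) (by omega)
      omega
    refine X.t2 hH hκ2 hbe he lo (b - (l - 1 + H)) (-H + (l - 1 + H) + b + 1) hlo (by omega)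
      (by omega) (by omega) (by omega) (by omega) ?_ (Q _ (by omega) (by omega) (by omega))
    rw [show -H + (l - 1 + H) + b + 1 + H - b - 1 = l - 1 + H by ring]
    omega

theorem CtxG.loop (X : CtxG F h κ n x D) (hH : H = 2 * h + κ) (hκ2 : 2 ≤ κ)
    (hbe : κ = 2 * b + 1 - e) (he : e = 0 ∨ e = 1) (N : ℕ) :
    ∀ z lo, z + H - κ < N → -H + κ ≤ z → lo ≤ 0 →
      (z ≤ -D → x z = 0 → z + x (z + H) < lo → QA F x H D (z + 1) lo → False) ∧
      (z ≤ -D - 1 → x (z + H) = 0 → z + x z < lo → QB F x H D e (z + 1) lo → False) := by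
  have hD := X.hD
  have hh := X.hh
  induction N with
  | zero => intro z lo h1 h2; exfalso; push_cast at h1; omega
  | succ N ih =>
    intro z lo h1 h2 h3
    push_cast at h1
    have lowA := X.low (z - κ)
    have lowB := X.low (z - κ + H)
    obtain ⟨l, hl1, hl2, hl3⟩ := lowA
    obtain ⟨r', hr1, hr2, hr3⟩ := lowB
    obtain ⟨r, rfl⟩ : ∃ r, r' = r + H := ⟨r' - H, by ring⟩
    have hr3' : ∀ q, r ≤ q → q < z - κ → 1 ≤ x (q + H) :=
      fun q a a' => hr3 (q + H) (by omega) (by omega)
    rw [show r + H - 1 = r - 1 + H by ring] at hr2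
    clear hr3
    refine ⟨?_, ?_⟩
    · intro hz xz hlo Q
      have hx0 := X.x0 (z + H)
      by_cases hi : z ≤ -H + 2 * κ - 1
      · by_cases hi0 : z = -H + κ
        · exact X.t3 hH hκ2 z lo 0 1 hz (by omega) (by omega) (by omega) (by omega) (by omega)
            (by omega) xz (by omega) h3 Q
        · exact X.t3 hH hκ2 z lo (z + H - κ) (z + H - κ) hz (by omega) (by omega) (by omega)
            (by omega) (by omega) (by omega) xz (by omega) h3 Q
      · by_cases hN : l ≤ r
        · have key : ∀ T, T ≤ z - κ → -H + 1 ≤ T → l ≤ T → QA F x H D T (z + 1 - κ) := by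
            intro T hT1 hT2 hT3
            exact X.n2A hH hκ2 z lo T hz (by omega) xz hlo h3 Q hT1 hT2
              (fun q a a' => hl3 q (by omega) a')
          by_cases hlow : -H + κ + 1 ≤ l
          · have h4 := X.mono (l - 1 + H) (r - 1 + H) (by omega)
            exact (ih (l - 1) (z + 1 - κ) (by omega) (by omega) (by omega)).1 (by omega) hl2
              (by omega) (by
                rw [show l - 1 + 1 = l by ring]
                exact key l hl1 (by omega) le_rfl)
          · refine X.t1 hH hκ2 (z + 1 - κ) 0 (by omega) (by omega) ?_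
            rw [sub_zero]
            exact key _ (by omega) (by omega) (by omega)
        · have key : ∀ T, T ≤ z - κ → -H + 1 ≤ T → r ≤ T → QB F x H D e T (z - 2 * b) := by
            intro T hT1 hT2 hT3
            exact X.nsA hH hκ2 hbe he z lo T hz (by omega) xz hlo h3 Q hT1 hT2
              (fun q a a' => hr3' q (by omega) a')
          by_cases hlow : -H + κ + 1 ≤ r
          · have h4 := X.mono (r - 1) (l - 1) (by omega)
            exact (ih (r - 1) (z - 2 * b) (by omega) (by omega) (by omega)).2 (by omega) hr2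
              (by omega) (by
                rw [show r - 1 + 1 = r by ring]
                exact key r (by omega) (by omega) le_rfl)
          · exact X.closeB hH hκ2 hbe he z (z - 2 * b) r hz (by omega) (by omega) (by omega) hr2
              hr3' (fun T a a' a'' => key T a'' a' a)
    · intro hz xz hlo Q
      have hx0 := X.x0 z
      by_cases hi : z ≤ -H + 2 * κ - 1
      · by_cases hb1 : z + H - κ ≤ b
        · by_cases h0 : z = -H + κ ∧ e = 1
          · have h4 := X.mono (z - b + H) (z + H) (by omega)
            exact X.t2 hH hκ2 hbe he lo 0 (z + 1) (by omega) (by omega) (by omega) (by omega)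
              (by omega) (by omega) (by
                rw [show z + 1 + H - b - 1 = z - b + H by ring]; omega) Q
          · by_cases h5 : b - (z + H - κ) + 1 ≤ D
            · exact X.t4c hH hκ2 hbe he z lo (z + H - κ) hz (by omega) (by omega) (by omega) h5
                xz hlo h3 Q
            · by_cases h6 : z + H - κ = e
              · exact X.t4h hH hκ2 hbe he z lo (z + H - κ) 1 hz (by omega) (by omega) (by omega)
                  (by omega) (by omega) (by omega) (by omega) xz hlo h3 Q
              · exact X.t4h hH hκ2 hbe he z lo (z + H - κ) (z + H - κ - e) hz (by omega)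
                  (by omega) (by omega) (by omega) (by omega) (by omega) (by omega) xz hlo h3 Q
        · by_cases h6 : z + H - κ = b + 1
          · exact X.t4g hH hκ2 hbe he z lo (z + H - κ) 1 hz (by omega) (by omega) (by omega)
              (by omega) (by omega) (by omega) xz hlo h3 Q
          · exact X.t4g hH hκ2 hbe he z lo (z + H - κ) (z + H - κ - b - 1) hz (by omega)
              (by omega) (by omega) (by omega) (by omega) (by omega) xz hlo h3 Q
      · by_cases hN : r ≤ l
        · have key : ∀ T, T ≤ z - κ → -H + 1 ≤ T → r ≤ T → QB F x H D e T (z + 1 - κ) := by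
            intro T hT1 hT2 hT3
            exact X.n2B hH hκ2 he z lo T hz (by omega) xz hlo h3 Q hT1 hT2
              (fun q a a' => hr3' q (by omega) a')
          by_cases hlow : -H + κ + 1 ≤ r
          · have h4 := X.mono (r - 1) (l - 1) (by omega)
            exact (ih (r - 1) (z + 1 - κ) (by omega) (by omega) (by omega)).2 (by omega) hr2
              (by omega) (by
                rw [show r - 1 + 1 = r by ring]
                exact key r (by omega) (by omega) le_rfl)
          · exact X.closeB hH hκ2 hbe he z (z + 1 - κ) r (by omega) (by omega) (by omega)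
              (by omega) hr2 hr3' (fun T a a' a'' => key T a'' a' a)
        · have key : ∀ T, T ≤ z - κ - e → -H + 1 ≤ T → l ≤ T → QA F x H D T (z - 2 * b) := by
            intro T hT1 hT2 hT3
            exact X.nsB hH hκ2 hbe he z lo T hz (by omega) xz hlo h3 Q hT1 hT2
              (fun q a a' => hl3 q (by omega) a')
          by_cases hlow : -H + κ + 1 ≤ l
          · have h4 := X.mono (l - 1 + H) (r - 1 + H) (by omega)
            exact (ih (l - 1) (z - 2 * b) (by omega) (by omega) (by omega)).1 (by omega) hl2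
              (by omega) (by
                rw [show l - 1 + 1 = l by ring]
                exact key l (by omega) (by omega) le_rfl)
          · by_cases h7 : -H + κ ≤ z - κ - e
            · refine X.t1 hH hκ2 (z - 2 * b) 0 (by omega) (by omega) ?_
              rw [sub_zero]
              exact key _ (by omega) (by omega) (by omega)
            · refine X.t1 hH hκ2 (z - 2 * b) 1 (by omega) (by omega) ?_
              exact key _ (by omega) (by omega) (by omega)

theorem CtxG.two (X : CtxG F h κ n x D) (hκ2 : 2 ≤ κ) : False := by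
  have hD := X.hD
  have hD' := X.hD'
  have hh := X.hh
  have hm := X.hm
  obtain ⟨b, e, hbe, he⟩ : ∃ b e : ℤ, κ = 2 * b + 1 - e ∧ (e = 0 ∨ e = 1) :=
    ⟨κ / 2, 2 * (κ / 2) + 1 - κ, by ring, by omega⟩
  have h1 := X.x1 (-D + (2 * h + κ))
  refine (X.loop (b := b) (e := e) (H := 2 * h + κ) rfl hκ2 hbe he
    (-D + (2 * h + κ) - κ + 1).toNat (-D) 0 (by omega) (by omega) le_rfl).1 le_rfl X.xD
    (by omega) ?_
  intro j hj0 hj1
  have h2 := X.blk (D - 1) (by omega) le_rfl
  rw [show -(D - 1) = -D + 1 by ring] at h2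
  have P := RP.down X.base (-D + 1) (-j) (by omega) (by omega)
  rw [show (-j - (-D + 1)).toNat = (-(-D + 1) - j).toNat by congr 1; ring] at P
  exact P.mono (by
      intro v hv
      simp only [Set.mem_ofPred_eq, Set.mem_insert_iff, Set.mem_union, Set.mem_singleton_iff,
        Set.mem_empty_iff_false, or_false] at *
      omega) (by
      intro v hv
      simp only [Set.mem_ofPred_eq, Set.mem_insert_iff, Set.mem_union, Set.mem_singleton_iff,
        Set.mem_empty_iff_false, or_false] at *
      omega)

theorem CtxG.false (X : CtxG F h κ n x D) : False := by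
  by_cases hc : κ = 1
  · exact X.one hc
  · exact X.two (by have := X.hκ; omega)

theorem CtxE.false (X : CtxE F h κ n x) : False := by
  rcases X.all with hF | hS
  · obtain ⟨F', x', D, Y⟩ := X.toG hF
    exact Y.false
  · obtain ⟨F', x', D, Y⟩ := X.refl.toG (fun i => (X.FK_refl i).2 (hS _))
    exact Y.false

end

/-- If an edge-coloured complete graph has no rainbow `(2h+1)`-cycle and no rainbow `N`-cycle
with `N` even and `4h ≤ N < 4h+2κ`, where `1 ≤ κ ≤ h-1`, it has no rainbow `(4h+2κ)`-cycle. -/
theorem even_step {V C : Type*} (c : Sym2 V → C) (h κ : ℕ) (hκ : 1 ≤ κ) (hh : κ + 1 ≤ h)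
    (non : ¬ HasRainbowCycle c (2 * h + 1))
    (noM : ∀ N, 4 * h ≤ N → N < 4 * h + 2 * κ → N % 2 = 0 → ¬ HasRainbowCycle c N) :
    ¬ HasRainbowCycle c (4 * h + 2 * κ) := by
  intro hc
  obtain ⟨F, hb⟩ := exists_frame hc
  have hmm : ((4 * h + 2 * κ : ℕ) : ℤ) = 4 * h + 2 * κ := by omega
  have hx : ∀ i : ℤ, ∃ y : ℤ, 0 ≤ y ∧ y ≤ 2 * h - 1 ∧ F.K i (i + 2 * h) = F.E (i + y) := by
    intro i
    obtain ⟨k, hk, hk'⟩ := (RP.up hb i (i + 2 * h) (by omega) (by omega)).close non (by omega)
      (by omega)
    simp only [Set.mem_ofPred_eq] at hk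
    refine ⟨k - i, by omega, by omega, ?_⟩
    rw [F.K_comm, hk']
    congr 1; ring
  choose x hx0 hx1 hx2 using hx
  exact CtxE.false (F := F) (h := h) (κ := κ) (n := 2 * h + 1) (x := x)
    ⟨hb, by omega, by omega, hmm, by push_cast; ring, non,
      fun M h1 h2 h3 => noM M (by omega) (by omega) h3, hx0, hx1, hx2⟩

end Pool.Agent.H81.Rainbow
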