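import Pool.Agent.H81.Rainbow.Run

/-! No rainbow `(4h+2κ-1)`-cycles for `1 ≤ κ ≤ h-1` -/

namespace Pool.Agent.H81.Rainbow

theorem ndvd {m x : ℤ} (hm : 0 < m) (h0 : x ≠ 0) (h1 : x ≠ m) (h2 : x ≠ -m) (h3 : x < 2 * m)
    (h4 : -(2 * m) < x) : ¬ m ∣ x := by
  intro h
  rcases dvd_cases hm h h3 h4 with h | h | h
  · exact h0 h
  · exact h1 h
  · exact h2 h


section
variable {V C : Type*} {c : Sym2 V → C} {m : ℤ}

structure Ctx (F : Frame c m) (h κ : ℤ) (n M : ℕ) (x : ℤ → ℤ) : Prop where
  base : ∀ s, F.K s (s + 1) = F.E s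
  hκ : 1 ≤ κ
  hh : κ ≤ h - 1
  hm : m = 4 * h + 2 * κ - 1
  hn : (n : ℤ) = 2 * h + 1
  hM : (M : ℤ) = m - 2
  non : ¬ HasRainbowCycle c n
  noM : ¬ HasRainbowCycle c M
  x0 : ∀ i, 0 ≤ x i
  x1 : ∀ i, x i ≤ 2 * h - 1
  fx : ∀ i, F.K i (i + 2 * h) = F.E (i + x i)

variable {F : Frame c m} {h κ : ℤ} {n M : ℕ} {x : ℤ → ℤ}

theorem Ctx.refl (X : Ctx F h κ n M x) :
    Ctx F.refl h κ n M (fun s => 2 * h - 1 - x (-s - 2 * h)) where
  base := F.refl_base X.base
  hκ := X.hκ
  hh := X.hh
  hm := X.hm
  hn := X.hn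
  hM := X.hM
  non := X.non
  noM := X.noM
  x0 i := by have := X.x1 (-i - 2 * h); omega
  x1 i := by have := X.x0 (-i - 2 * h); omega
  fx i := by
    rw [F.refl_K, F.refl_E, F.K_comm]
    have := X.fx (-i - 2 * h)
    rw [show -i - 2 * h + 2 * h = -i by ring] at this
    rw [show -(i + 2 * h) = -i - 2 * h by ring, this]
    congr 1
    ring

theorem Ctx.per (X : Ctx F h κ n M x) (i : ℤ) : x (i + m) = x i := by
  have h1 := X.fx (i + m)
  rw [show i + m + 2 * h = i + 2 * h + m by ring, F.K_add, X.fx i,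
    show i + m + x (i + m) = i + x (i + m) + m by ring, F.E_add] at h1
  have := F.E_eq h1 (by have := X.x0 (i+m); have := X.x1 i; have := X.hm; have := X.hκ; have := X.hh; omega)
    (by have := X.x1 (i+m); have := X.x0 i; have := X.hm; have := X.hκ; have := X.hh; omega)
  omega

theorem Ctx.perNat (X : Ctx F h κ n M x) (i : ℤ) (q : ℕ) : x (i + q * m) = x i := by
  induction q with
  | zero => simp
  | succ q ih =>
    rw [← ih, ← X.per (i + q * m)]
    push_cast
    congr 1; ring

theorem Ctx.step3 (X : Ctx F h κ n M x) (i : ℤ) (hi : x i < h + κ) :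
    x (i + (h + κ)) < h - κ := by
  by_contra hcon
  push Not at hcon
  obtain ⟨hb, hκ, hh, hm, hn, hM, non, noM, x0, x1, fx⟩ := X
  have a0 := x0 i
  have b1 := x1 (i + (h + κ))
  have b0 := x0 (i + (h + κ))
  have P1 := RP.down hb (i + (h + κ)) (i + 2 * h) (by omega) (by omega)
  have P2 := RP.up hb (i + (h + κ) + 2 * h) (i + m) (by omega) (by omega)
  have P3 := P1.append P2 (fx (i + (h + κ))) (by
    intros
    simp only [Set.mem_ofPred_eq, Set.mem_insert_iff, Set.mem_union, Set.mem_singleton_iff,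
      Set.mem_empty_iff_false, or_false] at *
    apply ndvd <;> omega) (by
    intros
    simp only [Set.mem_ofPred_eq, Set.mem_insert_iff, Set.mem_union, Set.mem_singleton_iff,
      Set.mem_empty_iff_false, or_false] at *
    apply ndvd <;> omega) (by
    intros
    simp only [Set.mem_ofPred_eq, Set.mem_insert_iff, Set.mem_union, Set.mem_singleton_iff,
      Set.mem_empty_iff_false, or_false] at *
    apply ndvd <;> omega) (by
    intros
    simp only [Set.mem_ofPred_eq, Set.mem_insert_iff, Set.mem_union, Set.mem_singleton_iff,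
      Set.mem_empty_iff_false, or_false] at *
    apply ndvd <;> omega)
  refine P3.false (k0 := i + x i) non (by omega) (by omega) ?_ (by
    intros
    simp only [Set.mem_ofPred_eq, Set.mem_insert_iff, Set.mem_union, Set.mem_singleton_iff,
      Set.mem_empty_iff_false, or_false] at *
    apply ndvd <;> omega)
  rw [show i + m = i + m by rfl, F.K_add_left]
  exact fx i

theorem Ctx.iter (X : Ctx F h κ n M x) (i : ℤ) (hi : x i < h + κ) (r : ℕ) :
    x (i + (r + 1) * (h + κ)) < h - κ := by
  have hκ := X.hκ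
  induction r with
  | zero => simpa using X.step3 i hi
  | succ r ih =>
    have := X.step3 _ (show x (i + (r + 1) * (h + κ)) < h + κ by omega)
    push_cast
    rw [show i + ((r : ℤ) + 1 + 1) * (h + κ) = i + (r + 1) * (h + κ) + (h + κ) by ring]
    exact this

theorem Ctx.low (X : Ctx F h κ n M x) (i : ℤ) (hi : x i < h + κ) : x i < h - κ := by
  have hm := X.hm
  have hκ := X.hκ
  have hh := X.hh
  have h1 := X.iter i hi (m - 1).toNat
  have h2 := X.perNat i (h + κ).toNat
  rw [show ((((m - 1).toNat : ℕ) : ℤ) + 1) = m by omega] at h1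
  rw [show (((h + κ).toNat : ℕ) : ℤ) = h + κ by omega] at h2
  rw [mul_comm, h2] at h1
  exact h1

theorem Ctx.low' (X : Ctx F h κ n M x) (i : ℤ) (hi : x i < h - κ) :
    x (i + (2 * h - 1)) < h - κ := by
  have hm := X.hm
  have hκ := X.hκ
  have hh := X.hh
  have h1 := X.iter i (by omega) (m - 3).toNat
  rw [show ((((m - 3).toNat : ℕ) : ℤ) + 1) = m - 2 by omega] at h1
  have h2 := X.perNat (i + (2 * h - 1)) (h + κ - 1).toNat
  rw [show (((h + κ - 1).toNat : ℕ) : ℤ) = h + κ - 1 by omega] at h2
  rw [← h2]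
  convert h1 using 2
  rw [hm]; ring

/-- the long edge `(i, i+4h-1)` -/
theorem Ctx.gdom (X : Ctx F h κ n M x) (i y : ℤ) (hy0 : 0 ≤ y) (hy1 : y ≤ 2 * h - 1) :
    ∃ G, F.K i (i + (4 * h - 1)) = F.E (i + G) ∧
      ((0 ≤ G ∧ G < y) ∨ G = y + x (i + y) ∨ (y + 2 * h ≤ G ∧ G < 4 * h - 1)) := by
  obtain ⟨hb, hκ, hh, hm, hn, hM, non, noM, x0, x1, fx⟩ := X
  have b1 := x1 (i + y)
  have b0 := x0 (i + y)
  have P1 := RP.up hb i (i + y) (by omega) (by omega)
  have P2 := RP.up hb (i + y + 2 * h) (i + (4 * h - 1)) (by omega) (by omega)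
  have P3 := P1.append P2 (fx (i + y)) (by
    intros
    simp only [Set.mem_ofPred_eq, Set.mem_insert_iff, Set.mem_union, Set.mem_singleton_iff,
      Set.mem_empty_iff_false, or_false] at *
    apply ndvd <;> omega) (by
    intros
    simp only [Set.mem_ofPred_eq, Set.mem_insert_iff, Set.mem_union, Set.mem_singleton_iff,
      Set.mem_empty_iff_false, or_false] at *
    apply ndvd <;> omega) (by
    intros
    simp only [Set.mem_ofPred_eq, Set.mem_insert_iff, Set.mem_union, Set.mem_singleton_iff,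
      Set.mem_empty_iff_false, or_false] at *
    apply ndvd <;> omega) (by
    intros
    simp only [Set.mem_ofPred_eq, Set.mem_insert_iff, Set.mem_union, Set.mem_singleton_iff,
      Set.mem_empty_iff_false, or_false] at *
    apply ndvd <;> omega)
  obtain ⟨k, hk, hk'⟩ := P3.close non (by omega) (by omega)
  refine ⟨k - i, ?_, ?_⟩
  · rw [F.K_comm, hk']; congr 1; ring
  · simp only [Set.mem_ofPred_eq, Set.mem_insert_iff, Set.mem_union] at hk
    omega

theorem Ctx.gcol (X : Ctx F h κ n M x) (i : ℤ) (hi : x i < h - κ) :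
    F.K i (i + (4 * h - 1)) = F.E (i + x i) := by
  have hm := X.hm
  have hκ := X.hκ
  have hh := X.hh
  have x0 := X.x0
  have x1 := X.x1
  obtain ⟨G0, e0, d0⟩ := X.gdom i 0 (by omega) (by omega)
  obtain ⟨G1, e1, d1⟩ := X.gdom i (2 * h - 1) (by omega) (by omega)
  have hl := X.low' i hi
  have a0 := x0 (i + (2 * h - 1))
  have a1 := x0 i
  rw [add_zero] at d0
  have hG : G0 = G1 := by
    have := F.E_eq (e0.symm.trans e1) (by omega) (by omega)
    omega
  subst hG
  by_cases hc : G0 = x i
  · rw [e0, hc]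
  · exfalso
    have hG : G0 = 2 * h - 1 + x (i + (2 * h - 1)) := by omega
    obtain ⟨G2, e2, d2⟩ := X.gdom i (2 * h - 1 + x (i + (2 * h - 1)) - (h - κ)) (by omega)
      (by omega)
    have b0 := x0 (i + (2 * h - 1 + x (i + (2 * h - 1)) - (h - κ)))
    have b1 := x1 (i + (2 * h - 1 + x (i + (2 * h - 1)) - (h - κ)))
    have hG2 : G0 = G2 := by
      have := F.E_eq (e0.symm.trans e2) (by omega) (by omega)
      omega
    subst hG2
    have e : x (i + (2 * h - 1 + x (i + (2 * h - 1)) - (h - κ))) = h - κ := by omega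
    have := X.low (i + (2 * h - 1 + x (i + (2 * h - 1)) - (h - κ))) (by omega)
    omega

theorem Ctx.saw (X : Ctx F h κ n M x) (i : ℤ) (hi : x i < h - κ) (y : ℤ) (hy0 : 0 ≤ y)
    (hy1 : y ≤ x i) : x (i + y) = x i - y := by
  have hm := X.hm
  have hκ := X.hκ
  have hh := X.hh
  have x0 := X.x0
  have x1 := X.x1
  have a1 := x0 i
  have b0 := x0 (i + y)
  have b1 := x1 (i + y)
  have e0 := X.gcol i hi
  obtain ⟨G, e1, d1⟩ := X.gdom i y hy0 (by omega)
  have := F.E_eq (e0.symm.trans e1) (by omega) (by omega)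
  omega

/-- high version of `saw`, one step -/
theorem Ctx.sawHigh (X : Ctx F h κ n M x) (j : ℤ) (hj : h + κ ≤ x j) (hj' : x j < 2 * h - 1) :
    x (j - 1) = x j + 1 := by
  have := X.refl.saw (-j - 2 * h) (by
    show 2 * h - 1 - x (-(-j - 2 * h) - 2 * h) < h - κ
    rw [show -(-j - 2 * h) - 2 * h = j by ring]; omega) 1 (by norm_num) (by
    show 1 ≤ 2 * h - 1 - x (-(-j - 2 * h) - 2 * h)
    rw [show -(-j - 2 * h) - 2 * h = j by ring]; omega)
  rw [show -(-j - 2 * h) - 2 * h = j by ring,
    show -(-j - 2 * h + 1) - 2 * h = j - 1 by ring] at this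
  omega

/-- edges `(i-1, i+2)` -/
theorem Ctx.b3 (X : Ctx F h κ n M x) (i : ℤ) (hi : x i < h - κ) (hi' : x i ≤ 1) :
    F.K (i - 1) (i + 2) = F.E (i + 2 + x (i + 2)) ∧ x (i + 2) ≤ 2 * h - 3 := by
  have hg := X.gcol i hi
  obtain ⟨hb, hκ, hh, hm, hn, hM, non, noM, x0, x1, fx⟩ := X
  have a0 := x0 i
  have b0 := x0 (i + 2)
  have b1 := x1 (i + 2)
  -- first domain
  have P1 := RP.up hb (i + 2) (i + 2 * h) (by omega) (by omega)
  have P2 := RP.down hb (i - 1) i (by omega) (by omega)
  have P3 := P1.append P2 ((F.K_comm _ _).trans (fx i)) (by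
    intros
    simp only [Set.mem_ofPred_eq, Set.mem_insert_iff, Set.mem_union, Set.mem_singleton_iff,
      Set.mem_empty_iff_false, or_false] at *
    apply ndvd <;> omega) (by
    intros
    simp only [Set.mem_ofPred_eq, Set.mem_insert_iff, Set.mem_union, Set.mem_singleton_iff,
      Set.mem_empty_iff_false, or_false] at *
    apply ndvd <;> omega) (by
    intros
    simp only [Set.mem_ofPred_eq, Set.mem_insert_iff, Set.mem_union, Set.mem_singleton_iff,
      Set.mem_empty_iff_false, or_false] at *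
    apply ndvd <;> omega) (by
    intros
    simp only [Set.mem_ofPred_eq, Set.mem_insert_iff, Set.mem_union, Set.mem_singleton_iff,
      Set.mem_empty_iff_false, or_false] at *
    apply ndvd <;> omega)
  obtain ⟨k1, hk1, hk1'⟩ := P3.close non (by omega) (by omega)
  -- second domain
  have Q1 := RP.up hb (i + 2) (i - 1 + m) (by omega) (by omega)
  obtain ⟨k2, hk2, hk2'⟩ := Q1.close noM (by omega) (by omega)
  rw [F.K_add_left] at hk2'
  -- third domain
  have R1 := RP.up hb (i - 1) i (by omega) (by omega)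
  have R2 := RP.down hb (i + 2 + 2 * h) (i + (4 * h - 1)) (by omega) (by omega)
  have R3 := R1.append R2 hg (by
    intros
    simp only [Set.mem_ofPred_eq, Set.mem_insert_iff, Set.mem_union, Set.mem_singleton_iff,
      Set.mem_empty_iff_false, or_false] at *
    apply ndvd <;> omega) (by
    intros
    simp only [Set.mem_ofPred_eq, Set.mem_insert_iff, Set.mem_union, Set.mem_singleton_iff,
      Set.mem_empty_iff_false, or_false] at *
    apply ndvd <;> omega) (by
    intros
    simp only [Set.mem_ofPred_eq, Set.mem_insert_iff, Set.mem_union, Set.mem_singleton_iff,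
      Set.mem_empty_iff_false, or_false] at *
    apply ndvd <;> omega) (by
    intros
    simp only [Set.mem_ofPred_eq, Set.mem_insert_iff, Set.mem_union, Set.mem_singleton_iff,
      Set.mem_empty_iff_false, or_false] at *
    apply ndvd <;> omega)
  have R4 := R3.snoc ((F.K_comm _ _).trans (fx (i + 2))) (by
    intros
    simp only [Set.mem_ofPred_eq, Set.mem_insert_iff, Set.mem_union, Set.mem_singleton_iff,
      Set.mem_empty_iff_false, or_false] at *
    apply ndvd <;> omega) (by
    intros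
    simp only [Set.mem_ofPred_eq, Set.mem_insert_iff, Set.mem_union, Set.mem_singleton_iff,
      Set.mem_empty_iff_false, or_false] at *
    apply ndvd <;> omega)
  obtain ⟨k3, hk3, hk3'⟩ := R4.close non (by omega) (by omega)
  simp only [Set.mem_ofPred_eq, Set.mem_insert_iff, Set.mem_union] at hk1 hk2 hk3
  have h12 : k1 = k2 ∨ k1 - k2 = m ∨ k1 - k2 = -m := by
    have := (F.hE _ _).1 (hk1'.symm.trans hk2')
    have := dvd_cases (by omega) this (by omega) (by omega)
    omega
  have h13 : k1 = k3 ∨ k1 - k3 = m ∨ k1 - k3 = -m := by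
    have := (F.hE _ _).1 ((hk1'.symm.trans (F.K_comm _ _)).trans hk3')
    have := dvd_cases (by omega) this (by omega) (by omega)
    omega
  have h3 : k1 = i + 2 + x (i + 2) := by omega
  refine ⟨?_, by omega⟩
  rw [hk1', h3]

/-- a low index followed by a high one is followed by a low one -/
theorem Ctx.M1 (X : Ctx F h κ n M x) (i : ℤ) (hi : x i < h - κ) (hi1 : h + κ ≤ x (i + 1)) :
    x (i + 2) < h - κ := by
  have hκ := X.hκ
  have hh := X.hh
  have x0 := X.x0
  have x1 := X.x1
  have e0 : x i = 0 := by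
    by_contra hne
    have := x0 i
    have := X.saw i hi 1 (by norm_num) (by omega)
    omega
  obtain ⟨-, e2⟩ := X.b3 i hi (by omega)
  have e1 : x (i + 1) = 2 * h - 1 := by
    by_contra hne
    have := x1 (i + 1)
    have := X.sawHigh (i + 1) hi1 (by omega)
    rw [show i + 1 - 1 = i by ring] at this
    omega
  by_contra hcon
  have e3 : h + κ ≤ x (i + 2) := by
    by_contra hcon2
    exact hcon (X.low _ (by omega))
  have := X.sawHigh (i + 2) e3 (by omega)
  rw [show i + 2 - 1 = i + 1 by ring] at this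
  omega

/-- a low index followed by a high one is preceded by a high one -/
theorem Ctx.M2 (X : Ctx F h κ n M x) (i : ℤ) (hi : x i < h - κ) (hi1 : h + κ ≤ x (i + 1)) :
    h + κ ≤ x (i - 1) := by
  have := X.refl.M1 (-i - 1 - 2 * h)
    (by
      show 2 * h - 1 - x (-(-i - 1 - 2 * h) - 2 * h) < h - κ
      rw [show -(-i - 1 - 2 * h) - 2 * h = i + 1 by ring]; omega)
    (by
      show h + κ ≤ 2 * h - 1 - x (-(-i - 1 - 2 * h + 1) - 2 * h)
      rw [show -(-i - 1 - 2 * h + 1) - 2 * h = i by ring]; omega)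
  rw [show -(-i - 1 - 2 * h + 2) - 2 * h = i - 1 by ring] at this
  omega

/-- all indices are low, or all are high -/
theorem Ctx.allLow (X : Ctx F h κ n M x) :
    (∀ i, x i < h - κ) ∨ ∀ i, h + κ ≤ x i := by
  have hκ := X.hκ
  have hh := X.hh
  have hm := X.hm
  by_contra hcon
  push Not at hcon
  obtain ⟨⟨a, ha⟩, ⟨b, hb⟩⟩ := hcon
  have dich : ∀ i, x i < h - κ ∨ h + κ ≤ x i := by
    intro i
    by_contra hc
    push Not at hc
    have := X.low i (by omega)
    omega
  -- no two consecutive highs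
  have HH : ∀ k, h + κ ≤ x k → h + κ ≤ x (k + 1) → False := by
    intro k h1 h2
    have key : ∀ r : ℕ, h + κ ≤ x (k - r) ∧ h + κ ≤ x (k - r + 1) := by
      intro r
      induction r with
      | zero => simpa using ⟨h1, h2⟩
      | succ r ih =>
        push_cast
        have e1 : k - ((r : ℤ) + 1) + 1 = k - r := by ring
        refine ⟨?_, by rw [e1]; exact ih.1⟩
        by_contra hc
        have h3 := (dich (k - ((r : ℤ) + 1))).resolve_right hc
        have h4 := X.M1 _ h3 (by rw [e1]; exact ih.1)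
        rw [show k - ((r : ℤ) + 1) + 2 = k - r + 1 by ring] at h4
        have := ih.2
        omega
    -- choose `q` with `b + q * m ≤ k`... go down to a low index
    have hbm := (key (k - b + (b.natAbs + k.natAbs + 1) * m).toNat).1
    have e2 : (0 : ℤ) ≤ k - b + (b.natAbs + k.natAbs + 1) * m := by
      have : (b.natAbs + k.natAbs + 1 : ℤ) * 1 ≤ (b.natAbs + k.natAbs + 1) * m :=
        mul_le_mul_of_nonneg_left (by omega) (by omega)
      omega
    rw [Int.toNat_of_nonneg e2] at hbm
    have e3 := X.perNat (k - (k - b + (b.natAbs + k.natAbs + 1) * m)) (b.natAbs + k.natAbs + 1)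
    rw [show k - (k - b + ((b.natAbs : ℤ) + k.natAbs + 1) * m) +
      ((b.natAbs + k.natAbs + 1 : ℕ) : ℤ) * m = b by push_cast; ring] at e3
    omega
  have LL : ∀ k, x k < h - κ → x (k + 1) < h - κ → False := by
    intro k h1 h2
    have key : ∀ r : ℕ, x (k + r) < h - κ ∧ x (k + r + 1) < h - κ := by
      intro r
      induction r with
      | zero => simpa using ⟨h1, h2⟩
      | succ r ih =>
        push_cast
        have e1 : k + ((r : ℤ) + 1) = k + r + 1 := by ring
        rw [e1]
        refine ⟨ih.2, ?_⟩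
        by_contra hc
        have h3 := (dich (k + (r : ℤ) + 1 + 1)).resolve_left hc
        have h4 := X.M2 _ ih.2 h3
        rw [show k + (r : ℤ) + 1 - 1 = k + r by ring] at h4
        have := ih.1
        omega
    have hbm := (key (a - k + (a.natAbs + k.natAbs + 1) * m).toNat).1
    have e2 : (0 : ℤ) ≤ a - k + (a.natAbs + k.natAbs + 1) * m := by
      have : (a.natAbs + k.natAbs + 1 : ℤ) * 1 ≤ (a.natAbs + k.natAbs + 1) * m :=
        mul_le_mul_of_nonneg_left (by omega) (by omega)
      omega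
    rw [Int.toNat_of_nonneg e2] at hbm
    have e3 := X.perNat a (a.natAbs + k.natAbs + 1)
    rw [show a + ((a.natAbs + k.natAbs + 1 : ℕ) : ℤ) * m =
      k + (a - k + ((a.natAbs : ℤ) + k.natAbs + 1) * m) by push_cast; ring] at e3
    omega
  have alt : ∀ i, x (i + 1) < h - κ ↔ ¬ x i < h - κ := by
    intro i
    constructor
    · intro h1 h2; exact LL i h2 h1
    · intro h1
      by_contra h2
      exact HH i ((dich i).resolve_left h1) ((dich (i + 1)).resolve_left h2)
  have alt2 : ∀ (r : ℕ) (i : ℤ), x (i + 2 * r) < h - κ ↔ x i < h - κ := by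
    intro r
    induction r with
    | zero => intro i; simp
    | succ r ih =>
      intro i
      rw [← ih i]
      push_cast
      rw [show i + 2 * ((r : ℤ) + 1) = i + 2 * r + 1 + 1 by ring, alt, alt, not_not]
  have h1 := alt2 (2 * h + κ - 1).toNat 0
  have h2 := alt (0 + 2 * ((2 * h + κ - 1).toNat : ℤ))
  rw [h1, show (0 : ℤ) + 2 * ((2 * h + κ - 1).toNat : ℤ) + 1 = 0 + m by omega, X.per] at h2
  tauto

end

end Pool.Agent.H81.Rainbow
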