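import Pool.Agent.H81.Rainbow.Odd

/-! No rainbow `(4h+2κ-1)`-cycles for `1 ≤ κ ≤ h-1`, conclusion -/

namespace Pool.Agent.H81.Rainbow

section
variable {V C : Type*} {c : Sym2 V → C} {m : ℤ}
variable {F : Frame c m} {h κ : ℤ} {n M : ℕ} {x : ℤ → ℤ}

theorem Ctx.prev (X : Ctx F h κ n M x) (hL : ∀ i, x i < h - κ) (t : ℤ) (ht : 1 ≤ x (t - 1)) :
    x t = x (t - 1) - 1 := by
  have := X.saw (t - 1) (hL _) 1 (by norm_num) ht
  rwa [show t - 1 + 1 = t by ring] at this

theorem Ctx.mono1 (X : Ctx F h κ n M x) (hL : ∀ i, x i < h - κ) (t : ℤ) :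
    t - 1 + x (t - 1) ≤ t + x t := by
  have h0 := X.x0 (t - 1)
  have h1 := X.x0 t
  by_cases hc : 1 ≤ x (t - 1)
  · have := X.prev hL t hc
    omega
  · omega

/-- the descending path -/
theorem Ctx.desc (X : Ctx F h κ n M x) (hL : ∀ i, x i < h - κ) (z N : ℤ) (hN : 1 ≤ N)
    (hz : ∀ k, 0 ≤ k → k ≤ N → x (z - k) = k) (W : ℕ) (hW : (W : ℤ) ≤ h - κ) :
    ∃ o e : ℕ, (o + 2 * e = W ∨ o + 2 * e + 1 = W) ∧ (e = 0 ∨ N - 1 ≤ o) ∧
      (z - 1 - o - 3 * e + x (z - 1 - o - 3 * e) ≤ z) ∧
      RP F (z - 1) (z - 1 - o - 3 * e) (o + e) {v | z - 1 - o - 3 * e ≤ v ∧ v ≤ z - 1}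
        {k | z - 1 - o - 3 * e ≤ k ∧ k ≤ z ∧ k ≠ z - 1 - o - 3 * e + x (z - 1 - o - 3 * e)} ∧
      RP F z (z - 1 - o - 3 * e) (o + e + 1) {v | z - 1 - o - 3 * e ≤ v ∧ v ≤ z}
        {k | z - 1 - o - 3 * e ≤ k ∧ k ≤ z ∧ k ≠ z - 1 - o - 3 * e + x (z - 1 - o - 3 * e)} := by
  have hκ := X.hκ
  have hh := X.hh
  have hm := X.hm
  have hb := X.base
  have x0 := X.x0
  induction W with
  | zero =>
    have e1 : x (z - 1) = 1 := hz 1 (by omega) hN
    refine ⟨0, 0, by omega, by omega, ?_, ?_, ?_⟩
    · simp [e1]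
    · simp only [Nat.cast_zero, sub_zero, mul_zero, add_zero]
      refine (RP.nil F (z - 1)).mono ?_ ?_
      · intro v hv
        simp only [Set.mem_singleton_iff, Set.mem_ofPred_eq] at *
        omega
      · intro v hv; exact absurd hv (by simp)
    · simp only [Nat.cast_zero, sub_zero, mul_zero, add_zero, zero_add]
      have := RP.down hb (z - 1) z (by omega) (by omega)
      rw [show (z - (z - 1)).toNat = 1 by omega] at this
      refine this.mono ?_ ?_
      · intro v hv
        simp only [Set.mem_ofPred_eq] at *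
        omega
      · intro v hv
        simp only [Set.mem_ofPred_eq, e1] at *
        omega
  | succ W ih =>
    obtain ⟨o, e, h1, h2, h3, h4, h5⟩ := ih (by push_cast at hW; omega)
    rcases h1 with h1 | h1
    · exact ⟨o, e, Or.inr (by omega), h2, h3, h4, h5⟩
    push_cast at hW
    by_cases hc : 1 ≤ x (z - 1 - o - 3 * e - 1)
    · -- step by one
      have hp := X.prev hL _ hc
      have hw : z - 1 - ((o + 1 : ℕ) : ℤ) - 3 * e = z - 1 - o - 3 * e - 1 := by push_cast; ring
      have hk : F.K (z - 1 - o - 3 * e) (z - 1 - o - 3 * e - 1) = F.E (z - 1 - o - 3 * e - 1) := by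
        rw [F.K_comm]
        have := hb (z - 1 - o - 3 * e - 1)
        rwa [show z - 1 - o - 3 * e - 1 + 1 = z - 1 - (o : ℤ) - 3 * e by ring] at this
      refine ⟨o + 1, e, Or.inr (by omega), ?_, ?_, ?_, ?_⟩
      · rcases h2 with h2 | h2
        · exact Or.inl h2
        · right; push_cast; omega
      · rw [hw]; omega
      · rw [hw, show o + 1 + e = o + e + 1 by ring]
        refine (h4.snoc hk (by
    intros
    simp only [Set.mem_ofPred_eq, Set.mem_insert_iff, Set.mem_union, Set.mem_singleton_iff,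
      Set.mem_empty_iff_false, or_false] at *
    apply ndvd <;> omega) (by
    intros
    simp only [Set.mem_ofPred_eq, Set.mem_insert_iff, Set.mem_union, Set.mem_singleton_iff,
      Set.mem_empty_iff_false, or_false] at *
    apply ndvd <;> omega)).mono ?_ ?_
        · intro v hv
          simp only [Set.mem_ofPred_eq, Set.mem_insert_iff] at *
          omega
        · intro v hv
          simp only [Set.mem_ofPred_eq, Set.mem_insert_iff] at *
          omega
      · rw [hw, show o + 1 + e + 1 = o + e + 1 + 1 by ring]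
        refine (h5.snoc hk (by
    intros
    simp only [Set.mem_ofPred_eq, Set.mem_insert_iff, Set.mem_union, Set.mem_singleton_iff,
      Set.mem_empty_iff_false, or_false] at *
    apply ndvd <;> omega) (by
    intros
    simp only [Set.mem_ofPred_eq, Set.mem_insert_iff, Set.mem_union, Set.mem_singleton_iff,
      Set.mem_empty_iff_false, or_false] at *
    apply ndvd <;> omega)).mono ?_ ?_
        · intro v hv
          simp only [Set.mem_ofPred_eq, Set.mem_insert_iff] at *
          omega
        · intro v hv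
          simp only [Set.mem_ofPred_eq, Set.mem_insert_iff] at *
          omega
    · -- step by three
      have hx1 : x (z - 1 - o - 3 * e - 1) = 0 := by
        have := x0 (z - 1 - o - 3 * e - 1); omega
      have hx2 : x (z - 1 - o - 3 * e - 2) ≤ 1 := by
        by_contra hcon
        have := X.prev hL (z - 1 - o - 3 * e - 1) (by
          rw [show z - 1 - (o : ℤ) - 3 * e - 1 - 1 = z - 1 - o - 3 * e - 2 by ring]; omega)
        rw [show z - 1 - (o : ℤ) - 3 * e - 1 - 1 = z - 1 - o - 3 * e - 2 by ring] at this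
        omega
      have hw : z - 1 - (o : ℤ) - 3 * ((e + 1 : ℕ) : ℤ) = z - 1 - o - 3 * e - 3 := by
        push_cast; ring
      have hk : F.K (z - 1 - o - 3 * e) (z - 1 - o - 3 * e - 3) =
          F.E (z - 1 - o - 3 * e + x (z - 1 - o - 3 * e)) := by
        rw [F.K_comm]
        have := (X.b3 (z - 1 - o - 3 * e - 2) (hL _) hx2).1
        rwa [show z - 1 - (o : ℤ) - 3 * e - 2 - 1 = z - 1 - o - 3 * e - 3 by ring,
          show z - 1 - (o : ℤ) - 3 * e - 2 + 2 = z - 1 - o - 3 * e by ring] at this
      have m1 := X.mono1 hL (z - 1 - o - 3 * e - 1)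
      have m2 := X.mono1 hL (z - 1 - o - 3 * e - 2)
      rw [show z - 1 - (o : ℤ) - 3 * e - 1 - 1 = z - 1 - o - 3 * e - 2 by ring] at m1
      rw [show z - 1 - (o : ℤ) - 3 * e - 2 - 1 = z - 1 - o - 3 * e - 3 by ring] at m2
      have y0 := x0 (z - 1 - o - 3 * e)
      have y1 := hL (z - 1 - o - 3 * e)
      refine ⟨o, e + 1, Or.inl (by omega), Or.inr ?_, ?_, ?_, ?_⟩
      · rcases h2 with h2 | h2
        · by_contra hcon
          have := hz (o + 2) (by omega) (by omega)
          rw [h2] at hx1
          rw [show z - 1 - (o : ℤ) - 3 * ((0 : ℕ) : ℤ) - 1 = z - (o + 2) by push_cast; ring] at hx1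
          omega
        · exact h2
      · rw [hw]; omega
      · rw [hw, show o + (e + 1) = o + e + 1 by ring]
        refine (h4.snoc hk (by
    intros
    simp only [Set.mem_ofPred_eq, Set.mem_insert_iff, Set.mem_union, Set.mem_singleton_iff,
      Set.mem_empty_iff_false, or_false] at *
    apply ndvd <;> omega) (by
    intros
    simp only [Set.mem_ofPred_eq, Set.mem_insert_iff, Set.mem_union, Set.mem_singleton_iff,
      Set.mem_empty_iff_false, or_false] at *
    apply ndvd <;> omega)).mono ?_ ?_
        · intro v hv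
          simp only [Set.mem_ofPred_eq, Set.mem_insert_iff] at *
          omega
        · intro v hv
          simp only [Set.mem_ofPred_eq, Set.mem_insert_iff] at *
          omega
      · rw [hw, show o + (e + 1) + 1 = o + e + 1 + 1 by ring]
        refine (h5.snoc hk (by
    intros
    simp only [Set.mem_ofPred_eq, Set.mem_insert_iff, Set.mem_union, Set.mem_singleton_iff,
      Set.mem_empty_iff_false, or_false] at *
    apply ndvd <;> omega) (by
    intros
    simp only [Set.mem_ofPred_eq, Set.mem_insert_iff, Set.mem_union, Set.mem_singleton_iff,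
      Set.mem_empty_iff_false, or_false] at *
    apply ndvd <;> omega)).mono ?_ ?_
        · intro v hv
          simp only [Set.mem_ofPred_eq, Set.mem_insert_iff] at *
          omega
        · intro v hv
          simp only [Set.mem_ofPred_eq, Set.mem_insert_iff] at *
          omega

/-- final cycle in the case `x ≢ 0` -/
theorem Ctx.final (X : Ctx F h κ n M x) (N y w z : ℤ) (l : ℕ)
    (hmax : ∀ i, x i ≤ N) (hN : 1 ≤ N) (hwy : w ≤ y) (hyz : y = z ∨ y = z - 1)
    (hd : y - w + N ≤ 2 * h - 1) (hl : (l : ℤ) + (y - w) = 2 * (h - κ))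
    (hw : w + x w ≤ z)
    (P : RP F y w l {v | w ≤ v ∧ v ≤ y} {k | w ≤ k ∧ k ≤ z ∧ k ≠ w + x w}) : False := by
  obtain ⟨hb, hκ, hh, hm, hn, hM, non, noM, x0, x1, fx⟩ := X
  have a0 := x0 w
  have b0 := x0 (y - 2 * h)
  have b1 := hmax (y - 2 * h)
  have P1 := RP.up hb (w + 2 * h) (y - 2 * h + m) (by omega) (by omega)
  have P2 := P.append P1 (fx w) (by
    intros
    simp only [Set.mem_ofPred_eq, Set.mem_insert_iff, Set.mem_union, Set.mem_singleton_iff,
      Set.mem_empty_iff_false, or_false] at *
    apply ndvd <;> omega) (by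
    intros
    simp only [Set.mem_ofPred_eq, Set.mem_insert_iff, Set.mem_union, Set.mem_singleton_iff,
      Set.mem_empty_iff_false, or_false] at *
    apply ndvd <;> omega) (by
    intros
    simp only [Set.mem_ofPred_eq, Set.mem_insert_iff, Set.mem_union, Set.mem_singleton_iff,
      Set.mem_empty_iff_false, or_false] at *
    apply ndvd <;> omega) (by
    intros
    simp only [Set.mem_ofPred_eq, Set.mem_insert_iff, Set.mem_union, Set.mem_singleton_iff,
      Set.mem_empty_iff_false, or_false] at *
    apply ndvd <;> omega)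
  refine P2.false (k0 := y - 2 * h + x (y - 2 * h)) non (by omega) (by omega) ?_ (by
    intros
    simp only [Set.mem_ofPred_eq, Set.mem_insert_iff, Set.mem_union, Set.mem_singleton_iff,
      Set.mem_empty_iff_false, or_false] at *
    apply ndvd <;> omega)
  rw [F.K_add_left]
  have := fx (y - 2 * h)
  rwa [show y - 2 * h + 2 * h = y by ring] at this

/-- the case `x = 0` -/
theorem Ctx.zero (X : Ctx F h κ n M x) (hx : ∀ i, x i = 0) : False := by
  have hκ := X.hκ
  have hh := X.hh
  have hm := X.hm
  have hn := X.hn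
  have hb := X.base
  have key : ∀ j : ℕ, (j : ℤ) ≤ h → RP F 0 (-2 * j) (2 * j)
      {v | -2 * j ≤ v ∧ v ≤ 1 ∧ v ≠ -2 * j + 1} {k | -2 * j + 2 ≤ k ∧ k ≤ 1} := by
    intro j
    induction j with
    | zero =>
      intro _
      simp only [Nat.cast_zero, mul_zero]
      refine (RP.nil F 0).mono ?_ ?_
      · intro v hv
        simp only [Set.mem_singleton_iff, Set.mem_ofPred_eq] at *
        omega
      · intro v hv; exact absurd hv (by simp)
    | succ j ih =>
      intro hj
      push_cast at hj
      have P := ih (by omega)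
      have k1 := hb (-2 * j)
      have k2 : F.K (-2 * j + 1) (-2 * j - 2) = F.E (-2 * j + 1) := by
        rw [F.K_comm]
        have := (X.b3 (-2 * j - 1) (by rw [hx]; omega) (by rw [hx]; omega)).1
        rw [hx] at this
        rw [show -2 * (j : ℤ) - 1 - 1 = -2 * j - 2 by ring,
          show -2 * (j : ℤ) - 1 + 2 = -2 * j + 1 by ring, add_zero] at this
        exact this
      have P1 := P.snoc k1 (by
    intros
    simp only [Set.mem_ofPred_eq, Set.mem_insert_iff, Set.mem_union, Set.mem_singleton_iff,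
      Set.mem_empty_iff_false, or_false] at *
    apply ndvd <;> omega) (by
    intros
    simp only [Set.mem_ofPred_eq, Set.mem_insert_iff, Set.mem_union, Set.mem_singleton_iff,
      Set.mem_empty_iff_false, or_false] at *
    apply ndvd <;> omega)
      have P2 := P1.snoc k2 (by
    intros
    simp only [Set.mem_ofPred_eq, Set.mem_insert_iff, Set.mem_union, Set.mem_singleton_iff,
      Set.mem_empty_iff_false, or_false] at *
    apply ndvd <;> omega) (by
    intros
    simp only [Set.mem_ofPred_eq, Set.mem_insert_iff, Set.mem_union, Set.mem_singleton_iff,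
      Set.mem_empty_iff_false, or_false] at *
    apply ndvd <;> omega)
      push_cast
      rw [show -2 * ((j : ℤ) + 1) = -2 * j - 2 by ring, show 2 * (j + 1) = 2 * j + 1 + 1 by ring]
      refine P2.mono ?_ ?_
      · intro v hv
        simp only [Set.mem_ofPred_eq, Set.mem_insert_iff] at *
        omega
      · intro v hv
        simp only [Set.mem_ofPred_eq, Set.mem_insert_iff] at *
        omega
  have P := key h.toNat (by omega)
  rw [show ((h.toNat : ℕ) : ℤ) = h by omega] at P
  refine P.false (k0 := -2 * h) X.non (by omega) (by omega) ?_ (by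
    intros
    simp only [Set.mem_ofPred_eq, Set.mem_insert_iff, Set.mem_union, Set.mem_singleton_iff,
      Set.mem_empty_iff_false, or_false] at *
    apply ndvd <;> omega)
  have := X.fx (-2 * h)
  rwa [hx, show -2 * h + 2 * h = 0 by ring, add_zero] at this

theorem Ctx.falseLow (X : Ctx F h κ n M x) (hL : ∀ i, x i < h - κ) : False := by
  have hκ := X.hκ
  have hh := X.hh
  have hm := X.hm
  by_cases hz : ∀ i, x i = 0
  · exact X.zero hz
  push Not at hz
  -- a maximal value of `x`
  obtain ⟨i, hi⟩ : ∃ i, ∀ j, x j ≤ x i := by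
    by_contra hcon
    push Not at hcon
    have : ∀ r : ℕ, ∃ j, (r : ℤ) ≤ x j := by
      intro r
      induction r with
      | zero => exact ⟨0, by simpa using X.x0 0⟩
      | succ r ih =>
        obtain ⟨j, hj⟩ := ih
        obtain ⟨j', hj'⟩ := hcon j
        exact ⟨j', by push_cast; omega⟩
    obtain ⟨j, hj⟩ := this (h - κ).toNat
    have := hL j
    omega
  obtain ⟨i', hi'⟩ := hz
  have hN : 1 ≤ x i := by
    have := hi i'
    have := X.x0 i'
    omega
  have hzz : ∀ k, 0 ≤ k → k ≤ x i → x (i + x i - k) = k := by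
    intro k hk0 hk1
    have := X.saw i (hL i) (x i - k) (by omega) (by omega)
    rw [show i + (x i - k) = i + x i - k by ring] at this
    omega
  have hLi := hL i
  obtain ⟨o, e, h1, h2, h3, h4, h5⟩ := X.desc hL (i + x i) (x i) hN hzz (h - κ).toNat (by omega)
  rcases h1 with h1 | h1
  · exact X.final (x i) (i + x i - 1) (i + x i - 1 - o - 3 * e) (i + x i) (o + e) hi hN
      (by omega) (Or.inr rfl) (by omega) (by push_cast; omega) h3 h4
  · exact X.final (x i) (i + x i) (i + x i - 1 - o - 3 * e) (i + x i) (o + e + 1) hi hN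
      (by omega) (Or.inl rfl) (by omega) (by push_cast; omega) h3 h5

theorem Ctx.contr (X : Ctx F h κ n M x) : False := by
  rcases X.allLow with hL | hH
  · exact X.falseLow hL
  · refine X.refl.falseLow ?_
    intro i
    have := hH (-i - 2 * h)
    show 2 * h - 1 - x (-i - 2 * h) < h - κ
    omega

end

/-- If an edge-coloured complete graph has no rainbow `(2h+1)`-cycle and no rainbow
`(4h+2κ-3)`-cycle, where `1 ≤ κ < h`, it has no rainbow `(4h+2κ-1)`-cycle. -/
theorem odd_step {V C : Type*} (c : Sym2 V → C) (h κ : ℕ) (hκ : 1 ≤ κ) (hh : κ < h)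
    (non : ¬ HasRainbowCycle c (2 * h + 1)) (noM : ¬ HasRainbowCycle c (4 * h + 2 * κ - 3)) :
    ¬ HasRainbowCycle c (4 * h + 2 * κ - 1) := by
  intro hc
  obtain ⟨F, hb⟩ := exists_frame hc
  have hmm : ((4 * h + 2 * κ - 1 : ℕ) : ℤ) = 4 * h + 2 * κ - 1 := by omega
  have hx : ∀ i : ℤ, ∃ y : ℤ, 0 ≤ y ∧ y ≤ 2 * h - 1 ∧ F.K i (i + 2 * h) = F.E (i + y) := by
    intro i
    obtain ⟨k, hk, hk'⟩ := (RP.up hb i (i + 2 * h) (by omega) (by omega)).close non (by omega)
      (by omega)
    simp only [Set.mem_ofPred_eq] at hk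
    refine ⟨k - i, by omega, by omega, ?_⟩
    rw [F.K_comm, hk']
    congr 1; ring
  choose x hx0 hx1 hx2 using hx
  exact Ctx.contr (F := F) (h := h) (κ := κ) (n := 2 * h + 1) (M := 4 * h + 2 * κ - 3) (x := x)
    ⟨hb, by omega, by omega, hmm, by push_cast; ring, by omega, non, noM, hx0, hx1, hx2⟩

end Pool.Agent.H81.Rainbow
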