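import Pool.Agent.H81.Rainbow.Odd

/-! No rainbow `(4h-1)`-cycles -/

namespace Pool.Agent.H81.Rainbow

section
variable {V C : Type*} {c : Sym2 V → C} {m : ℤ}

theorem RP.two {F : Frame c m} (hb : ∀ s, F.K s (s + 2) = F.E s) (p : ℤ) (l : ℕ)
    (hl : 2 * (l : ℤ) < m) :
    RP F p (p + 2 * l) l {x | p ≤ x ∧ x ≤ p + 2 * l ∧ 2 ∣ x - p}
      {x | p ≤ x ∧ x < p + 2 * l ∧ 2 ∣ x - p} := by
  refine ⟨fun i => p + 2 * i, fun i => p + 2 * i, by simp, rfl, ?_, ?_, ?_, ?_, ?_⟩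
  · intro i hi; simp only [Set.mem_ofPred_eq]; omega
  · intro i hi; simp only [Set.mem_ofPred_eq]; omega
  · intro i hi j hj hij
    by_contra hne
    have e : (p + 2 * (i : ℤ)) - (p + 2 * (j : ℤ)) = 2 * ((i : ℤ) - j) := by ring
    simp only [e] at hij
    exact not_dvd_of_abs (by omega) (by omega) (by omega) hij
  · intro i hi j hj hij
    by_contra hne
    have e : (p + 2 * (i : ℤ)) - (p + 2 * (j : ℤ)) = 2 * ((i : ℤ) - j) := by ring
    simp only [e] at hij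
    exact not_dvd_of_abs (by omega) (by omega) (by omega) hij
  · intro i hi
    have := hb (p + 2 * i)
    rw [← this]
    push_cast
    congr 1; ring

structure Ctx1 (F : Frame c m) (h : ℤ) (n : ℕ) (y : ℤ → ℤ) : Prop where
  hh : 3 ≤ h
  hm : m = 4 * h - 1
  hn : (n : ℤ) = 2 * h + 1
  non : ¬ HasRainbowCycle c n
  e2 : ∀ s, F.K s (s + 2) = F.E s
  f1 : ∀ s, F.K s (s + 1) = F.E (s + 2 * y s)
  y0 : ∀ s, 0 ≤ y s
  y1 : ∀ s, y s ≤ h - 1

variable {F : Frame c m} {h : ℤ} {n : ℕ} {y : ℤ → ℤ}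

theorem Ctx1.cyc (X : Ctx1 F h n y) (s : ℤ) (v : ℕ) (hv : (v : ℤ) ≤ h - 1)
    (c1 : y s = 0 ∨ (v : ℤ) < y s) (c2 : y (s + 1) ≤ v)
    (c3 : y s ≠ v + 1 + y (s + 2 + 2 * v)) (c4 : y (s + 1) + 2 * h - 1 ≠ v + y (s + 2 + 2 * v)) :
    False := by
  obtain ⟨hh, hm, hn, non, e2, f1, y0, y1⟩ := X
  have a0 := y0 s
  have a1 := y1 s
  have b0 := y0 (s + 1)
  have b1 := y1 (s + 1)
  have d0 := y0 (s + 2 + 2 * v)
  have d1 := y1 (s + 2 + 2 * v)
  have P0 := (RP.nil F s).snoc (f1 s) (by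
    intros
    simp only [Set.mem_ofPred_eq, Set.mem_insert_iff, Set.mem_union, Set.mem_singleton_iff,
      Set.mem_empty_iff_false, or_false] at *
    apply ndvd <;> omega) (by simp)
  have f2 := f1 (s + 1)
  rw [show s + 1 + 1 = s + 2 by ring] at f2
  have P1 := P0.append (RP.two e2 (s + 2) v (by omega)) f2 (by
    intros
    simp only [Set.mem_ofPred_eq, Set.mem_insert_iff, Set.mem_union, Set.mem_singleton_iff,
      Set.mem_empty_iff_false, or_false] at *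
    apply ndvd <;> omega) (by
    intros
    simp only [Set.mem_ofPred_eq, Set.mem_insert_iff, Set.mem_union, Set.mem_singleton_iff,
      Set.mem_empty_iff_false, or_false] at *
    apply ndvd <;> omega)
    (by
    intros
    simp only [Set.mem_ofPred_eq, Set.mem_insert_iff, Set.mem_union, Set.mem_singleton_iff,
      Set.mem_empty_iff_false, or_false] at *
    apply ndvd <;> omega) (by
    intros
    simp only [Set.mem_ofPred_eq, Set.mem_insert_iff, Set.mem_union, Set.mem_singleton_iff,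
      Set.mem_empty_iff_false, or_false] at *
    apply ndvd <;> omega)
  have P2 := P1.append (RP.two e2 (s + 2 + 2 * v + 1) (2 * h - 3 - v).toNat (by omega))
    (f1 (s + 2 + 2 * v)) (by
    intros
    simp only [Set.mem_ofPred_eq, Set.mem_insert_iff, Set.mem_union, Set.mem_singleton_iff,
      Set.mem_empty_iff_false, or_false] at *
    apply ndvd <;> omega) (by
    intros
    simp only [Set.mem_ofPred_eq, Set.mem_insert_iff, Set.mem_union, Set.mem_singleton_iff,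
      Set.mem_empty_iff_false, or_false] at *
    apply ndvd <;> omega) (by
    intros
    simp only [Set.mem_ofPred_eq, Set.mem_insert_iff, Set.mem_union, Set.mem_singleton_iff,
      Set.mem_empty_iff_false, or_false] at *
    apply ndvd <;> omega) (by
    intros
    simp only [Set.mem_ofPred_eq, Set.mem_insert_iff, Set.mem_union, Set.mem_singleton_iff,
      Set.mem_empty_iff_false, or_false] at *
    apply ndvd <;> omega)
  refine P2.false (k0 := s - 2) non (by omega) (by omega) ?_ (by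
    intros
    simp only [Set.mem_ofPred_eq, Set.mem_insert_iff, Set.mem_union, Set.mem_singleton_iff,
      Set.mem_empty_iff_false, or_false] at *
    apply ndvd <;> omega)
  have := e2 (s - 2)
  rw [show s - 2 + 2 = s by ring] at this
  rw [← this, show s + 2 + 2 * (v : ℤ) + 1 + 2 * ((2 * h - 3 - v).toNat : ℤ) = s - 2 + m by omega,
    F.K_add_left]

theorem Ctx1.pos (X : Ctx1 F h n y) (s : ℤ) : 1 ≤ y s := by
  by_contra hcon
  have h1 := X.y0 s
  have h2 := X.y0 (s + 1)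
  have h3 := X.y1 (s + 1)
  have hh := X.hh
  have e : ((y (s + 1)).toNat : ℤ) = y (s + 1) := by omega
  refine X.cyc s (y (s + 1)).toNat (by omega) (Or.inl (by omega)) (by omega) ?_ ?_ <;>
  · rw [e]
    have := X.y0 (s + 2 + 2 * y (s + 1))
    have := X.y1 (s + 2 + 2 * y (s + 1))
    omega

theorem Ctx1.mono (X : Ctx1 F h n y) (s : ℤ) : y s ≤ y (s + 1) := by
  by_contra hcon
  push Not at hcon
  have h1 := X.pos s
  have h2 := X.y0 (s + 1)
  have h3 := X.y1 s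
  have hh := X.hh
  have e : ((y s - 1).toNat : ℤ) = y s - 1 := by omega
  refine X.cyc s (y s - 1).toNat (by omega) (Or.inr (by omega)) (by omega) ?_ ?_ <;>
  · rw [e]
    have := X.pos (s + 2 + 2 * (y s - 1))
    have := X.y1 (s + 2 + 2 * (y s - 1))
    omega

theorem Ctx1.per (X : Ctx1 F h n y) (s : ℤ) : y (s + m) = y s := by
  have h1 := X.f1 (s + m)
  rw [show s + m + 1 = s + 1 + m by ring, F.K_add, X.f1 s,
    show s + m + 2 * y (s + m) = s + 2 * y (s + m) + m by ring, F.E_add] at h1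
  have := X.y0 s
  have := X.y1 s
  have := X.y0 (s + m)
  have := X.y1 (s + m)
  have := X.hm
  have := X.hh
  have := F.E_eq h1 (by omega) (by omega)
  omega

theorem Ctx1.succ (X : Ctx1 F h n y) (s : ℤ) : y (s + 1) = y s := by
  have key : ∀ (r : ℕ) (t : ℤ), y t ≤ y (t + r) := by
    intro r
    induction r with
    | zero => intro t; simp
    | succ r ih =>
      intro t
      have h1 := ih t
      have h2 := X.mono (t + r)
      push_cast
      rw [← add_assoc]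
      omega
  have h1 := key (m - 1).toNat (s + 1)
  have hm := X.hm
  have hh := X.hh
  rw [show s + 1 + ((m - 1).toNat : ℤ) = s + m by omega, X.per] at h1
  have := X.mono s
  omega

theorem Ctx1.const (X : Ctx1 F h n y) (s : ℤ) : y s = y 0 := by
  induction s using Int.induction_on with
  | zero => rfl
  | succ i ih => rw [X.succ]; exact ih
  | pred i ih =>
    have := X.succ (-i - 1)
    rw [show -(i : ℤ) - 1 + 1 = -i by ring] at this
    omega

/-- domains of the chord `(0,3)` -/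
theorem Ctx1.chord (X : Ctx1 F h n y) (α β γ : ℕ) (hs : (α : ℤ) + β + γ = 2 * h - 2)
    (hβ : 1 ≤ β) (c1 : γ ≤ y 0) (c2 : y 0 < β ∨ (β : ℤ) + γ ≤ y 0) (c3 : β + y 0 < 2 * h) :
    ∃ k, F.K 0 3 = F.E k ∧ ((3 ≤ k ∧ k < 3 + 2 * α ∧ 2 ∣ k - 3) ∨ k = 3 + 2 * α + 2 * y 0 ∨
      (4 + 2 * α ≤ k ∧ k < 4 + 2 * α + 2 * β ∧ 2 ∣ k - 4) ∨ k = 3 + 2 * α + 2 * β + 2 * y 0 ∨
      (3 + 2 * α + 2 * β ≤ k ∧ k < 3 + 2 * α + 2 * β + 2 * γ ∧ 2 ∣ k - 3)) := by
  have hc := X.const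
  obtain ⟨hh, hm, hn, non, e2, f1, y0, y1⟩ := X
  have a0 := y0 0
  have a1 := y1 0
  have g1 := f1 (3 + 2 * α)
  have g2 := f1 (3 + 2 * α + 2 * β)
  rw [hc] at g1 g2
  have P1 := RP.two e2 3 α (by omega)
  have P2 := RP.two e2 (3 + 2 * α + 1) β (by omega)
  have P3 := RP.two e2 (3 + 2 * α + 2 * β) γ (by omega)
  have P4 := P1.append P2 g1 (by
    intros
    simp only [Set.mem_ofPred_eq, Set.mem_insert_iff, Set.mem_union, Set.mem_singleton_iff,
      Set.mem_empty_iff_false, or_false] at *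
    apply ndvd <;> omega) (by
    intros
    simp only [Set.mem_ofPred_eq, Set.mem_insert_iff, Set.mem_union, Set.mem_singleton_iff,
      Set.mem_empty_iff_false, or_false] at *
    apply ndvd <;> omega) (by
    intros
    simp only [Set.mem_ofPred_eq, Set.mem_insert_iff, Set.mem_union, Set.mem_singleton_iff,
      Set.mem_empty_iff_false, or_false] at *
    apply ndvd <;> omega) (by
    intros
    simp only [Set.mem_ofPred_eq, Set.mem_insert_iff, Set.mem_union, Set.mem_singleton_iff,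
      Set.mem_empty_iff_false, or_false] at *
    apply ndvd <;> omega)
  have g3 : F.K (3 + 2 * α + 1 + 2 * β) (3 + 2 * α + 2 * β) = F.E (3 + 2 * α + 2 * β + 2 * y 0) := by
    rw [F.K_comm, show 3 + 2 * (α : ℤ) + 1 + 2 * β = 3 + 2 * α + 2 * β + 1 by ring]
    exact g2
  have P5 := P4.append P3 g3 (by
    intros
    simp only [Set.mem_ofPred_eq, Set.mem_insert_iff, Set.mem_union, Set.mem_singleton_iff,
      Set.mem_empty_iff_false, or_false] at *
    apply ndvd <;> omega) (by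
    intros
    simp only [Set.mem_ofPred_eq, Set.mem_insert_iff, Set.mem_union, Set.mem_singleton_iff,
      Set.mem_empty_iff_false, or_false] at *
    apply ndvd <;> omega) (by
    intros
    simp only [Set.mem_ofPred_eq, Set.mem_insert_iff, Set.mem_union, Set.mem_singleton_iff,
      Set.mem_empty_iff_false, or_false] at *
    apply ndvd <;> omega) (by
    intros
    simp only [Set.mem_ofPred_eq, Set.mem_insert_iff, Set.mem_union, Set.mem_singleton_iff,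
      Set.mem_empty_iff_false, or_false] at *
    apply ndvd <;> omega)
  obtain ⟨k, hk, hk'⟩ := P5.close non (by omega) (by omega)
  refine ⟨k, ?_, ?_⟩
  · rw [← hk', show 3 + 2 * (α : ℤ) + 2 * β + 2 * γ = 0 + m by omega, F.K_add_left]
  · simp only [Set.mem_ofPred_eq, Set.mem_insert_iff, Set.mem_union] at hk
    omega

/-- domains of the chord `(0,3)`, in residues -/
theorem Ctx1.chordr (X : Ctx1 F h n y) (α β γ : ℤ) (hs : α + β + γ = 2 * h - 2)
    (hα : 0 ≤ α) (hγ : 0 ≤ γ) (hβ : 1 ≤ β) (c1 : γ ≤ y 0) (c2 : y 0 < β ∨ β + γ ≤ y 0)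
    (c3 : β + y 0 < 2 * h) :
    ∃ r, 0 ≤ r ∧ r < m ∧ F.K 0 3 = F.E r ∧ ((3 ≤ r ∧ r < 3 + 2 * α ∧ 2 ∣ r - 3) ∨
      r = 3 + 2 * α + 2 * y 0 ∨ r = 3 + 2 * α + 2 * y 0 - m ∨
      (4 + 2 * α ≤ r ∧ r < 4 + 2 * α + 2 * β ∧ 2 ∣ r) ∨ r = 3 + 2 * α + 2 * β + 2 * y 0 ∨
      r = 3 + 2 * α + 2 * β + 2 * y 0 - m ∨
      (3 + 2 * α + 2 * β ≤ r ∧ r < 3 + 2 * α + 2 * β + 2 * γ ∧ 2 ∣ r - 3)) := by
  have p := X.pos 0
  have q := X.y1 0
  have hh := X.hh
  have hm := X.hm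
  obtain ⟨k, hk, hk'⟩ := X.chord α.toNat β.toNat γ.toNat (by omega) (by omega) (by omega)
    (by omega) (by omega)
  rw [Int.toNat_of_nonneg hα, Int.toNat_of_nonneg hγ, Int.toNat_of_nonneg (by omega : 0 ≤ β)] at hk'
  by_cases hlt : k < m
  · exact ⟨k, by omega, hlt, hk, by omega⟩
  · refine ⟨k - m, by omega, by omega, ?_, by omega⟩
    rw [hk, ← F.E_add (k - m)]
    congr 1; ring

theorem arith12 (c h r m : ℤ) (hm : m = 4 * h - 1) (h3 : 3 ≤ h) (hc1 : 1 ≤ c) (hc2 : c ≤ h - 1)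
    (hr0 : 0 ≤ r) (hr1 : r < m)
    (d1 : (3 ≤ r ∧ r < 2 * c + 1 ∧ 2 ∣ r - 3) ∨ r = 4 * c + 1 ∨
      (2 * c + 2 ≤ r ∧ r < 4 * h ∧ 2 ∣ r) ∨ r = 2 * c)
    (d2 : (3 ≤ r ∧ r < 4 * h - 3 ∧ 2 ∣ r - 3) ∨ r = 2 * c - 2 ∨ r = 4 * h - 2 ∨ r = 2 * c) :
    (3 ≤ r ∧ r < 2 * c + 1 ∧ 2 ∣ r - 3) ∨ (r = 4 * c + 1) ∨ r = 4 * h - 2 ∨ r = 2 * c := by
  omega

theorem arith123 (c h r m : ℤ) (hm : m = 4 * h - 1) (h3 : 3 ≤ h) (hc1 : 1 ≤ c) (hc2 : c ≤ h - 1)
    (hr0 : 0 ≤ r) (hr1 : r < m)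
    (d1 : (3 ≤ r ∧ r < 2 * c + 1 ∧ 2 ∣ r - 3) ∨ (r = 4 * c + 1) ∨ r = 4 * h - 2 ∨ r = 2 * c)
    (d2 : (3 ≤ r ∧ r < 3 + 2 * c ∧ 2 ∣ r - 3) ∨ r = 4 * c + 3 ∨ r = 4 * c + 3 - m ∨
      (2 * c + 4 ≤ r ∧ r < 4 * h ∧ 2 ∣ r) ∨ r = 2 * c) :
    (3 ≤ r ∧ r < 2 * c + 1 ∧ 2 ∣ r - 3) ∨ r = 4 * h - 2 ∨ r = 2 * c := by
  omega

theorem arith1234 (c h r m : ℤ) (hm : m = 4 * h - 1) (h3 : 3 ≤ h) (hc1 : 1 ≤ c) (hc2 : c ≤ h - 1)
    (hr0 : 0 ≤ r) (hr1 : r < m)
    (d1 : (3 ≤ r ∧ r < 2 * c + 1 ∧ 2 ∣ r - 3) ∨ r = 4 * h - 2 ∨ r = 2 * c)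
    (d2 : r = 3 + 2 * c ∨ (4 ≤ r ∧ r < 4 * h + 2 - 2 * c ∧ 2 ∣ r) ∨ r = 2 ∨
      (4 * h + 1 - 2 * c ≤ r ∧ r < 4 * h - 1 ∧ 2 ∣ r - 3)) :
    (r = 4 * h - 2 ∧ c = 1) ∨ r = 2 * c := by
  omega

theorem Ctx1.contr (X : Ctx1 F h n y) : False := by
  have p := X.pos 0
  have q := X.y1 0
  have hh := X.hh
  have hm := X.hm
  obtain ⟨r, hr0, hr1, e1, d1⟩ := X.chordr (y 0 - 1) (2 * h - 1 - y 0) 0 (by omega) (by omega)
    (by omega) (by omega) (by omega) (by omega) (by omega)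
  have d1' : (3 ≤ r ∧ r < 2 * y 0 + 1 ∧ 2 ∣ r - 3) ∨ r = 4 * y 0 + 1 ∨
      (2 * y 0 + 2 ≤ r ∧ r < 4 * h ∧ 2 ∣ r) ∨ r = 2 * y 0 := by omega
  clear d1
  have d12 : (3 ≤ r ∧ r < 2 * y 0 + 1 ∧ 2 ∣ r - 3) ∨ (r = 4 * y 0 + 1) ∨ r = 4 * h - 2 ∨
      r = 2 * y 0 := by
    obtain ⟨r', hr0', hr1', e2, d2⟩ := X.chordr (2 * h - 3) 1 0 (by omega) (by omega)
      (by omega) (by omega) (by omega) (by omega) (by omega)
    have := F.E_eq (e1.symm.trans e2) (by clear d1' d2; omega) (by clear d1' d2; omega)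
    subst this
    refine arith12 (y 0) h r m hm hh p q hr0 hr1 d1' ?_
    clear d1'
    omega
  clear d1'
  have d123 : (3 ≤ r ∧ r < 2 * y 0 + 1 ∧ 2 ∣ r - 3) ∨ r = 4 * h - 2 ∨ r = 2 * y 0 := by
    obtain ⟨r', hr0', hr1', e2, d2⟩ := X.chordr (y 0) (2 * h - 2 - y 0) 0 (by omega) (by omega)
      (by omega) (by omega) (by omega) (by omega) (by omega)
    have := F.E_eq (e1.symm.trans e2) (by clear d12 d2; omega) (by clear d12 d2; omega)
    subst this
    refine arith123 (y 0) h r m hm hh p q hr0 hr1 d12 ?_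
    clear d12
    omega
  clear d12
  have d1234 : (r = 4 * h - 2 ∧ y 0 = 1) ∨ r = 2 * y 0 := by
    obtain ⟨r', hr0', hr1', e2, d2⟩ := X.chordr 0 (2 * h - 1 - y 0) (y 0 - 1) (by omega) (by omega)
      (by omega) (by omega) (by omega) (by omega) (by omega)
    have := F.E_eq (e1.symm.trans e2) (by clear d123 d2; omega) (by clear d123 d2; omega)
    subst this
    refine arith1234 (y 0) h r m hm hh p q hr0 hr1 d123 ?_
    clear d123
    omega
  clear d123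
  by_cases hc : y 0 = 1
  · obtain ⟨r', hr0', hr1', e2, d2⟩ := X.chordr (2 * h - 5) 2 1 (by omega) (by omega)
      (by omega) (by omega) (by omega) (by omega) (by omega)
    have := F.E_eq (e1.symm.trans e2) (by clear d1234 d2; omega) (by clear d1234 d2; omega)
    omega
  · obtain ⟨r', hr0', hr1', e2, d2⟩ := X.chordr (2 * h - 4) 1 1 (by omega) (by omega)
      (by omega) (by omega) (by omega) (by omega) (by omega)
    have := F.E_eq (e1.symm.trans e2) (by clear d1234 d2; omega) (by clear d1234 d2; omega)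
    omega

end

end Pool.Agent.H81.Rainbow
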