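import Pool.Agent.H81.Rainbow.Basic

/-! Runs along a rainbow Hamiltonian cycle, frames and reflections. -/

namespace Pool.Agent.H81.Rainbow

section
variable {V C : Type*} {c : Sym2 V → C} {m : ℤ}

theorem exists_frame {M : ℕ} (h : HasRainbowCycle c M) :
    ∃ F : Frame c (M : ℤ), ∀ s, F.K s (s + 1) = F.E s := by
  obtain ⟨h3, v, hv, hc⟩ := h
  refine ⟨⟨fun s => v (s : ZMod M), fun s => c s(v (s : ZMod M), v ((s : ZMod M) + 1)),
    by omega, ?_, ?_⟩, ?_⟩
  · intro s t
    rw [hv.eq_iff, ← sub_eq_zero, ← Int.cast_sub, ZMod.intCast_zmod_eq_zero_iff_dvd]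
  · intro s t
    have := hc.eq_iff (a := (s : ZMod M)) (b := (t : ZMod M))
    rw [this, ← sub_eq_zero, ← Int.cast_sub, ZMod.intCast_zmod_eq_zero_iff_dvd]
  · intro s
    simp [Frame.K]

/-- reversing the orientation -/
def Frame.refl (F : Frame c m) : Frame c m where
  U s := F.U (-s)
  E s := F.E (-s - 1)
  hm := F.hm
  hU s t := by
    rw [F.hU, show -s - -t = -(s - t) by ring, dvd_neg]
  hE s t := by
    rw [F.hE, show -s - 1 - (-t - 1) = -(s - t) by ring, dvd_neg]

theorem Frame.refl_K (F : Frame c m) (s t : ℤ) : F.refl.K s t = F.K (-s) (-t) := rfl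

theorem Frame.refl_E (F : Frame c m) (s : ℤ) : F.refl.E s = F.E (-s - 1) := rfl

theorem Frame.refl_base (F : Frame c m) (hb : ∀ s, F.K s (s + 1) = F.E s) (s : ℤ) :
    F.refl.K s (s + 1) = F.refl.E s := by
  rw [F.refl_K, F.refl_E, F.K_comm, ← hb, show -(s + 1) = -s - 1 by ring,
    show -s - 1 + 1 = -s by ring]

theorem RP.upNat {F : Frame c m} (hb : ∀ s, F.K s (s + 1) = F.E s) (p : ℤ) (l : ℕ)
    (hl : (l : ℤ) < m) :
    RP F p (p + l) l {x | p ≤ x ∧ x ≤ p + l} {x | p ≤ x ∧ x < p + l} := by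
  refine ⟨fun i => p + i, fun i => p + i, by simp, rfl, ?_, ?_, ?_, ?_, ?_⟩
  · intro i hi; simp only [Set.mem_ofPred_eq]; omega
  · intro i hi; simp only [Set.mem_ofPred_eq]; omega
  · intro i hi j hj hij
    by_contra hne
    have e : (p + (i : ℤ)) - (p + (j : ℤ)) = (i : ℤ) - j := by ring
    simp only [e] at hij
    exact not_dvd_of_abs (by omega) (by omega) (by omega) hij
  · intro i hi j hj hij
    by_contra hne
    have e : (p + (i : ℤ)) - (p + (j : ℤ)) = (i : ℤ) - j := by ring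
    simp only [e] at hij
    exact not_dvd_of_abs (by omega) (by omega) (by omega) hij
  · intro i hi
    have := hb (p + i)
    rw [← this]
    push_cast
    rw [add_assoc]

/-- the upward run from `p` to `q` -/
theorem RP.up {F : Frame c m} (hb : ∀ s, F.K s (s + 1) = F.E s) (p q : ℤ) (h1 : p ≤ q)
    (h2 : q < p + m) :
    RP F p q (q - p).toNat {x | p ≤ x ∧ x ≤ q} {x | p ≤ x ∧ x < q} := by
  have := RP.upNat hb p (q - p).toNat (by omega)
  rw [show p + ((q - p).toNat : ℤ) = q by omega] at this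
  exact this

/-- the downward run from `q` to `p` -/
theorem RP.down {F : Frame c m} (hb : ∀ s, F.K s (s + 1) = F.E s) (p q : ℤ) (h1 : p ≤ q)
    (h2 : q < p + m) :
    RP F q p (q - p).toNat {x | p ≤ x ∧ x ≤ q} {x | p ≤ x ∧ x < q} :=
  (RP.up hb p q h1 h2).rev

theorem Frame.E_eq {F : Frame c m} {s t : ℤ} (h : F.E s = F.E t) (h1 : s < t + m)
    (h2 : t < s + m) : s = t := by
  by_contra hne
  exact not_dvd_of_abs (by omega) (by omega) (by omega) ((F.hE s t).1 h)

end

end Pool.Agent.H81.Rainbow
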