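import Pool.Agent.H81.Rainbow.Five

/-! The lengths three and five. -/

namespace Pool.Agent.H81.Rainbow

/-- Without a rainbow triangle there is no rainbow cycle at all. -/
theorem three_len {V C : Type*} (c : Sym2 V → C) (non : ¬ HasRainbowCycle c 3) (m : ℕ) :
    ¬ HasRainbowCycle c m := by
  induction m with
  | zero => rintro ⟨h, -⟩; omega
  | succ m ih =>
    by_cases h1 : m + 1 < 3
    · rintro ⟨h, -⟩; omega
    · by_cases h2 : m + 1 = 3
      · rw [h2]; exact non
      · have := closure c (m - 2) 1 (by omega) (by omega)
          (by rw [show m - 2 + 2 = m by omega]; exact ih) non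
        rwa [show m - 2 + 1 + 2 = m + 1 by omega] at this

/-- Without a rainbow `5`-cycle there is no rainbow `m`-cycle with `m ≥ 8`. -/
theorem five_len {V C : Type*} (c : Sym2 V → C) (non : ¬ HasRainbowCycle c 5) (m : ℕ) :
    8 ≤ m → ¬ HasRainbowCycle c m := by
  induction m using Nat.strong_induction_on with
  | _ m ih =>
    intro hm
    by_cases h8 : m = 8
    · subst h8
      exact closure c 3 3 (by norm_num) (by norm_num) non non
    by_cases h9 : m = 9
    · subst h9
      exact nine c non
    by_cases h10 : m = 10
    · subst h10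
      exact all_even c 2 le_rfl non 1 (by norm_num)
    · have := closure c (m - 5) 3 (by omega) (by omega)
        (by rw [show m - 5 + 2 = m - 3 by omega]; exact ih (m - 3) (by omega) (by omega)) non
      rwa [show m - 5 + 3 + 2 = m by omega] at this

/-- colours of the edges of `K_7` -/
def col7 (u v : ℕ) : ℕ :=
  if (v + 7 - u) % 7 = 1 then u else if (v + 7 - u) % 7 = 6 then v
  else if (v + 7 - u) % 7 = 2 then (u + 3) % 7 else if (v + 7 - u) % 7 = 5 then (v + 3) % 7
  else if (v + 7 - u) % 7 = 3 then (u + 5) % 7 else (v + 5) % 7

theorem col7_comm : ∀ u v : Fin 7, u ≠ v → col7 u.val v.val = col7 v.val u.val := by decide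

/-- the colouring of `K_7` -/
def sevenCol : Sym2 (Fin 7) → ℕ :=
  Sym2.lift ⟨fun u v => if u = v then 7 else col7 u.val v.val, fun u v => by
    rcases eq_or_ne u v with h | h
    · rw [h]
    · simp only [if_neg h, if_neg h.symm]; exact col7_comm u v h⟩

theorem sevenCol_mk (u v : Fin 7) (h : u ≠ v) : sevenCol s(u, v) = col7 u.val v.val := by
  show (if u = v then 7 else col7 u.val v.val) = _
  rw [if_neg h]

theorem seven_has : HasRainbowCycle sevenCol 7 := by
  refine ⟨by norm_num, fun i => (i : Fin 7), fun a b h => h, ?_⟩
  have key : ∀ i : Fin 7, sevenCol s(i, i + 1) = i.val := by decide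
  intro a b hab
  have ha := key a
  have hb := key b
  exact Fin.ext (ha.symm.trans (hab.trans hb))

/-- the check that there is no rainbow `5`-cycle -/
def chk7 : Bool :=
  (List.range 7).all fun a => (List.range 7).all fun b => b == a ||
    (List.range 7).all fun p => p == a || p == b || col7 b p == col7 a b ||
      (List.range 7).all fun q => q == a || q == b || q == p || col7 p q == col7 a b ||
        col7 p q == col7 b p ||
        (List.range 7).all fun r => r == a || r == b || r == p || r == q ||
          col7 q r == col7 a b || col7 q r == col7 b p || col7 q r == col7 p q ||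
          col7 r a == col7 a b || col7 r a == col7 b p || col7 r a == col7 p q ||
          col7 r a == col7 q r

theorem chk7_true : chk7 = true := by decide +kernel

theorem seven_not : ¬ HasRainbowCycle sevenCol 5 := by
  rintro ⟨-, v, hv, hc⟩
  have hne : ∀ i j : ZMod 5, i ≠ j → (v i).val ≠ (v j).val :=
    fun i j hij h => hij (hv (Fin.ext h))
  have hsucc : ∀ i : ZMod 5, i ≠ i + 1 := by decide
  have hcne : ∀ i j : ZMod 5, i ≠ j →
      col7 (v i).val (v (i + 1)).val ≠ col7 (v j).val (v (j + 1)).val := by
    intro i j hij h
    apply hij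
    apply hc
    show sevenCol s(v i, v (i + 1)) = sevenCol s(v j, v (j + 1))
    rw [sevenCol_mk _ _ (fun h => hsucc i (hv h)), sevenCol_mk _ _ (fun h => hsucc j (hv h)), h]
  have h := chk7_true
  unfold chk7 at h
  simp only [List.all_eq_true, List.mem_range, Bool.or_eq_true, beq_iff_eq] at h
  have h1 := h (v 0).val (v 0).isLt (v 1).val (v 1).isLt
  have e10 := hne 1 0 (by decide)
  have h2 := (h1.resolve_left e10) (v 2).val (v 2).isLt
  have e20 := hne 2 0 (by decide)
  have e21 := hne 2 1 (by decide)
  have c10 := hcne 1 0 (by decide)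
  have h3 := ((h2.resolve_left (by
    rintro ((h | h) | h)
    · exact e20 h
    · exact e21 h
    · exact c10 h))) (v 3).val (v 3).isLt
  have e30 := hne 3 0 (by decide)
  have e31 := hne 3 1 (by decide)
  have e32 := hne 3 2 (by decide)
  have c20 := hcne 2 0 (by decide)
  have c21 := hcne 2 1 (by decide)
  have h4 := ((h3.resolve_left (by
    rintro ((((h | h) | h) | h) | h)
    · exact e30 h
    · exact e31 h
    · exact e32 h
    · exact c20 h
    · exact c21 h))) (v 4).val (v 4).isLt
  have e40 := hne 4 0 (by decide)
  have e41 := hne 4 1 (by decide)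
  have e42 := hne 4 2 (by decide)
  have e43 := hne 4 3 (by decide)
  have c30 := hcne 3 0 (by decide)
  have c31 := hcne 3 1 (by decide)
  have c32 := hcne 3 2 (by decide)
  have c40 := hcne 4 0 (by decide)
  have c41 := hcne 4 1 (by decide)
  have c42 := hcne 4 2 (by decide)
  have c43 := hcne 4 3 (by decide)
  rcases h4 with ((((((((((h | h) | h) | h) | h) | h) | h) | h) | h) | h) | h)
  · exact e40 h
  · exact e41 h
  · exact e42 h
  · exact e43 h
  · exact c30 h
  · exact c31 h
  · exact c32 h
  · exact c40 h
  · exact c41 h
  · exact c42 h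
  · exact c43 h

end Pool.Agent.H81.Rainbow
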