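import Pool.Agent.H81.Rainbow.Even3

/-! Rainbow `(4h+2κ)`-cycles, `κ ≥ 2`: the descending walks -/

namespace Pool.Agent.H81.Rainbow

section
variable {V C : Type*} {c : Sym2 V → C} {m : ℤ}

/-- paths ending on the first side at position `T` -/
def QA (F : Frame c m) (x : ℤ → ℤ) (H D T lo : ℤ) : Prop :=
  ∀ j, 0 ≤ j → j ≤ D - 1 → RP F (-j) T (-T - j).toNat
    {v | (T ≤ v ∧ v ≤ -j) ∨ (lo + H ≤ v ∧ v ≤ H - D)}
    {k | ((T ≤ k ∧ k ≤ 0) ∨ (lo + H ≤ k ∧ k ≤ H - 1)) ∧ k ≠ T + x T}

/-- paths ending on the second side at position `T` -/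
def QB (F : Frame c m) (x : ℤ → ℤ) (H D e T lo : ℤ) : Prop :=
  ∀ j, 0 ≤ j → j ≤ D - 1 → RP F (-j) (T + H) (-T - j + e).toNat
    {v | (lo ≤ v ∧ v ≤ -j) ∨ (T + H ≤ v ∧ v ≤ H - D)}
    {k | ((lo ≤ k ∧ k ≤ 0) ∨ (T + H ≤ k ∧ k ≤ H - 1)) ∧ k ≠ T + H + x (T + H)}

variable {F : Frame c m} {h κ : ℤ} {n : ℕ} {x : ℤ → ℤ} {D b e H : ℤ}

theorem CtxG.n2A (X : CtxG F h κ n x D) (hH : H = 2 * h + κ) (hκ2 : 2 ≤ κ) (z lo T : ℤ)
    (hz : z ≤ -D) (hz' : -H + 2 * κ ≤ z) (xz : x z = 0) (hlo : z + x (z + H) < lo) (hlo' : lo ≤ 0)
    (Q : QA F x H D (z + 1) lo) (hT : T ≤ z - κ) (hT' : -H + 1 ≤ T)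
    (hq : ∀ q, T ≤ q → q < z - κ → 1 ≤ x q) : QA F x H D T (z + 1 - κ) := by
  intro j hj0 hj1
  have P0 := Q j hj0 hj1
  have x00 := X.x00
  have a1 := X.mono (z + 1) 0 (by have := X.hD; omega)
  have a2 := X.x0 (z + 1)
  have a3 := X.x0 (z + H)
  have a4 := X.mono (z - κ) z (by omega)
  have a5 := X.same T (z - κ) hT hq
  have a6 := X.x0 (z - κ)
  have e1 := X.fx (z + 1)
  have e2 := X.fx (z + H)
  rw [show z + H + 2 * h = z - κ + m by rw [hH, X.hm]; ring, F.K_add_right] at e2
  obtain ⟨hb, -, hh, hm, hn, non, x0, x1, hD, hD', -, -, -, -⟩ := X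
  clear Q hq x0 x1
  have P1 := P0.append (RP.up hb (z + 1 + 2 * h) (z + H) (by omega) (by omega)) e1 (by
      intros
      simp only [Set.mem_ofPred_eq, Set.mem_insert_iff, Set.mem_union, Set.mem_singleton_iff,
        Set.mem_empty_iff_false, or_false] at *
      apply ndvd <;> omega) (by
      intros
      simp only [Set.mem_ofPred_eq, Set.mem_insert_iff, Set.mem_union, Set.mem_singleton_iff,
        Set.mem_empty_iff_false, or_false] at *
      apply ndvd <;> omega) (by
      intros
      simp only [Set.mem_ofPred_eq, Set.mem_insert_iff, Set.mem_union, Set.mem_singleton_iff,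
        Set.mem_empty_iff_false, or_false] at *
      apply ndvd <;> omega) (by
      intros
      simp only [Set.mem_ofPred_eq, Set.mem_insert_iff, Set.mem_union, Set.mem_singleton_iff,
        Set.mem_empty_iff_false, or_false] at *
      apply ndvd <;> omega)
  have P2 := P1.append (RP.down hb T (z - κ) (by omega) (by omega)) e2 (by
      intros
      simp only [Set.mem_ofPred_eq, Set.mem_insert_iff, Set.mem_union, Set.mem_singleton_iff,
        Set.mem_empty_iff_false, or_false] at *
      apply ndvd <;> omega) (by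
      intros
      simp only [Set.mem_ofPred_eq, Set.mem_insert_iff, Set.mem_union, Set.mem_singleton_iff,
        Set.mem_empty_iff_false, or_false] at *
      apply ndvd <;> omega) (by
      intros
      simp only [Set.mem_ofPred_eq, Set.mem_insert_iff, Set.mem_union, Set.mem_singleton_iff,
        Set.mem_empty_iff_false, or_false] at *
      apply ndvd <;> omega) (by
      intros
      simp only [Set.mem_ofPred_eq, Set.mem_insert_iff, Set.mem_union, Set.mem_singleton_iff,
        Set.mem_empty_iff_false, or_false] at *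
      apply ndvd <;> omega)
  rw [show (-(z + 1) - j).toNat + (z + H - (z + 1 + 2 * h)).toNat + 1 + (z - κ - T).toNat + 1 =
    (-T - j).toNat by omega] at P2
  exact P2.mono (by
      intro v hv
      simp only [Set.mem_ofPred_eq, Set.mem_insert_iff, Set.mem_union, Set.mem_singleton_iff,
        Set.mem_empty_iff_false, or_false] at *
      omega) (by
      intro v hv
      simp only [Set.mem_ofPred_eq, Set.mem_insert_iff, Set.mem_union, Set.mem_singleton_iff,
        Set.mem_empty_iff_false, or_false] at *
      omega)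

theorem CtxG.nsA (X : CtxG F h κ n x D) (hH : H = 2 * h + κ) (hκ2 : 2 ≤ κ)
    (hbe : κ = 2 * b + 1 - e) (he : e = 0 ∨ e = 1) (z lo T : ℤ)
    (hz : z ≤ -D) (hz' : -H + 2 * κ ≤ z) (xz : x z = 0) (hlo : z + x (z + H) < lo) (hlo' : lo ≤ 0)
    (Q : QA F x H D (z + 1) lo) (hT : T ≤ z - κ) (hT' : -H + 1 ≤ T)
    (hq : ∀ q, T ≤ q → q < z - κ → 1 ≤ x (q + H)) : QB F x H D e T (z - 2 * b) := by
  intro j hj0 hj1
  have P0 := Q j hj0 hj1
  have x00 := X.x00
  have a1 := X.mono (z + 1) 0 (by have := X.hD; omega)
  have a2 := X.x0 (z + 1)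
  have a3 := X.x0 (z + H)
  have a4 := X.mono (z - b) z (by omega)
  have a5 := X.same (T + H) (z - κ + H) (by omega) (fun q h1 h2 => by
    have := hq (q - H) (by omega) (by omega)
    rwa [show q - H + H = q by ring] at this)
  have a6 := X.mono (z - κ + H) (z + H) (by omega)
  have a7 := X.x0 (z - κ + H)
  have e1 := X.J (z + 1) b (by omega) (by omega) (by
    rw [show z + 1 - b - 1 = z - b by ring]; omega)
  rw [show z + 1 - 2 * b - 1 = z - 2 * b by ring] at e1
  have e2 := X.fx z
  rw [show z + 2 * h = z - κ + H by rw [hH]; ring] at e2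
  obtain ⟨hb, -, hh, hm, hn, non, x0, x1, hD, hD', -, -, -, -⟩ := X
  clear Q hq x0 x1
  have P1 := P0.append (RP.up hb (z - 2 * b) z (by omega) (by omega)) e1 (by
      intros
      simp only [Set.mem_ofPred_eq, Set.mem_insert_iff, Set.mem_union, Set.mem_singleton_iff,
        Set.mem_empty_iff_false, or_false] at *
      apply ndvd <;> omega) (by
      intros
      simp only [Set.mem_ofPred_eq, Set.mem_insert_iff, Set.mem_union, Set.mem_singleton_iff,
        Set.mem_empty_iff_false, or_false] at *
      apply ndvd <;> omega) (by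
      intros
      simp only [Set.mem_ofPred_eq, Set.mem_insert_iff, Set.mem_union, Set.mem_singleton_iff,
        Set.mem_empty_iff_false, or_false] at *
      apply ndvd <;> omega) (by
      intros
      simp only [Set.mem_ofPred_eq, Set.mem_insert_iff, Set.mem_union, Set.mem_singleton_iff,
        Set.mem_empty_iff_false, or_false] at *
      apply ndvd <;> omega)
  have P2 := P1.append (RP.down hb (T + H) (z - κ + H) (by omega) (by omega)) e2 (by
      intros
      simp only [Set.mem_ofPred_eq, Set.mem_insert_iff, Set.mem_union, Set.mem_singleton_iff,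
        Set.mem_empty_iff_false, or_false] at *
      apply ndvd <;> omega) (by
      intros
      simp only [Set.mem_ofPred_eq, Set.mem_insert_iff, Set.mem_union, Set.mem_singleton_iff,
        Set.mem_empty_iff_false, or_false] at *
      apply ndvd <;> omega) (by
      intros
      simp only [Set.mem_ofPred_eq, Set.mem_insert_iff, Set.mem_union, Set.mem_singleton_iff,
        Set.mem_empty_iff_false, or_false] at *
      apply ndvd <;> omega) (by
      intros
      simp only [Set.mem_ofPred_eq, Set.mem_insert_iff, Set.mem_union, Set.mem_singleton_iff,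
        Set.mem_empty_iff_false, or_false] at *
      apply ndvd <;> omega)
  rw [show (-(z + 1) - j).toNat + (z - (z - 2 * b)).toNat + 1 + (z - κ + H - (T + H)).toNat + 1 =
    (-T - j + e).toNat by omega] at P2
  exact P2.mono (by
      intro v hv
      simp only [Set.mem_ofPred_eq, Set.mem_insert_iff, Set.mem_union, Set.mem_singleton_iff,
        Set.mem_empty_iff_false, or_false] at *
      omega) (by
      intro v hv
      simp only [Set.mem_ofPred_eq, Set.mem_insert_iff, Set.mem_union, Set.mem_singleton_iff,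
        Set.mem_empty_iff_false, or_false] at *
      omega)

theorem CtxG.n2B (X : CtxG F h κ n x D) (hH : H = 2 * h + κ) (hκ2 : 2 ≤ κ)
    (he : e = 0 ∨ e = 1) (z lo T : ℤ)
    (hz : z ≤ -D - 1) (hz' : -H + 2 * κ ≤ z) (xz : x (z + H) = 0) (hlo : z + x z < lo)
    (hlo' : lo ≤ 0)
    (Q : QB F x H D e (z + 1) lo) (hT : T ≤ z - κ) (hT' : -H + 1 ≤ T)
    (hq : ∀ q, T ≤ q → q < z - κ → 1 ≤ x (q + H)) : QB F x H D e T (z + 1 - κ) := by
  intro j hj0 hj1
  have P0 := Q j hj0 hj1
  have x00 := X.x00
  have a1 := X.x1 (z + 1 + H)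
  have a2 := X.x0 (z + 1 + H)
  have a3 := X.x0 z
  have a4 := X.mono (z - κ + H) (z + H) (by omega)
  have a5 := X.same (T + H) (z - κ + H) (by omega) (fun q h1 h2 => by
    have := hq (q - H) (by omega) (by omega)
    rwa [show q - H + H = q by ring] at this)
  have a7 := X.x0 (z - κ + H)
  have e1 := X.fx (z + 1 + H)
  rw [show z + 1 + H + 2 * h = z + 1 - κ + m by rw [hH, X.hm]; ring, F.K_add_right] at e1
  have e2 := X.fx z
  rw [show z + 2 * h = z - κ + H by rw [hH]; ring] at e2
  obtain ⟨hb, -, hh, hm, hn, non, x0, x1, hD, hD', -, -, -, -⟩ := X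
  clear Q hq x0 x1
  have P1 := P0.append (RP.up hb (z + 1 - κ) z (by omega) (by omega)) e1 (by
      intros
      simp only [Set.mem_ofPred_eq, Set.mem_insert_iff, Set.mem_union, Set.mem_singleton_iff,
        Set.mem_empty_iff_false, or_false] at *
      apply ndvd <;> omega) (by
      intros
      simp only [Set.mem_ofPred_eq, Set.mem_insert_iff, Set.mem_union, Set.mem_singleton_iff,
        Set.mem_empty_iff_false, or_false] at *
      apply ndvd <;> omega) (by
      intros
      simp only [Set.mem_ofPred_eq, Set.mem_insert_iff, Set.mem_union, Set.mem_singleton_iff,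
        Set.mem_empty_iff_false, or_false] at *
      apply ndvd <;> omega) (by
      intros
      simp only [Set.mem_ofPred_eq, Set.mem_insert_iff, Set.mem_union, Set.mem_singleton_iff,
        Set.mem_empty_iff_false, or_false] at *
      apply ndvd <;> omega)
  have P2 := P1.append (RP.down hb (T + H) (z - κ + H) (by omega) (by omega)) e2 (by
      intros
      simp only [Set.mem_ofPred_eq, Set.mem_insert_iff, Set.mem_union, Set.mem_singleton_iff,
        Set.mem_empty_iff_false, or_false] at *
      apply ndvd <;> omega) (by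
      intros
      simp only [Set.mem_ofPred_eq, Set.mem_insert_iff, Set.mem_union, Set.mem_singleton_iff,
        Set.mem_empty_iff_false, or_false] at *
      apply ndvd <;> omega) (by
      intros
      simp only [Set.mem_ofPred_eq, Set.mem_insert_iff, Set.mem_union, Set.mem_singleton_iff,
        Set.mem_empty_iff_false, or_false] at *
      apply ndvd <;> omega) (by
      intros
      simp only [Set.mem_ofPred_eq, Set.mem_insert_iff, Set.mem_union, Set.mem_singleton_iff,
        Set.mem_empty_iff_false, or_false] at *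
      apply ndvd <;> omega)
  rw [show (-(z + 1) - j + e).toNat + (z - (z + 1 - κ)).toNat + 1 +
    (z - κ + H - (T + H)).toNat + 1 = (-T - j + e).toNat by omega] at P2
  exact P2.mono (by
      intro v hv
      simp only [Set.mem_ofPred_eq, Set.mem_insert_iff, Set.mem_union, Set.mem_singleton_iff,
        Set.mem_empty_iff_false, or_false] at *
      omega) (by
      intro v hv
      simp only [Set.mem_ofPred_eq, Set.mem_insert_iff, Set.mem_union, Set.mem_singleton_iff,
        Set.mem_empty_iff_false, or_false] at *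
      omega)

theorem CtxG.nsB (X : CtxG F h κ n x D) (hH : H = 2 * h + κ) (hκ2 : 2 ≤ κ)
    (hbe : κ = 2 * b + 1 - e) (he : e = 0 ∨ e = 1) (z lo T : ℤ)
    (hz : z ≤ -D - 1) (hz' : -H + 2 * κ ≤ z) (xz : x (z + H) = 0) (hlo : z + x z < lo)
    (hlo' : lo ≤ 0)
    (Q : QB F x H D e (z + 1) lo) (hT : T ≤ z - κ - e) (hT' : -H + 1 ≤ T)
    (hq : ∀ q, T ≤ q → q < z - κ → 1 ≤ x q) : QA F x H D T (z - 2 * b) := by
  intro j hj0 hj1
  have P0 := Q j hj0 hj1
  have x00 := X.x00
  have a1 := X.x1 (z + 1 + H)
  have a2 := X.x0 (z + 1 + H)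
  have a3 := X.x0 z
  have a4 := X.mono (z - b + H) (z + H) (by omega)
  have a5 := X.same T (z - κ) (by omega) hq
  have a6 := X.mono (z - κ) z (by omega)
  have a7 := X.x0 (z - κ)
  have a8 := X.mono (z - e + H) (z + H) (by omega)
  have a9 := X.x0 (z - e + H)
  have e1 := X.J (z + 1 + H) b (by omega) (by omega) (by
    rw [show z + 1 + H - b - 1 = z - b + H by ring]; omega)
  rw [show z + 1 + H - 2 * b - 1 = z - 2 * b + H by ring] at e1
  have e2 := X.fx (z - e + H)
  rw [show z - e + H + 2 * h = z - e - κ + m by rw [hH, X.hm]; ring, F.K_add_right] at e2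
  obtain ⟨hb, -, hh, hm, hn, non, x0, x1, hD, hD', -, -, -, -⟩ := X
  clear Q hq x0 x1
  have P1 := P0.append (RP.up hb (z - 2 * b + H) (z - e + H) (by omega) (by omega)) e1 (by
      intros
      simp only [Set.mem_ofPred_eq, Set.mem_insert_iff, Set.mem_union, Set.mem_singleton_iff,
        Set.mem_empty_iff_false, or_false] at *
      apply ndvd <;> omega) (by
      intros
      simp only [Set.mem_ofPred_eq, Set.mem_insert_iff, Set.mem_union, Set.mem_singleton_iff,
        Set.mem_empty_iff_false, or_false] at *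
      apply ndvd <;> omega) (by
      intros
      simp only [Set.mem_ofPred_eq, Set.mem_insert_iff, Set.mem_union, Set.mem_singleton_iff,
        Set.mem_empty_iff_false, or_false] at *
      apply ndvd <;> omega) (by
      intros
      simp only [Set.mem_ofPred_eq, Set.mem_insert_iff, Set.mem_union, Set.mem_singleton_iff,
        Set.mem_empty_iff_false, or_false] at *
      apply ndvd <;> omega)
  have P2 := P1.append (RP.down hb T (z - e - κ) (by omega) (by omega)) e2 (by
      intros
      simp only [Set.mem_ofPred_eq, Set.mem_insert_iff, Set.mem_union, Set.mem_singleton_iff,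
        Set.mem_empty_iff_false, or_false] at *
      apply ndvd <;> omega) (by
      intros
      simp only [Set.mem_ofPred_eq, Set.mem_insert_iff, Set.mem_union, Set.mem_singleton_iff,
        Set.mem_empty_iff_false, or_false] at *
      apply ndvd <;> omega) (by
      intros
      simp only [Set.mem_ofPred_eq, Set.mem_insert_iff, Set.mem_union, Set.mem_singleton_iff,
        Set.mem_empty_iff_false, or_false] at *
      apply ndvd <;> omega) (by
      intros
      simp only [Set.mem_ofPred_eq, Set.mem_insert_iff, Set.mem_union, Set.mem_singleton_iff,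
        Set.mem_empty_iff_false, or_false] at *
      apply ndvd <;> omega)
  rw [show (-(z + 1) - j + e).toNat + (z - e + H - (z - 2 * b + H)).toNat + 1 +
    (z - e - κ - T).toNat + 1 = (-T - j).toNat by omega] at P2
  exact P2.mono (by
      intro v hv
      simp only [Set.mem_ofPred_eq, Set.mem_insert_iff, Set.mem_union, Set.mem_singleton_iff,
        Set.mem_empty_iff_false, or_false] at *
      omega) (by
      intro v hv
      simp only [Set.mem_ofPred_eq, Set.mem_insert_iff, Set.mem_union, Set.mem_singleton_iff,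
        Set.mem_empty_iff_false, or_false] at *
      omega)

end

end Pool.Agent.H81.Rainbow
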