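import Pool.Agent.H81.Rainbow.Walk

/-! Rainbow `(4h+2κ)`-cycles, `κ ≥ 2`: closing the walks -/

namespace Pool.Agent.H81.Rainbow

section
variable {V C : Type*} {c : Sym2 V → C} {m : ℤ}
variable {F : Frame c m} {h κ : ℤ} {n : ℕ} {x : ℤ → ℤ} {D b e H : ℤ}

theorem CtxG.t1 (X : CtxG F h κ n x D) (hH : H = 2 * h + κ) (hκ2 : 2 ≤ κ) (lo j : ℤ)
    (hlo : -H + 1 ≤ lo) (hj : j = 0 ∨ j = 1) (Q : QA F x H D (-H + κ - j) lo) : False := by
  have hD := X.hD
  have P0 := Q j (by omega) (by omega)
  have x00 := X.x00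
  have hh := X.hh
  have a1 := X.mono (-H + κ - j) 0 (by omega)
  have a2 := X.x0 (-H + κ - j)
  have e1 := X.fx (-H + κ - j)
  rw [show -H + κ - j + 2 * h = -j by rw [hH]; ring] at e1
  obtain ⟨hb, -, hh, hm, hn, non, x0, x1, hD, hD', -, -, -, -⟩ := X
  clear Q x0 x1
  exact P0.false non (by omega) (by omega) e1 (by
      intros
      simp only [Set.mem_ofPred_eq, Set.mem_insert_iff, Set.mem_union, Set.mem_singleton_iff,
        Set.mem_empty_iff_false, or_false] at *
      apply ndvd <;> omega)

theorem CtxG.t2 (X : CtxG F h κ n x D) (hH : H = 2 * h + κ) (hκ2 : 2 ≤ κ)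
    (hbe : κ = 2 * b + 1 - e) (he : e = 0 ∨ e = 1) (lo j T : ℤ)
    (hlo : -H + 1 ≤ lo) (hj0 : 0 ≤ j) (hj1 : j ≤ D - 1) (hT : T = -H - j + 2 * b + 1)
    (hT1 : T ≤ -D) (hT2 : -H + 1 ≤ T)
    (hx : x (T + H - b - 1) ≤ b) (Q : QB F x H D e T lo) : False := by
  have hD := X.hD
  have P0 := Q j hj0 hj1
  have hh := X.hh
  have a1 := X.x1 (T + H)
  have a2 := X.x0 (T + H)
  have e1 := X.J (T + H) b (by omega) (by omega) hx
  rw [show T + H - 2 * b - 1 = -j by rw [hT]; ring] at e1
  obtain ⟨hb, -, hh, hm, hn, non, x0, x1, hD, hD', -, -, -, -⟩ := X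
  clear Q x0 x1
  exact P0.false non (by omega) (by omega) e1 (by
      intros
      simp only [Set.mem_ofPred_eq, Set.mem_insert_iff, Set.mem_union, Set.mem_singleton_iff,
        Set.mem_empty_iff_false, or_false] at *
      apply ndvd <;> omega)

theorem CtxG.t3 (X : CtxG F h κ n x D) (hH : H = 2 * h + κ) (hκ2 : 2 ≤ κ) (z lo i B : ℤ)
    (hz : z ≤ -D) (hzi : z = -H + κ + i) (hi0 : 0 ≤ i) (hi1 : i ≤ κ - 1) (hB : B = i ∨ B = i + 1)
    (hB1 : 1 ≤ B) (hB2 : B = i + 1 → i = 0)
    (xz : x z = 0) (hlo : z < lo) (hlo' : lo ≤ 0)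
    (Q : QA F x H D (z + 1) lo) : False := by
  have hD := X.hD
  have hh := X.hh
  have P0 := Q (B - i) (by omega) (by omega)
  have x00 := X.x00
  have a1 := X.mono (z + 1) 0 (by omega)
  have a2 := X.x0 (z + 1)
  have a4 := X.mono (z - B) z (by omega)
  have a5 := X.x0 (z - B)
  have e1 := X.J (z + 1) B (by omega) (by omega) (by
    rw [show z + 1 - B - 1 = z - B by ring]; omega)
  rw [show z + 1 - 2 * B - 1 = z - 2 * B by ring] at e1
  have e2 := X.fx (z - B)
  rw [show z - B + 2 * h = -(B - i) by rw [hzi, hH]; ring] at e2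
  obtain ⟨hb, -, hh, hm, hn, non, x0, x1, hD, hD', -, -, -, -⟩ := X
  clear Q x0 x1
  have P1 := P0.append (RP.up hb (z - 2 * B) (z - B) (by omega) (by omega)) e1 (by
      intros
      simp only [Set.mem_ofPred_eq, Set.mem_insert_iff, Set.mem_union, Set.mem_singleton_iff,
        Set.mem_empty_iff_false, or_false] at *
      apply ndvd <;> omega) (by
      intros
      simp only [Set.mem_ofPred_eq, Set.mem_insert_iff, Set.mem_union, Set.mem_singleton_iff,
        Set.mem_empty_iff_false, or_false] at *
      apply ndvd <;> omega) (by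
      intros
      simp only [Set.mem_ofPred_eq, Set.mem_insert_iff, Set.mem_union, Set.mem_singleton_iff,
        Set.mem_empty_iff_false, or_false] at *
      apply ndvd <;> omega) (by
      intros
      simp only [Set.mem_ofPred_eq, Set.mem_insert_iff, Set.mem_union, Set.mem_singleton_iff,
        Set.mem_empty_iff_false, or_false] at *
      apply ndvd <;> omega)
  exact P1.false non (by omega) (by omega) e2 (by
      intros
      simp only [Set.mem_ofPred_eq, Set.mem_insert_iff, Set.mem_union, Set.mem_singleton_iff,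
        Set.mem_empty_iff_false, or_false] at *
      apply ndvd <;> omega)

theorem CtxG.t4c (X : CtxG F h κ n x D) (hH : H = 2 * h + κ) (hκ2 : 2 ≤ κ)
    (hbe : κ = 2 * b + 1 - e) (he : e = 0 ∨ e = 1) (z lo i : ℤ)
    (hz : z ≤ -D - 1) (hzi : z = -H + κ + i) (hi0 : 0 ≤ i) (hi1 : i ≤ b) (hi2 : b - i + 1 ≤ D)
    (xz : x (z + H) = 0) (hlo : z + x z < lo) (hlo' : lo ≤ 0)
    (Q : QB F x H D e (z + 1) lo) : False := by
  have hD := X.hD
  have hh := X.hh
  have P0 := Q (b - i) (by omega) (by omega)
  have x00 := X.x00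
  have a1 := X.x1 (z + 1 + H)
  have a2 := X.x0 (z + 1 + H)
  have a3 := X.x0 z
  have a4 := X.mono (z + 1 - κ + b - e) z (by omega)
  have a5 := X.x0 (z + 1 - κ + b - e)
  have e1 := X.fx (z + 1 + H)
  rw [show z + 1 + H + 2 * h = z + 1 - κ + m by rw [hH, X.hm]; ring, F.K_add_right] at e1
  have e2 := X.fx (z + 1 - κ + b - e)
  rw [show z + 1 - κ + b - e + 2 * h = -(b - i) by rw [hzi, hH, hbe]; ring] at e2
  obtain ⟨hb, -, hh, hm, hn, non, x0, x1, hD, hD', -, -, -, -⟩ := X
  clear Q x0 x1
  have P1 := P0.append (RP.up hb (z + 1 - κ) (z + 1 - κ + b - e) (by omega) (by omega)) e1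
    (by
        intros
        simp only [Set.mem_ofPred_eq, Set.mem_insert_iff, Set.mem_union, Set.mem_singleton_iff,
          Set.mem_empty_iff_false, or_false] at *
        apply ndvd <;> omega) (by
        intros
        simp only [Set.mem_ofPred_eq, Set.mem_insert_iff, Set.mem_union, Set.mem_singleton_iff,
          Set.mem_empty_iff_false, or_false] at *
        apply ndvd <;> omega) (by
        intros
        simp only [Set.mem_ofPred_eq, Set.mem_insert_iff, Set.mem_union, Set.mem_singleton_iff,
          Set.mem_empty_iff_false, or_false] at *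
        apply ndvd <;> omega) (by
        intros
        simp only [Set.mem_ofPred_eq, Set.mem_insert_iff, Set.mem_union, Set.mem_singleton_iff,
          Set.mem_empty_iff_false, or_false] at *
        apply ndvd <;> omega)
  exact P1.false non (by omega) (by omega) e2 (by
      intros
      simp only [Set.mem_ofPred_eq, Set.mem_insert_iff, Set.mem_union, Set.mem_singleton_iff,
        Set.mem_empty_iff_false, or_false] at *
      apply ndvd <;> omega)

theorem CtxG.t4h (X : CtxG F h κ n x D) (hH : H = 2 * h + κ) (hκ2 : 2 ≤ κ)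
    (hbe : κ = 2 * b + 1 - e) (he : e = 0 ∨ e = 1) (z lo i B : ℤ)
    (hz : z ≤ -D - 1) (hzi : z = -H + κ + i) (hi0 : e ≤ i) (hi1 : i ≤ b) (hi2 : D ≤ b - i)
    (hB : B = i - e ∨ B = i - e + 1) (hB1 : 1 ≤ B) (hB2 : B = i - e + 1 → i = e)
    (xz : x (z + H) = 0) (hlo : z + x z < lo) (hlo' : lo ≤ 0)
    (Q : QB F x H D e (z + 1) lo) : False := by
  have hD := X.hD
  have hh := X.hh
  have P0 := Q 0 (by omega) (by omega)
  have a1 := X.x1 (z + 1 + H)
  have a2 := X.x0 (z + 1 + H)
  have a3 := X.x0 z
  have a4 := X.mono (z - B + H) (z + H) (by omega)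
  have a5 := X.mono (z - 2 * B + i - e + H) (z + H) (by omega)
  have a6 := X.x0 (z - 2 * B + i - e + H)
  have e1 := X.J (z + 1 + H) B (by omega) (by omega) (by
    rw [show z + 1 + H - B - 1 = z - B + H by ring]; omega)
  rw [show z + 1 + H - 2 * B - 1 = z - 2 * B + H by ring] at e1
  have e2 := X.J (z - 2 * B + i - e + H) (b + i - e - B) (by omega) (by omega) (by
    have := X.x1 (z - 2 * B + i - e + H - (b + i - e - B) - 1)
    omega)
  rw [show z - 2 * B + i - e + H - 2 * (b + i - e - B) - 1 = -0 by rw [hzi, hH, hbe]; ring] at e2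
  obtain ⟨hb, -, hh, hm, hn, non, x0, x1, hD, hD', -, -, -, -⟩ := X
  clear Q x0 x1
  have P1 := P0.append (RP.up hb (z - 2 * B + H) (z - 2 * B + i - e + H) (by omega) (by omega)) e1
    (by
        intros
        simp only [Set.mem_ofPred_eq, Set.mem_insert_iff, Set.mem_union, Set.mem_singleton_iff,
          Set.mem_empty_iff_false, or_false] at *
        apply ndvd <;> omega) (by
        intros
        simp only [Set.mem_ofPred_eq, Set.mem_insert_iff, Set.mem_union, Set.mem_singleton_iff,
          Set.mem_empty_iff_false, or_false] at *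
        apply ndvd <;> omega) (by
        intros
        simp only [Set.mem_ofPred_eq, Set.mem_insert_iff, Set.mem_union, Set.mem_singleton_iff,
          Set.mem_empty_iff_false, or_false] at *
        apply ndvd <;> omega) (by
        intros
        simp only [Set.mem_ofPred_eq, Set.mem_insert_iff, Set.mem_union, Set.mem_singleton_iff,
          Set.mem_empty_iff_false, or_false] at *
        apply ndvd <;> omega)
  exact P1.false non (by omega) (by omega) e2 (by
      intros
      simp only [Set.mem_ofPred_eq, Set.mem_insert_iff, Set.mem_union, Set.mem_singleton_iff,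
        Set.mem_empty_iff_false, or_false] at *
      apply ndvd <;> omega)

theorem CtxG.t4g (X : CtxG F h κ n x D) (hH : H = 2 * h + κ) (hκ2 : 2 ≤ κ)
    (hbe : κ = 2 * b + 1 - e) (he : e = 0 ∨ e = 1) (z lo i B : ℤ)
    (hz : z ≤ -D - 1) (hzi : z = -H + κ + i) (hi0 : b + 1 ≤ i) (hi1 : i ≤ κ - 1)
    (hB : B = i - b - 1 ∨ B = i - b) (hB1 : 1 ≤ B) (hB2 : B = i - b → i = b + 1)
    (xz : x (z + H) = 0) (hlo : z + x z < lo) (hlo' : lo ≤ 0)
    (Q : QB F x H D e (z + 1) lo) : False := by
  have hD := X.hD
  have hh := X.hh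
  have P0 := Q (B + b + 1 - i) (by omega) (by omega)
  have a1 := X.x1 (z + 1 + H)
  have a2 := X.x0 (z + 1 + H)
  have a3 := X.x0 z
  have a4 := X.mono (z - B + H) (z + H) (by omega)
  have a5 := X.mono (z - 2 * B + H) (z + H) (by omega)
  have a6 := X.x0 (z - 2 * B + H)
  have a7 := X.mono (z - B - κ + b - e) z (by omega)
  have a8 := X.x0 (z - B - κ + b - e)
  have e1 := X.J (z + 1 + H) B (by omega) (by omega) (by
    rw [show z + 1 + H - B - 1 = z - B + H by ring]; omega)
  rw [show z + 1 + H - 2 * B - 1 = z - 2 * B + H by ring] at e1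
  have e2 := X.fx (z - 2 * B + H)
  rw [show z - 2 * B + H + 2 * h = z - 2 * B - κ + m by rw [hH, X.hm]; ring, F.K_add_right] at e2
  have e3 := X.fx (z - B - κ + b - e)
  rw [show z - B - κ + b - e + 2 * h = -(B + b + 1 - i) by rw [hzi, hH, hbe]; ring] at e3
  obtain ⟨hb, -, hh, hm, hn, non, x0, x1, hD, hD', -, -, -, -⟩ := X
  clear Q x0 x1
  have P1 := P0.snoc e1 (by
      intros
      simp only [Set.mem_ofPred_eq, Set.mem_insert_iff, Set.mem_union, Set.mem_singleton_iff,
        Set.mem_empty_iff_false, or_false] at *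
      apply ndvd <;> omega) (by
      intros
      simp only [Set.mem_ofPred_eq, Set.mem_insert_iff, Set.mem_union, Set.mem_singleton_iff,
        Set.mem_empty_iff_false, or_false] at *
      apply ndvd <;> omega)
  have P2 := P1.append (RP.up hb (z - 2 * B - κ) (z - B - κ + b - e) (by omega) (by omega)) e2
    (by
        intros
        simp only [Set.mem_ofPred_eq, Set.mem_insert_iff, Set.mem_union, Set.mem_singleton_iff,
          Set.mem_empty_iff_false, or_false] at *
        apply ndvd <;> omega) (by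
        intros
        simp only [Set.mem_ofPred_eq, Set.mem_insert_iff, Set.mem_union, Set.mem_singleton_iff,
          Set.mem_empty_iff_false, or_false] at *
        apply ndvd <;> omega) (by
        intros
        simp only [Set.mem_ofPred_eq, Set.mem_insert_iff, Set.mem_union, Set.mem_singleton_iff,
          Set.mem_empty_iff_false, or_false] at *
        apply ndvd <;> omega) (by
        intros
        simp only [Set.mem_ofPred_eq, Set.mem_insert_iff, Set.mem_union, Set.mem_singleton_iff,
          Set.mem_empty_iff_false, or_false] at *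
        apply ndvd <;> omega)
  exact P2.false non (by omega) (by omega) e3 (by
      intros
      simp only [Set.mem_ofPred_eq, Set.mem_insert_iff, Set.mem_union, Set.mem_singleton_iff,
        Set.mem_empty_iff_false, or_false] at *
      apply ndvd <;> omega)

end

end Pool.Agent.H81.Rainbow
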